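import Mathlib

set_option autoImplicit false

/-! Counting in 3-designs: point and pair degrees, moments of the block intersection numbers. -/

namespace Pool.Agent.Lib.MP_6202c5_co

open Finset

variable {v : ℕ}

/-- number of blocks containing `T` -/
def deg (B : Finset (Finset (Fin v))) (T : Finset (Fin v)) : ℕ := (B.filter (fun b => T ⊆ b)).card

theorem sum_deg_insert (B : Finset (Finset (Fin v))) (k : ℕ) (hk : ∀ b ∈ B, b.card = k)
    (T : Finset (Fin v)) :
    ∑ R ∈ univ \ T, deg B (insert R T) = deg B T * (k - T.card) := by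
  classical
  have h1 : ∀ R ∈ univ \ T, deg B (insert R T) =
      ((B.filter (fun b => T ⊆ b)).filter (fun b => R ∈ b)).card := by
    intro R _
    unfold deg
    rw [filter_filter]
    congr 1
    ext b
    simp only [mem_filter, insert_subset_iff]
    tauto
  rw [sum_congr rfl h1]
  have h2 : ∑ R ∈ univ \ T, ((B.filter (fun b => T ⊆ b)).filter (fun b => R ∈ b)).card
      = ∑ b ∈ B.filter (fun b => T ⊆ b), ((univ \ T).filter (fun R => R ∈ b)).card := by
    simp only [card_filter]
    rw [sum_comm]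
  rw [h2]
  have h3 : ∀ b ∈ B.filter (fun b => T ⊆ b), ((univ \ T).filter (fun R => R ∈ b)).card
      = k - T.card := by
    intro b hb
    rw [mem_filter] at hb
    have : (univ \ T).filter (fun R => R ∈ b) = b \ T := by
      ext R
      simp only [mem_filter, mem_sdiff, mem_univ, true_and]
      tauto
    rw [this, card_sdiff_of_subset hb.2, hk b hb.1]
  rw [sum_congr rfl h3, sum_const, smul_eq_mul]
  rfl

/-- moments: number of `j`-subsets of `b₀` counted in all blocks -/
theorem sum_choose_inter (B : Finset (Finset (Fin v))) (b₀ : Finset (Fin v)) (j : ℕ) :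
    ∑ b ∈ B, ((b₀ ∩ b).card).choose j = ∑ T ∈ powersetCard j b₀, deg B T := by
  classical
  have h1 : ∀ b ∈ B, ((b₀ ∩ b).card).choose j
      = ((powersetCard j b₀).filter (fun T => T ⊆ b)).card := by
    intro b _
    rw [← card_powersetCard]
    congr 1
    ext T
    simp only [mem_powersetCard, mem_filter, subset_inter_iff]
    tauto
  rw [sum_congr rfl h1]
  unfold deg
  simp only [card_filter]
  rw [sum_comm]

theorem three_choose (n : ℕ) : (6 : ℤ) * (n.choose 3 : ℤ) = n * (n - 1) * (n - 2) := by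
  induction n with
  | zero => simp
  | succ n ih =>
    rw [Nat.choose_succ_succ' n 2]
    have h2 : (2 : ℤ) * (n.choose 2 : ℤ) = n * (n - 1) := by
      clear ih
      induction n with
      | zero => simp
      | succ n ih =>
        rw [Nat.choose_succ_succ' n 1]
        push_cast
        simp only [Nat.choose_one_right]
        linarith
    push_cast
    linear_combination ih + 3 * h2

theorem two_choose (n : ℕ) : (2 : ℤ) * (n.choose 2 : ℤ) = n * (n - 1) := by
  induction n with
  | zero => simp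
  | succ n ih =>
    rw [Nat.choose_succ_succ' n 1]
    push_cast
    simp only [Nat.choose_one_right]
    linarith

/-- the numerical data of a 3-design -/
structure Data (B : Finset (Finset (Fin v))) (k l l2 r : ℕ) : Prop where
  hk : ∀ b ∈ B, b.card = k
  h3 : ∀ T : Finset (Fin v), T.card = 3 → deg B T = l
  h2 : ∀ T : Finset (Fin v), T.card = 2 → deg B T = l2
  h1 : ∀ T : Finset (Fin v), T.card = 1 → deg B T = r
  e2 : l2 * (k - 2) = l * (v - 2)
  e1 : r * (k - 1) = l2 * (v - 1)
  e0 : B.card * k = r * v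

theorem exists_data (B : Finset (Finset (Fin v))) (k l : ℕ) (hk : ∀ b ∈ B, b.card = k)
    (h3 : ∀ T : Finset (Fin v), T.card = 3 → deg B T = l) (h3k : 3 ≤ k) (hv : k ≤ v) :
    ∃ l2 r : ℕ, Data B k l l2 r := by
  classical
  have hv2 : 2 ≤ (univ : Finset (Fin v)).card := by
    rw [card_univ, Fintype.card_fin]; omega
  have hv1 : 1 ≤ (univ : Finset (Fin v)).card := by omega
  obtain ⟨T2, -, hT2⟩ := exists_subset_card_eq hv2
  obtain ⟨T1, -, hT1⟩ := exists_subset_card_eq hv1
  have key2 : ∀ T : Finset (Fin v), T.card = 2 → deg B T * (k - 2) = l * (v - 2) := by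
    intro T hT
    have h := sum_deg_insert B k hk T
    rw [hT] at h
    rw [← h]
    have : ∀ R ∈ univ \ T, deg B (insert R T) = l := by
      intro R hR
      apply h3
      rw [card_insert_of_notMem (by simpa using hR), hT]
    rw [sum_congr rfl this, sum_const, smul_eq_mul, card_sdiff_of_subset (subset_univ _), hT,
      card_univ, Fintype.card_fin, mul_comm]
  have h2 : ∀ T : Finset (Fin v), T.card = 2 → deg B T = deg B T2 := by
    intro T hT
    have h := (key2 T hT).trans (key2 T2 hT2).symm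
    exact Nat.eq_of_mul_eq_mul_right (by omega) h
  have key1 : ∀ T : Finset (Fin v), T.card = 1 → deg B T * (k - 1) = deg B T2 * (v - 1) := by
    intro T hT
    have h := sum_deg_insert B k hk T
    rw [hT] at h
    rw [← h]
    have : ∀ R ∈ univ \ T, deg B (insert R T) = deg B T2 := by
      intro R hR
      apply h2
      rw [card_insert_of_notMem (by simpa using hR), hT]
    rw [sum_congr rfl this, sum_const, smul_eq_mul, card_sdiff_of_subset (subset_univ _), hT,
      card_univ, Fintype.card_fin, mul_comm]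
  have h1 : ∀ T : Finset (Fin v), T.card = 1 → deg B T = deg B T1 := by
    intro T hT
    have h := (key1 T hT).trans (key1 T1 hT1).symm
    exact Nat.eq_of_mul_eq_mul_right (by omega) h
  refine ⟨deg B T2, deg B T1, ⟨hk, h3, h2, h1, key2 T2 hT2, key1 T1 hT1, ?_⟩⟩
  have h := sum_deg_insert B k hk ∅
  have h0 : deg B ∅ = B.card := by
    unfold deg; simp
  rw [h0, card_empty, Nat.sub_zero] at h
  rw [← h]
  have : ∀ R ∈ (univ : Finset (Fin v)) \ ∅, deg B (insert R ∅) = deg B T1 := by
    intro R _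
    apply h1
    simp
  rw [sum_congr rfl this, sum_const, smul_eq_mul, sdiff_empty, card_univ, Fintype.card_fin,
    mul_comm]

variable {B : Finset (Finset (Fin v))} {k l l2 r : ℕ}

theorem moment1 (D : Data B k l l2 r) {b₀ : Finset (Fin v)} (hb : b₀ ∈ B) :
    ∑ b ∈ B, ((b₀ ∩ b).card : ℤ) = k * r := by
  have h := sum_choose_inter B b₀ 1
  rw [sum_congr rfl (fun T hT => D.h1 T (mem_powersetCard.mp hT).2), sum_const,
    card_powersetCard, D.hk b₀ hb] at h
  simp only [Nat.choose_one_right, smul_eq_mul] at h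
  exact_mod_cast h

theorem moment2 (D : Data B k l l2 r) {b₀ : Finset (Fin v)} (hb : b₀ ∈ B) :
    ∑ b ∈ B, ((b₀ ∩ b).card : ℤ) * ((b₀ ∩ b).card - 1) = k * (k - 1) * l2 := by
  have h := sum_choose_inter B b₀ 2
  rw [sum_congr rfl (fun T hT => D.h2 T (mem_powersetCard.mp hT).2), sum_const,
    card_powersetCard, D.hk b₀ hb, smul_eq_mul] at h
  have h' : (∑ b ∈ B, (((b₀ ∩ b).card).choose 2 : ℤ)) = (k.choose 2 : ℤ) * l2 := by
    exact_mod_cast h
  have h'' : ∑ b ∈ B, ((b₀ ∩ b).card : ℤ) * ((b₀ ∩ b).card - 1)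
      = 2 * ∑ b ∈ B, (((b₀ ∩ b).card).choose 2 : ℤ) := by
    rw [mul_sum]
    exact sum_congr rfl (fun b _ => (two_choose _).symm)
  rw [h'', h', ← mul_assoc, two_choose]

theorem moment3 (D : Data B k l l2 r) {b₀ : Finset (Fin v)} (hb : b₀ ∈ B) :
    ∑ b ∈ B, ((b₀ ∩ b).card : ℤ) * ((b₀ ∩ b).card - 1) * ((b₀ ∩ b).card - 2)
      = k * (k - 1) * (k - 2) * l := by
  have h := sum_choose_inter B b₀ 3
  rw [sum_congr rfl (fun T hT => D.h3 T (mem_powersetCard.mp hT).2), sum_const,
    card_powersetCard, D.hk b₀ hb, smul_eq_mul] at h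
  have h' : (∑ b ∈ B, (((b₀ ∩ b).card).choose 3 : ℤ)) = (k.choose 3 : ℤ) * l := by
    exact_mod_cast h
  have h'' : ∑ b ∈ B, ((b₀ ∩ b).card : ℤ) * ((b₀ ∩ b).card - 1) * ((b₀ ∩ b).card - 2)
      = 6 * ∑ b ∈ B, (((b₀ ∩ b).card).choose 3 : ℤ) := by
    rw [mul_sum]
    exact sum_congr rfl (fun b _ => (three_choose _).symm)
  rw [h'', h', ← mul_assoc, three_choose]

/-- the two equations of a quasi-symmetric 3-design -/
theorem qs_equations (D : Data B k l l2 r) {x y : ℕ} {b₀ : Finset (Fin v)} (hb : b₀ ∈ B)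
    (hqs : ∀ b ∈ B, b ≠ b₀ → (b₀ ∩ b).card = x ∨ (b₀ ∩ b).card = y) (hkpos : 0 < k) :
    (k : ℤ) * (k - 1) * l2 - (x + y - 1) * k * r + x * y * B.card = (k - x) * (k - y) ∧
    ((k : ℤ) - 1) * (k - 2) * l - (x + y - 3) * (k - 1) * l2 + (x - 1) * (y - 1) * r
      = (k - x) * (k - y) := by
  have m1 := moment1 D hb
  have m2 := moment2 D hb
  have m3 := moment3 D hb
  have hself : (b₀ ∩ b₀).card = k := by rw [inter_self, D.hk b₀ hb]
  have s2 : ∑ b ∈ B, (((b₀ ∩ b).card : ℤ) - x) * ((b₀ ∩ b).card - y) = (k - x) * (k - y) := by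
    rw [sum_eq_single_of_mem b₀ hb, hself]
    intro b hbB hne
    rcases hqs b hbB hne with h | h <;> rw [h] <;> ring
  have s3 : ∑ b ∈ B, ((b₀ ∩ b).card : ℤ) * ((((b₀ ∩ b).card : ℤ) - x) * ((b₀ ∩ b).card - y))
      = k * ((k - x) * (k - y)) := by
    rw [sum_eq_single_of_mem b₀ hb, hself]
    intro b hbB hne
    rcases hqs b hbB hne with h | h <;> rw [h] <;> ring
  have e2 : ∑ b ∈ B, (((b₀ ∩ b).card : ℤ) - x) * ((b₀ ∩ b).card - y)
      = ∑ b ∈ B, ((b₀ ∩ b).card : ℤ) * ((b₀ ∩ b).card - 1)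
        - (x + y - 1) * ∑ b ∈ B, ((b₀ ∩ b).card : ℤ) + x * y * B.card := by
    rw [mul_sum, ← sum_sub_distrib, card_eq_sum_ones]
    push_cast
    rw [mul_sum, ← sum_add_distrib]
    exact sum_congr rfl (fun b _ => by ring)
  have e3 : ∑ b ∈ B, ((b₀ ∩ b).card : ℤ) * ((((b₀ ∩ b).card : ℤ) - x) * ((b₀ ∩ b).card - y))
      = ∑ b ∈ B, ((b₀ ∩ b).card : ℤ) * ((b₀ ∩ b).card - 1) * ((b₀ ∩ b).card - 2)
        - (x + y - 3) * ∑ b ∈ B, ((b₀ ∩ b).card : ℤ) * ((b₀ ∩ b).card - 1)
        + (x - 1) * (y - 1) * ∑ b ∈ B, ((b₀ ∩ b).card : ℤ) := by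
    rw [mul_sum, mul_sum, ← sum_sub_distrib, ← sum_add_distrib]
    exact sum_congr rfl (fun b _ => by ring)
  have hk0 : (k : ℤ) ≠ 0 := by exact_mod_cast hkpos.ne'
  constructor
  · rw [← s2, e2, m1, m2]; ring
  · rw [s3, m1, m2, m3] at e3
    apply mul_left_cancel₀ hk0
    linear_combination (-1) * e3

end Pool.Agent.Lib.MP_6202c5_co
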