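import Pool.Agent.Lib.MP_6202c5_co.Zero

set_option autoImplicit false

/-! An explicit bound for the block size: `k - 1 ≤ s² p² (p + 3)`, `s = x + y - 1`, `p = x y`. -/

namespace Pool.Agent.Lib.MP_6202c5_co

/-- from a cubic with nonnegative lower coefficients -/
theorem le_of_cubic (F3 F2 F1 F0 c b : ℤ) (hc : 0 < c) (h3 : 1 ≤ F3) (h1 : 0 ≤ F1) (h0 : 0 ≤ F0)
    (h2 : F2 ≤ F3 * b) (h : F3 * c ^ 3 - F2 * c ^ 2 + F1 * c + F0 = 0) : c ≤ b := by
  by_contra hcon
  have hcb : b + 1 ≤ c := by omega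
  have h4 : F3 * b < F3 * c := mul_lt_mul_of_pos_left (by omega) (by omega)
  have h5 : F2 < F3 * c := lt_of_le_of_lt h2 h4
  have h6 : F2 * c ^ 2 < F3 * c * c ^ 2 := mul_lt_mul_of_pos_right h5 (by positivity)
  have h7 : 0 ≤ F1 * c := mul_nonneg h1 hc.le
  have h8 : F3 * c * c ^ 2 = F3 * c ^ 3 := by ring
  linarith

namespace Sys

variable {x z m c V l g n : ℤ} (h : Sys x z m c V l g n)

include h

theorem c_le_pos (s p e : ℤ) (hs : s = 2 * x + z - 1) (hp : p = x * (x + z))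
    (he : e = s ^ 2 - 4 * p) (he0 : 1 ≤ e) : c ≤ s ^ 2 * p ^ 2 * (p + 3) := by
  have hcub := h.cubic s p e hs hp he
  have hwin := h.window s p e hs hp he (by omega)
  have hG := h.G_pos s p hs hp
  have hl := h.l_gt
  have hx := h.hx
  have hz := h.z_ge
  have hc := h.c_pos
  have hs1 : 1 ≤ s := by omega
  have hls : 1 ≤ l - s := by omega
  have hps : s ≤ p := by
    rw [hs, hp]; nlinarith
  have hzs : z ≤ s := by omega
  have hes : e + 2 * s = z ^ 2 - 1 := by rw [he, hs, hp]; ring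
  obtain ⟨w, hw⟩ : ∃ w, w = l * (l - s) := ⟨_, rfl⟩
  rw [← hw] at hcub hwin
  have hl0 : 0 ≤ l := by omega
  have hlw : l ≤ w := by
    rw [hw]; exact le_mul_of_one_le_right hl0 hls
  have hw0 : 0 ≤ w := by omega
  have hwp : w ≤ p ^ 2 := by
    have : 1 * w ≤ e * w := mul_le_mul_of_nonneg_right he0 hw0
    omega
  have hF3 : 1 ≤ p ^ 2 - e * w := by omega
  have hF1 : 0 ≤ p * (s - p) ^ 2 + (l * s - p) * ((s - 2 * p) * (s - l) + p) := by
    have a1 : 0 ≤ (2 * p - s) * (l - s) := mul_nonneg (by omega) (by omega)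
    have a2 : (s - 2 * p) * (s - l) = (2 * p - s) * (l - s) := by ring
    rw [a2]
    have a3 : 0 ≤ p * (s - p) ^ 2 := mul_nonneg (by omega) (sq_nonneg _)
    have a4 : 0 ≤ (l * s - p) * ((2 * p - s) * (l - s) + p) := mul_nonneg hG.le (by omega)
    omega
  have hF0 : 0 ≤ p * (p - s) * (l * s - p) :=
    mul_nonneg (mul_nonneg (by omega) (by omega)) hG.le
  refine le_of_cubic _ _ _ _ c _ (by omega) hF3 hF1 hF0 ?_ hcub
  have hb0 : 0 ≤ s ^ 2 * p ^ 2 * (p + 3) := by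
    have : 0 ≤ p + 3 := by omega
    positivity
  have hB : 2 * s ^ 2 * w + l * p * (e + 2 * s) + p ^ 2 * s ≤ s ^ 2 * p ^ 2 * (p + 3) := by
    have b1 : 2 * s ^ 2 * w ≤ 2 * s ^ 2 * p ^ 2 := mul_le_mul_of_nonneg_left hwp (by positivity)
    have b2 : z ^ 2 - 1 ≤ s ^ 2 := by nlinarith
    have b3 : l * p * (e + 2 * s) ≤ p ^ 2 * p * s ^ 2 := by
      rw [hes]
      have c1 : l * p ≤ p ^ 2 * p := mul_le_mul_of_nonneg_right (by omega) (by omega)
      have c2 : 0 ≤ z ^ 2 - 1 := by nlinarith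
      exact mul_le_mul c1 b2 c2 (mul_nonneg (sq_nonneg p) (by omega))
    have b4 : p ^ 2 * s ≤ p ^ 2 * s ^ 2 := by
      have : s ≤ s ^ 2 := by nlinarith
      exact mul_le_mul_of_nonneg_left this (sq_nonneg p)
    linarith
  have hmul : s ^ 2 * p ^ 2 * (p + 3) ≤ (p ^ 2 - e * w) * (s ^ 2 * p ^ 2 * (p + 3)) :=
    le_mul_of_one_le_left hb0 hF3
  linarith

theorem c_le_neg (s p e : ℤ) (hs : s = 2 * x + z - 1) (hp : p = x * (x + z))
    (he : e = s ^ 2 - 4 * p) (he0 : e < 0) (hs4 : 4 ≤ s) : c ≤ s ^ 2 * p ^ 2 * (p + 3) := by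
  have hb := h.neg_bound s p e hs hp he he0 hs4
  have hx := h.hx
  have hz := h.z_ge
  have hc := h.c_pos
  have h1 : 1 * c ≤ -e * c := mul_le_mul_of_nonneg_right (by omega) (by omega)
  have hp3 : 2 ≤ p := by rw [hp]; nlinarith
  have h2 : 2 * s ^ 2 ≤ s ^ 2 * (p ^ 2 * (p + 3)) := by
    have : 2 ≤ p ^ 2 * (p + 3) := by nlinarith
    nlinarith [sq_nonneg s]
  linarith

theorem c_le_zero (a : ℤ) (ha : 3 ≤ a) (hs : 2 * x + z - 1 = 4 * a)
    (hp : x * (x + z) = 4 * a ^ 2) : c ≤ 32 * a ^ 6 + 4 * a := by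
  obtain ⟨u, hu⟩ : ∃ u, u = l - a := ⟨_, rfl⟩
  have hu' : l = u + a := by omega
  have hcub := h.zero_cubic a u (by omega) hs hp hu'
  obtain ⟨h1, h2⟩ := h.zero_bound a u ha hs hp hu'
  have hc := h.c_pos
  have ha0 : 0 < a := by omega
  have hu0 : 0 < u := by omega
  refine le_of_cubic (a ^ 2) _ _ _ c _ (by omega) (by nlinarith) ?_ ?_ ?_ hcub
  · have e1 : 2 * a * (3 * a - 2) ≤ (2 * a - 1) * u := by
      have : (2 * a - 1) * (3 * a + 1) ≤ (2 * a - 1) * u :=
        mul_le_mul_of_nonneg_left h1 (by omega)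
      nlinarith
    have e2 : 2 * a * (3 * a - 2) * u ≤ (2 * a - 1) * u * u := mul_le_mul_of_nonneg_right e1 hu0.le
    have e3 : 0 ≤ 4 * a ^ 2 * (a - 1) ^ 2 := by positivity
    linarith
  · have : 0 ≤ a - 1 := by omega
    positivity
  · have hu4 : u ≤ 4 * a ^ 4 := by
      have : a ≤ 3 * a ^ 3 := by nlinarith [sq_nonneg a, mul_pos ha0 ha0]
      linarith
    have e1 : u ^ 2 ≤ (4 * a ^ 4) ^ 2 := pow_le_pow_left₀ hu0.le hu4 2
    have e2 : 0 < 2 * a * u := by positivity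
    have e3 : 0 < a ^ 2 := by positivity
    nlinarith

/-- the block size is bounded in terms of `x` and `y` -/
theorem c_le (s p : ℤ) (hs : s = 2 * x + z - 1) (hp : p = x * (x + z)) :
    c ≤ s ^ 2 * p ^ 2 * (p + 3) := by
  have hx := h.hx
  have hz := h.z_ge
  obtain ⟨e, he⟩ : ∃ e, e = s ^ 2 - 4 * p := ⟨_, rfl⟩
  have he' := h.e_eq s p hs hp
  rw [← he] at he'
  rcases lt_trichotomy e 0 with h0 | h0 | h0
  · rcases le_or_gt 4 s with h4 | h4
    · exact h.c_le_neg s p e hs hp he h0 h4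
    · have hx1 : x = 1 := by omega
      have hz2 : z = 2 := by omega
      subst hx1 hz2
      have hs3 : s = 3 := by omega
      have hp3 : p = 3 := by rw [hp]; norm_num
      subst hs3 hp3
      have k2 := h.eD 3 3 (-3) _ (by norm_num) (by norm_num) (by norm_num) rfl
      obtain ⟨D, hD⟩ : ∃ D, D = 2 * c ^ 2 - 3 * V := ⟨_, rfl⟩
      rw [← hD] at k2
      have hsq : 9 * (-3 * c ^ 4 + 18 * c ^ 3 + 3 * c ^ 2 - 18 * c + 9)
          = (6 * D + (-3 * c ^ 2 + 9 * c - 9)) ^ 2 := by linear_combination (-12) * k2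
      have h4 : 0 ≤ -3 * c ^ 4 + 18 * c ^ 3 + 3 * c ^ 2 - 18 * c + 9 := by
        have := sq_nonneg (6 * D + (-3 * c ^ 2 + 9 * c - 9))
        omega
      have h5 : c ≤ 6 := by
        by_contra hcon
        have h6 : 0 ≤ c - 7 := by omega
        nlinarith [mul_nonneg h6 h6, mul_nonneg (mul_nonneg h6 h6) h6,
          mul_nonneg (mul_nonneg h6 h6) (mul_nonneg h6 h6)]
      norm_num
      omega
  · -- e = 0
    rw [h0] at he'
    obtain ⟨t, ht⟩ : ∃ t, z - 1 = 2 * t := by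
      have h1 : Even ((z - 1) ^ 2) := ⟨2 * x, by linarith⟩
      have h2 : Even (z - 1) := by
        by_contra hcon
        rw [Int.not_even_iff_odd] at hcon
        exact (Int.not_even_iff_odd.mpr (hcon.pow)) h1
      obtain ⟨t, ht⟩ := h2
      exact ⟨t, by omega⟩
    have hxt : x = t ^ 2 := by
      rw [ht] at he'
      nlinarith
    have ht1 : 1 ≤ t := by omega
    obtain ⟨a, ha⟩ : ∃ a, t * (t + 1) = 2 * a := by
      obtain ⟨a, ha⟩ := Int.even_mul_succ_self t
      exact ⟨a, by omega⟩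
    have hz' : z = 2 * t + 1 := by omega
    rcases eq_or_lt_of_le ht1 with h1 | h1
    · exfalso
      subst h1
      have hx1 : x = 1 := by omega
      have hz3 : z = 3 := by omega
      subst hx1 hz3
      exact no_one_three h
    · have ha3 : 3 ≤ a := by nlinarith
      have hsa : 2 * x + z - 1 = 4 * a := by rw [hxt, hz']; linarith
      have hpa : x * (x + z) = 4 * a ^ 2 := by
        rw [hxt, hz']
        have : (2 * a) ^ 2 = (t * (t + 1)) ^ 2 := by rw [ha]
        nlinarith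
      have hb := h.c_le_zero a ha3 hsa hpa
      have hs' : s = 4 * a := by omega
      have hp' : p = 4 * a ^ 2 := by rw [hp, hpa]
      rw [hs', hp']
      have ha0 : 0 < a := by omega
      have e1 : (4 * a) ^ 2 * (4 * a ^ 2) ^ 2 * (4 * a ^ 2 + 3)
          = 1024 * (a ^ 6 * a ^ 2) + 768 * a ^ 6 := by ring
      rw [e1]
      have e2 : 0 < a ^ 6 * a ^ 2 := by positivity
      have e3 : 4 * a ≤ 4 * a ^ 6 := by
        have : a ^ 1 ≤ a ^ 6 := pow_le_pow_right₀ (by omega) (by norm_num)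
        linarith
      have e4 : 0 < a ^ 6 := by positivity
      linarith
  · exact h.c_le_pos s p e hs hp he (by omega)

end Sys

end Pool.Agent.Lib.MP_6202c5_co
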