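import Pool.Agent.Lib.MP_6202c5_co.Zero

set_option autoImplicit false

/-! Modular checkers for the cubic and the quadratic equation. -/

namespace Pool.Agent.Lib.MP_6202c5_co

noncomputable def bnot (b : Bool) : Bool := @Bool.rec (fun _ => Bool) true false b
noncomputable def band (a b : Bool) : Bool := @Bool.rec (fun _ => Bool) false b a
/-- `f i` holds for all `i < n` -/
noncomputable def allB (f : ℕ → Bool) (n : ℕ) : Bool :=
  @Nat.rec (fun _ => Bool) true (fun i ih => band (f i) ih) n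

theorem band_true {a b : Bool} (h : band a b = true) : a = true ∧ b = true := by
  cases a
  · exact absurd h (by simp [band])
  · exact ⟨rfl, h⟩

theorem bnot_true {b : Bool} (h : bnot b = true) : b = false := by
  cases b
  · rfl
  · exact absurd h (by simp [bnot])

theorem allB_true {f : ℕ → Bool} {n : ℕ} (h : allB f n = true) : ∀ i, i < n → f i = true := by
  induction n with
  | zero => intro i hi; omega
  | succ n ih =>
    intro i hi
    have h1 : band (f n) (allB f n) = true := h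
    obtain ⟨h2, h3⟩ := band_true h1
    rcases Nat.lt_succ_iff_lt_or_eq.mp hi with h4 | h4
    · exact ih h3 i h4
    · rw [h4]; exact h2

/-- `f3 c³ + f1 c + f0` and `f2 c²` differ modulo `n`, at `c = x1 + m z` -/
noncomputable def cub (n f3 f2 f1 f0 x1 z m : ℕ) : Bool :=
  (fun c => bnot (Nat.beq
    (Nat.mod (Nat.add (Nat.mul c (Nat.add (Nat.mul f3 (Nat.mul c c)) f1)) f0) n)
    (Nat.mod (Nat.mul f2 (Nat.mul c c)) n))) (Nat.add x1 (Nat.mul m z))

theorem cub_true {n f3 f2 f1 f0 x1 z m : ℕ} (h : cub n f3 f2 f1 f0 x1 z m = true) :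
    ¬ (f3 * (x1 + m * z) ^ 3 + f1 * (x1 + m * z) + f0 ≡ f2 * (x1 + m * z) ^ 2 [MOD n]) := by
  intro h1
  have h2 := bnot_true h
  have h3 := Nat.ne_of_beq_eq_false h2
  apply h3
  show ((x1 + m * z) * (f3 * ((x1 + m * z) * (x1 + m * z)) + f1) + f0) % n
    = (f2 * ((x1 + m * z) * (x1 + m * z))) % n
  have h4 : ((x1 + m * z) * (f3 * ((x1 + m * z) * (x1 + m * z)) + f1) + f0)
    = f3 * (x1 + m * z) ^ 3 + f1 * (x1 + m * z) + f0 := by ring
  have h5 : (f2 * ((x1 + m * z) * (x1 + m * z))) = f2 * (x1 + m * z) ^ 2 := by ring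
  rw [h4, h5]
  exact h1

/-- all `m` at once -/
noncomputable def cubAll (n f3 f2 f1 f0 x1 z : ℕ) : Bool :=
  band (Nat.ble 1 n) (allB (cub n f3 f2 f1 f0 x1 z) (Nat.div n (Nat.gcd n z)))

theorem period_dvd {n z : ℕ} (hn : 1 ≤ n) : n ∣ z * (n / Nat.gcd n z) ∧ 0 < n / Nat.gcd n z := by
  obtain ⟨a, ha⟩ := Nat.gcd_dvd_right n z
  obtain ⟨b, hb⟩ := Nat.gcd_dvd_left n z
  have hg : 0 < Nat.gcd n z := Nat.gcd_pos_of_pos_left z hn
  have h1 : n / Nat.gcd n z = b := Nat.div_eq_of_eq_mul_right hg hb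
  constructor
  · rw [h1]
    refine ⟨a, ?_⟩
    calc z * b = (Nat.gcd n z * a) * b := by rw [← ha]
      _ = (Nat.gcd n z * b) * a := by ring
      _ = n * a := by rw [← hb]
  · rw [h1]
    rcases Nat.eq_zero_or_pos b with h2 | h2
    · rw [h2, Nat.mul_zero] at hb; omega
    · exact h2

theorem cubAll_true {n f3 f2 f1 f0 x1 z : ℕ} (h : cubAll n f3 f2 f1 f0 x1 z = true) (m : ℕ) :
    f3 * (x1 + m * z) ^ 3 + f1 * (x1 + m * z) + f0 ≠ f2 * (x1 + m * z) ^ 2 := by
  obtain ⟨h1, h2⟩ := band_true h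
  have hn : 1 ≤ n := Nat.le_of_ble_eq_true h1
  obtain ⟨hd, hM⟩ := period_dvd (z := z) hn
  have h2' : allB (cub n f3 f2 f1 f0 x1 z) (n / Nat.gcd n z) = true := h2
  obtain ⟨M, hMd⟩ : ∃ M, M = n / Nat.gcd n z := ⟨_, rfl⟩
  rw [← hMd] at h2' hd hM
  intro heq
  have h3 := cub_true (allB_true h2' (m % M) (Nat.mod_lt _ hM))
  apply h3
  have hc : x1 + (m % M) * z ≡ x1 + m * z [MOD n] := by
    have h4 : x1 + m * z = x1 + (m % M) * z + (z * M) * (m / M) := by
      have h5 : m * z = (M * (m / M) + m % M) * z := by rw [Nat.div_add_mod]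
      rw [h5]; ring
    rw [h4]
    obtain ⟨t, ht⟩ := hd
    rw [ht, Nat.mul_assoc]
    exact (Nat.add_mul_mod_self_left _ _ _).symm
  have e1 : f3 * (x1 + m % M * z) ^ 3 + f1 * (x1 + m % M * z) + f0
      ≡ f3 * (x1 + m * z) ^ 3 + f1 * (x1 + m * z) + f0 [MOD n] :=
    Nat.ModEq.add_right _ (Nat.ModEq.add (Nat.ModEq.mul_left _ (hc.pow 3)) (Nat.ModEq.mul_left _ hc))
  have e2 : f2 * (x1 + m % M * z) ^ 2 ≡ f2 * (x1 + m * z) ^ 2 [MOD n] :=
    Nat.ModEq.mul_left _ (hc.pow 2)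
  refine e1.trans (Nat.ModEq.trans ?_ e2.symm)
  rw [heq]

/-- `p V (V+1) + K` and `T V` differ modulo `n` -/
noncomputable def quad (n p T K V : ℕ) : Bool :=
  bnot (Nat.beq (Nat.mod (Nat.add (Nat.mul p (Nat.mul V (Nat.add V 1))) K) n)
    (Nat.mod (Nat.mul T V) n))

noncomputable def quadAll (n p T K : ℕ) : Bool := band (Nat.ble 1 n) (allB (quad n p T K) n)

theorem quadAll_true {n p T K : ℕ} (h : quadAll n p T K = true) (V : ℕ) :
    p * (V * (V + 1)) + K ≠ T * V := by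
  obtain ⟨h1, h2⟩ := band_true h
  have hn : 1 ≤ n := Nat.le_of_ble_eq_true h1
  intro heq
  have h3 := bnot_true (allB_true h2 (V % n) (Nat.mod_lt _ hn))
  have h4 := Nat.ne_of_beq_eq_false h3
  apply h4
  show (p * ((V % n) * (V % n + 1)) + K) % n = (T * (V % n)) % n
  have hc : V % n ≡ V [MOD n] := Nat.mod_modEq V n
  have e1 : p * ((V % n) * (V % n + 1)) + K ≡ p * (V * (V + 1)) + K [MOD n] :=
    Nat.ModEq.add_right _ (Nat.ModEq.mul_left _ (Nat.ModEq.mul hc (Nat.ModEq.add_right 1 hc)))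
  have e2 : T * (V % n) ≡ T * V [MOD n] := Nat.ModEq.mul_left _ hc
  refine e1.trans (Nat.ModEq.trans ?_ e2.symm)
  rw [heq]

end Pool.Agent.Lib.MP_6202c5_co
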