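import Pool.Agent.Lib.MP_6202c5_co.Design

set_option autoImplicit false

/-! The complementary design, and the theorem without `2 k ≤ v`. -/

namespace Pool.Agent.Lib.MP_6202c5_co

open Finset

variable {v : ℕ} {B : Finset (Finset (Fin v))} {k l l2 r : ℕ}

/-- indicator of `p ∈ b` -/
theorem sum_ind (B : Finset (Finset (Fin v))) (T : Finset (Fin v)) :
    (deg B T : ℤ) = ∑ b ∈ B, (if T ⊆ b then (1 : ℤ) else 0) := by
  unfold deg
  rw [card_filter]
  push_cast
  rfl

theorem count_disjoint (D : Data B k l l2 r) (T : Finset (Fin v)) (hT : T.card = 3) :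
    ((B.filter (fun b => T ⊆ univ \ b)).card : ℤ) = B.card - 3 * r + 3 * l2 - l := by
  classical
  obtain ⟨p, q, t, hpq, hpt, hqt, rfl⟩ := card_eq_three.mp hT
  have e0 : (B.card : ℤ) = ∑ b ∈ B, (1 : ℤ) := by simp
  have e1 : ∀ u : Fin v, (r : ℤ) = ∑ b ∈ B, (if u ∈ b then (1 : ℤ) else 0) := by
    intro u
    have h1 := sum_ind B {u}
    rw [D.h1 {u} (card_singleton u)] at h1
    rw [h1]
    refine sum_congr rfl (fun b _ => ?_)
    simp only [singleton_subset_iff]
  have e2 : ∀ u w : Fin v, u ≠ w →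
      (l2 : ℤ) = ∑ b ∈ B, (if u ∈ b then (1 : ℤ) else 0) * (if w ∈ b then (1 : ℤ) else 0) := by
    intro u w huw
    have h1 := sum_ind B {u, w}
    rw [D.h2 {u, w} (card_pair huw)] at h1
    rw [h1]
    refine sum_congr rfl (fun b _ => ?_)
    by_cases h2 : u ∈ b <;> by_cases h3 : w ∈ b <;>
      simp [insert_subset_iff, h2, h3]
  have e3 : (l : ℤ) = ∑ b ∈ B, (if p ∈ b then (1 : ℤ) else 0) * (if q ∈ b then (1 : ℤ) else 0)
      * (if t ∈ b then (1 : ℤ) else 0) := by
    have h1 := sum_ind B {p, q, t}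
    rw [D.h3 {p, q, t} hT] at h1
    rw [h1]
    refine sum_congr rfl (fun b _ => ?_)
    by_cases h2 : p ∈ b <;> by_cases h3 : q ∈ b <;> by_cases h4 : t ∈ b <;>
      simp [insert_subset_iff, h2, h3, h4]
  have e4 : ((B.filter (fun b => ({p, q, t} : Finset (Fin v)) ⊆ univ \ b)).card : ℤ)
      = ∑ b ∈ B, (1 - (if p ∈ b then (1 : ℤ) else 0)) * (1 - (if q ∈ b then (1 : ℤ) else 0))
        * (1 - (if t ∈ b then (1 : ℤ) else 0)) := by
    rw [card_filter]
    push_cast
    refine sum_congr rfl (fun b _ => ?_)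
    by_cases h2 : p ∈ b <;> by_cases h3 : q ∈ b <;> by_cases h4 : t ∈ b <;>
      simp [insert_subset_iff, h2, h3, h4]
  have e5 : ((B.card : ℤ) - 3 * r + 3 * l2 - l)
      = (∑ b ∈ B, (1 : ℤ)) - (∑ b ∈ B, (if p ∈ b then (1 : ℤ) else 0))
        - (∑ b ∈ B, (if q ∈ b then (1 : ℤ) else 0)) - (∑ b ∈ B, (if t ∈ b then (1 : ℤ) else 0))
        + (∑ b ∈ B, (if p ∈ b then (1 : ℤ) else 0) * (if q ∈ b then (1 : ℤ) else 0))
        + (∑ b ∈ B, (if p ∈ b then (1 : ℤ) else 0) * (if t ∈ b then (1 : ℤ) else 0))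
        + (∑ b ∈ B, (if q ∈ b then (1 : ℤ) else 0) * (if t ∈ b then (1 : ℤ) else 0))
        - ∑ b ∈ B, (if p ∈ b then (1 : ℤ) else 0) * (if q ∈ b then (1 : ℤ) else 0)
          * (if t ∈ b then (1 : ℤ) else 0) := by
    rw [← e0, ← e1 p, ← e1 q, ← e1 t, ← e2 p q hpq, ← e2 p t hpt, ← e2 q t hqt, ← e3]
    ring
  rw [e4, e5]
  rw [← sum_sub_distrib, ← sum_sub_distrib, ← sum_sub_distrib, ← sum_add_distrib,
    ← sum_add_distrib, ← sum_add_distrib, ← sum_sub_distrib]
  exact sum_congr rfl (fun b _ => by ring)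

theorem image_filter_card (B : Finset (Finset (Fin v))) (T : Finset (Fin v)) :
    ((B.image (fun b => univ \ b)).filter (fun c => T ⊆ c)).card
      = (B.filter (fun b => T ⊆ univ \ b)).card := by
  classical
  rw [filter_image, card_image_of_injOn]
  intro a _ b _ hab
  have h1 : (univ \ (univ \ a) : Finset (Fin v)) = univ \ (univ \ b) := by
    have : (fun b => univ \ b : Finset (Fin v) → Finset (Fin v)) a = univ \ b := hab
    show univ \ (univ \ a) = univ \ (univ \ b)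
    rw [← this]
  simpa using h1

theorem inter_compl_card (a b : Finset (Fin v)) :
    ((univ \ a) ∩ (univ \ b)).card + a.card + b.card = v + (a ∩ b).card := by
  classical
  have h1 : (univ \ a) ∩ (univ \ b) = univ \ (a ∪ b) := by
    ext t; simp
  have h2 : (univ \ (a ∪ b)).card = v - (a ∪ b).card := by
    rw [card_sdiff_of_subset (subset_univ _), card_univ, Fintype.card_fin]
  have h3 := card_union_add_card_inter a b
  have h4 : (a ∪ b).card ≤ v := by
    have := card_le_card (subset_univ (a ∪ b))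
    rwa [card_univ, Fintype.card_fin] at this
  rw [h1, h2]
  omega

/-- the theorem without `2 k ≤ v`: pass to the complement if necessary -/
theorem design_all (v k l x y : ℕ) (B : Finset (Finset (Fin v))) (hl : 0 < l)
    (hk : ∀ b ∈ B, b.card = k)
    (h3 : ∀ T : Finset (Fin v), T.card = 3 → (B.filter (fun b => T ⊆ b)).card = l)
    (hxy : x < y)
    (hqs : ∀ b₁ ∈ B, ∀ b₂ ∈ B, b₁ ≠ b₂ → (b₁ ∩ b₂).card = x ∨ (b₁ ∩ b₂).card = y)
    (hX : ∃ b₁ ∈ B, ∃ b₂ ∈ B, b₁ ≠ b₂ ∧ (b₁ ∩ b₂).card = x)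
    (hY : ∃ b₁ ∈ B, ∃ b₂ ∈ B, b₁ ≠ b₂ ∧ (b₁ ∩ b₂).card = y)
    (hk3 : 3 < k) (hkv : k + 3 < v) :
    ∃ (E : Finset (Finset (Fin v))) (k' x' y' l' : ℕ),
      ((E = B ∧ k' = k ∧ x' = x ∧ y' = y) ∨
        (E = B.image (fun b => univ \ b) ∧ k' + k = v ∧ x' + 2 * k = v + x ∧
          y' + 2 * k = v + y)) ∧
      2 * k' ≤ v ∧
      (∀ T : Finset (Fin v), T.card = 3 → (E.filter (fun b => T ⊆ b)).card = l') ∧
      (x' = 0 ∨
        (x' < (y' - x') ^ 2 ∧ y' ≤ x' ^ 2 + x' + 3 ∧ x' + y' ≤ l' ∧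
          k' ≤ (x' + y' - 1) ^ 2 * (x' * y') ^ 2 * (x' * y' + 3) + 1 ∧
          ((y' - x' - 1) ^ 2 < 4 * x' → 4 < x' + y' →
            (4 * x' - (y' - x' - 1) ^ 2) * (k' - 1) ≤ 2 * (x' + y' - 1) ^ 2) ∧
          (4 * x' ≤ (y' - x' - 1) ^ 2 →
            ((y' - x' - 1) ^ 2 - 4 * x') * (l' * (l' + 1 - (x' + y'))) < (x' * y') ^ 2) ∧
          ((x' ≤ 35 ∨ y' ≤ x' + 12 ∨ l' ≤ 200) →
            x' = 1 ∧ y' = 3 ∧ k' = 7 ∧
              ((v = 23 ∧ l' = 5 ∧ ∀ T : Finset (Fin v), T.card = 4 →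
                (E.filter (fun b => T ⊆ b)).card = 1) ∨ (v = 22 ∧ l' = 4))))) := by
  classical
  rcases Nat.lt_or_ge v (2 * k) with h2k | h2k
  · -- the complement
    have hge : 2 * k ≤ v + x := by
      obtain ⟨b₁, hb₁, b₂, hb₂, -, hc⟩ := hX
      have := inter_compl_card b₁ b₂
      rw [hk b₁ hb₁, hk b₂ hb₂, hc] at this
      omega
    obtain ⟨l2, r, D⟩ := exists_data B k l hk h3 (by omega) (by omega)
    obtain ⟨c₀, hc₀, c₁, hc₁, hcne, hcc⟩ := hY
    -- the index of the complement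
    have hl' : ∀ T : Finset (Fin v), T.card = 3 →
        ((B.image (fun b => univ \ b)).filter (fun c => T ⊆ c)).card
          = (B.card + 3 * l2 - 3 * r - l) := by
      intro T hT
      have h1 := count_disjoint D T hT
      rw [image_filter_card]
      omega
    refine ⟨B.image (fun b => univ \ b), v - k, v + x - 2 * k, v + y - 2 * k,
      B.card + 3 * l2 - 3 * r - l, Or.inr ⟨rfl, by omega, by omega, by omega⟩, by omega, hl', ?_⟩
    rcases Nat.eq_zero_or_pos (v + x - 2 * k) with h0 | h0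
    · left; exact h0
    · right
      have hk' : ∀ b ∈ B.image (fun b => univ \ b), b.card = v - k := by
        intro b hbm
        obtain ⟨a, ha, rfl⟩ := mem_image.mp hbm
        rw [card_sdiff_of_subset (subset_univ _), card_univ, Fintype.card_fin, hk a ha]
      have hpos : 0 < B.card + 3 * l2 - 3 * r - l := by
        have h1 : 3 ≤ (univ \ c₀).card := by
          rw [card_sdiff_of_subset (subset_univ _), card_univ, Fintype.card_fin, hk c₀ hc₀]
          omega
        obtain ⟨T, hTs, hTc⟩ := exists_subset_card_eq h1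
        rw [← hl' T hTc, card_pos]
        exact ⟨univ \ c₀, mem_filter.mpr ⟨mem_image_of_mem _ hc₀, hTs⟩⟩
      have hqs' : ∀ b₁ ∈ B.image (fun b => univ \ b), ∀ b₂ ∈ B.image (fun b => univ \ b),
          b₁ ≠ b₂ → (b₁ ∩ b₂).card = v + x - 2 * k ∨ (b₁ ∩ b₂).card = v + y - 2 * k := by
        intro b₁ hb₁ b₂ hb₂ hne
        obtain ⟨a₁, ha₁, rfl⟩ := mem_image.mp hb₁
        obtain ⟨a₂, ha₂, rfl⟩ := mem_image.mp hb₂
        have hane : a₁ ≠ a₂ := fun h => hne (by rw [h])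
        have h1 := inter_compl_card a₁ a₂
        rw [hk a₁ ha₁, hk a₂ ha₂] at h1
        rcases hqs a₁ ha₁ a₂ ha₂ hane with h2 | h2 <;> rw [h2] at h1
        · left; omega
        · right; omega
      have hY' : ∃ b₁ ∈ B.image (fun b => univ \ b), ∃ b₂ ∈ B.image (fun b => univ \ b),
          b₁ ≠ b₂ ∧ (b₁ ∩ b₂).card = v + y - 2 * k := by
        refine ⟨univ \ c₀, mem_image_of_mem _ hc₀, univ \ c₁, mem_image_of_mem _ hc₁, ?_, ?_⟩
        · intro h
          apply hcne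
          have h1 : (univ \ (univ \ c₀) : Finset (Fin v)) = univ \ (univ \ c₁) := by rw [h]
          simpa using h1
        · have h1 := inter_compl_card c₀ c₁
          rw [hk c₀ hc₀, hk c₁ hc₁, hcc] at h1
          omega
      exact design_half v (v - k) (B.card + 3 * l2 - 3 * r - l) (v + x - 2 * k)
        (v + y - 2 * k) (B.image (fun b => univ \ b)) hpos hk' hl' h0 (by omega) hqs' hY'
        (by omega) (by omega)
  · refine ⟨B, k, x, y, l, Or.inl ⟨rfl, rfl, rfl, rfl⟩, h2k, h3, ?_⟩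
    rcases Nat.eq_zero_or_pos x with h0 | h0
    · left; exact h0
    · right
      exact design_half v k l x y B hl hk h3 h0 hxy hqs hY hk3 h2k

end Pool.Agent.Lib.MP_6202c5_co
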