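import Mathlib

set_option autoImplicit false

/-! The integer system of a quasi-symmetric 3-design and its elementary consequences.
`c = k - 1`, `V = v - 2`, `z = y - x`, `m = (k - x)/z`, `g = (λ₂ - λ)/z`, `n = (r - λ₂)/z`. -/

namespace Pool.Agent.Lib.MP_6202c5_co

structure Sys (x z m c V l g n : ℤ) : Prop where
  hx : 1 ≤ x
  hz : 1 ≤ z
  hm : 2 ≤ m
  hc : c = x + m * z - 1
  hV : 2 * c ≤ V
  hl : 1 ≤ l
  hg : 1 ≤ g
  eN : g * V = c * n
  eS : (2 * x + z - 1) * n = 2 * g * c - m * (m - 1) * z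
  eQ : x * (x + z) * V * (V + 1) = (c + 1) * c * ((2 * x + z - 1) * V - c * (c - 1))
  eG : g * z * (c - 1) = l * (V - c + 1)

namespace Sys

variable {x z m c V l g n : ℤ} (h : Sys x z m c V l g n)

include h

theorem s_pos : 1 ≤ 2 * x + z - 1 := by have := h.hx; have := h.hz; omega

theorem mz_ge : 2 * z ≤ m * z := mul_le_mul_of_nonneg_right h.hm (by have := h.hz; omega)

theorem c_ge : x + 2 * z - 1 ≤ c := by have := h.mz_ge; have := h.hc; omega

theorem c_pos : 2 ≤ c := by have := h.c_ge; have := h.hx; have := h.hz; omega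

theorem gD : g * (2 * c ^ 2 - (2 * x + z - 1) * V) = c * (m * (m - 1) * z) := by
  linear_combination (-(2 * x + z - 1)) * h.eN - c * h.eS

theorem mu_pos : 1 ≤ m * (m - 1) * z := by
  have h1 := h.hm; have h2 := h.hz
  have h3 : 2 ≤ m * (m - 1) := by nlinarith
  nlinarith

theorem D_pos : 1 ≤ 2 * c ^ 2 - (2 * x + z - 1) * V := by
  have h1 := h.gD
  have h2 := h.mu_pos
  have h3 := h.c_pos
  have h4 : 0 < g * (2 * c ^ 2 - (2 * x + z - 1) * V) := by rw [h1]; positivity
  have h5 := h.hg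
  have := (mul_pos_iff_of_pos_left (show 0 < g by omega)).mp h4
  omega

theorem c_gt_s : 2 * x + z ≤ c := by
  have h1 := h.D_pos
  have h2 := h.hV
  have h3 := h.c_pos
  have h4 := h.s_pos
  have h5 : (2 * x + z - 1) * (2 * c) ≤ (2 * x + z - 1) * V :=
    mul_le_mul_of_nonneg_left h2 (by omega)
  have h6 : 2 * c * (2 * x + z - 1) < 2 * c * c := by nlinarith
  have h7 := lt_of_mul_lt_mul_left h6 (by omega)
  omega

/-- factorised form of `eQ`, `W = V + 1` -/
theorem fact : V * ((c + 1) * c - (V + 1) * x) * ((V + 1) * (x + z) - (c + 1) * c)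
    = (c + 1) * c * (V + 1 - c) * (V - c) := by
  linear_combination (-(V + 1)) * h.eQ

theorem two_pos : 1 ≤ (c + 1) * c - (V + 1) * x ∧ 1 ≤ (V + 1) * (x + z) - (c + 1) * c := by
  have h1 := h.fact
  have h2 := h.c_pos
  have h3 := h.hV
  have hV0 : 0 < V := by omega
  have hx := h.hx
  have hz := h.hz
  have h4 : 0 < (c + 1) * c * (V + 1 - c) * (V - c) := by
    have : 0 < V - c := by omega
    have : 0 < V + 1 - c := by omega
    positivity
  rw [← h1, mul_assoc] at h4
  have h5 := (mul_pos_iff_of_pos_left hV0).mp h4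
  rcases pos_and_pos_or_neg_and_neg_of_mul_pos h5 with h6 | h6
  · constructor <;> omega
  · exfalso
    have : (V + 1) * x ≤ (V + 1) * (x + z) := mul_le_mul_of_nonneg_left (by omega) (by omega)
    omega

theorem x_lt : x < z ^ 2 := by
  obtain ⟨hA, hB⟩ := h.two_pos
  have h1 := h.fact
  have h2 := h.c_pos
  have h3 := h.hV
  have hx := h.hx
  have hz := h.hz
  set A := (c + 1) * c - (V + 1) * x with hAdef
  set Bb := (V + 1) * (x + z) - (c + 1) * c with hBdef
  set P := (c + 1) * c with hP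
  have hPpos : 0 < P := by rw [hP]; positivity
  have hsum : (x + z) * A + x * Bb = z * P := by rw [hAdef, hBdef]; ring
  have hamgm : 4 * (x * (x + z)) * (A * Bb) ≤ (z * P) ^ 2 := by
    rw [← hsum]; nlinarith [sq_nonneg ((x + z) * A - x * Bb)]
  have hWy : P < (V + 1) * (x + z) := by omega
  -- 4 p P (W-c)(W-k) ≤ V z² P²
  have hp : 0 < x * (x + z) := by positivity
  have e1 : 4 * (x * (x + z)) * (P * (V + 1 - c) * (V - c)) ≤ V * (z * P) ^ 2 := by
    rw [← h1]
    have := mul_le_mul_of_nonneg_left hamgm (show 0 ≤ V by omega)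
    nlinarith
  have e2 : P * (4 * (x * (x + z)) * ((V + 1 - c) * (V - c))) ≤ P * (V * z ^ 2 * P) := by
    nlinarith
  have e3 := le_of_mul_le_mul_left e2 hPpos
  -- replace P by (V+1)(x+z)
  have hVz : 0 < V * z ^ 2 := by have : 0 < V := by omega
                                 positivity
  have e4 : V * z ^ 2 * P < V * z ^ 2 * ((V + 1) * (x + z)) := mul_lt_mul_of_pos_left hWy hVz
  have e5 : (x + z) * (4 * x * ((V + 1 - c) * (V - c))) < (x + z) * (V * z ^ 2 * (V + 1)) := by
    nlinarith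
  have e6 := lt_of_mul_lt_mul_left e5 (by omega)
  -- 2(V+1-c) ≥ V+2, 2(V-c) ≥ V
  have e7 : (V + 2) * V ≤ 4 * ((V + 1 - c) * (V - c)) := by
    have a1 : V + 2 ≤ 2 * (V + 1 - c) := by omega
    have a2 : V ≤ 2 * (V - c) := by omega
    have a3 : (V + 2) * V ≤ (2 * (V + 1 - c)) * (2 * (V - c)) :=
      mul_le_mul a1 a2 (by omega) (by omega)
    nlinarith
  have e8 : x * ((V + 2) * V) < V * z ^ 2 * (V + 1) := by
    have := mul_le_mul_of_nonneg_left e7 (show 0 ≤ x by omega)
    nlinarith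
  have hV0 : 0 < V := by omega
  have e9 : V * (x * (V + 2)) < V * (z ^ 2 * (V + 1)) := by nlinarith
  have e10 := lt_of_mul_lt_mul_left e9 (by omega)
  by_contra hcon
  have e11 : z ^ 2 ≤ x := not_lt.mp hcon
  have e12 : z ^ 2 * (V + 1) ≤ x * (V + 1) := mul_le_mul_of_nonneg_right e11 (by omega)
  nlinarith

theorem z_ge : 2 ≤ z := by
  have h1 := h.x_lt
  have hx := h.hx
  have hz := h.hz
  by_contra hcon
  have : z = 1 := by omega
  subst this
  omega

/-- `g ≥ m` -/
theorem g_ge : m ≤ g := by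
  obtain ⟨-, hB⟩ := h.two_pos
  have h2 := h.c_pos
  have h3 := h.hV
  have hx := h.hx
  have hz := h.hz
  have hm := h.hm
  have hQ := h.eQ
  have hgD := h.gD
  have hD := h.D_pos
  have hc := h.hc
  -- y V (V+1) > k c^2
  have e1 : (c + 1) * c * c < (x + z) * V * (V + 1) := by
    have a1 : (c + 1) * c * V < (V + 1) * (x + z) * V :=
      mul_lt_mul_of_pos_right (by omega) (by omega)
    have a2 : (c + 1) * c * c ≤ (c + 1) * c * V :=
      mul_le_mul_of_nonneg_left (by omega) (by positivity)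
    nlinarith
  have e2 : (c + 1) * c * (c * x) < (c + 1) * c * ((2 * x + z - 1) * V - c * (c - 1)) := by
    rw [← hQ]
    have := mul_lt_mul_of_pos_left e1 (show 0 < x by omega)
    nlinarith
  have e3 := lt_of_mul_lt_mul_left e2 (by positivity)
  -- D < m z c
  have e4 : 2 * c ^ 2 - (2 * x + z - 1) * V < m * z * c := by
    have : m * z = c + 1 - x := by omega
    rw [this]; nlinarith
  have e5 : (m - 1) * (2 * c ^ 2 - (2 * x + z - 1) * V)
      < g * (2 * c ^ 2 - (2 * x + z - 1) * V) := by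
    rw [hgD]
    have := mul_lt_mul_of_pos_left e4 (show 0 < m - 1 by omega)
    nlinarith
  have e6 := lt_of_mul_lt_mul_right e5 (by omega)
  omega

theorem g_gt : m + 1 ≤ g := by
  have hge := h.g_ge
  by_contra hcon
  have hgm : g = m := by omega
  have h2 := h.c_pos
  have hx := h.hx
  have hz := h.hz
  have hm := h.hm
  have hcs := h.c_gt_s
  have hc := h.hc
  have hgD := h.gD
  have hG := h.eG
  rw [hgm] at hgD hG
  -- D = (m-1) z c
  have e1 : 2 * c ^ 2 - (2 * x + z - 1) * V = (m - 1) * z * c := by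
    apply mul_left_cancel₀ (show m ≠ 0 by omega)
    rw [hgD]; ring
  -- s m z (c-1) = l (c^2 - x c + s)
  have hmz : m * z = c + 1 - x := by omega
  have e2 : (2 * x + z - 1) * ((c ^ 2 - x * c + (2 * x + z - 1)) - (x + z))
      = l * (c ^ 2 - x * c + (2 * x + z - 1)) := by
    have a1 : (2 * x + z - 1) * (V - c + 1) = c ^ 2 - x * c + (2 * x + z - 1) := by
      have : (m - 1) * z = c + 1 - x - z := by rw [← hmz]; ring
      rw [this] at e1
      linear_combination (-1) * e1
    linear_combination (2 * x + z - 1) * hG + l * a1 - (2 * x + z - 1) * (c - 1) * hmz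
  set M := c ^ 2 - x * c + (2 * x + z - 1) with hM
  have e3 : (2 * x + z - 1) * (x + z) < M := by
    have a1 : (2 * x + z) * (x + z) ≤ c * (c - x) :=
      mul_le_mul hcs (by omega) (by omega) (by omega)
    nlinarith
  have hMpos : 0 < M := by
    have : 0 < (2 * x + z - 1) * (x + z) := by
      have : 0 < 2 * x + z - 1 := by omega
      positivity
    omega
  have e4 : (2 * x + z - 1 - l) * M = (2 * x + z - 1) * (x + z) := by linear_combination e2
  have e5 : 0 < (2 * x + z - 1 - l) * M := by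
    rw [e4]
    have : 0 < 2 * x + z - 1 := by omega
    positivity
  have e6 := (mul_pos_iff_of_pos_right hMpos).mp e5
  have e7 : M ≤ (2 * x + z - 1 - l) * M := by nlinarith
  omega

theorem l_gt : 2 * x + z ≤ l := by
  have hge := h.g_gt
  have h2 := h.c_pos
  have hx := h.hx
  have hz := h.z_ge
  have hm := h.hm
  have hxl := h.x_lt
  have hc := h.hc
  have hgD := h.gD
  have hG := h.eG
  have hV := h.hV
  obtain ⟨J, hJ⟩ : ∃ J, g = m + J := ⟨g - m, by ring⟩
  have hJ1 : 1 ≤ J := by omega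
  -- the polynomial H
  have hH : g ^ 2 * z * (c - 1) + c * (m * (m - 1) * z) + g * (2 * x + z - 1) * (c - 1)
      - 2 * c ^ 2 * g = J * (c - 1) * (z * J + z - 1) - 2 * J - (x + z) * m := by
    rw [hJ, hc]; ring
  have hHpos : 0 < J * (c - 1) * (z * J + z - 1) - 2 * J - (x + z) * m := by
    have a0 : 0 ≤ c - 1 := by omega
    have a1 : 2 * z - 1 ≤ z * J + z - 1 := by nlinarith
    have a2 : (c - 1) * (2 * z - 1) ≤ (c - 1) * (z * J + z - 1) :=
      mul_le_mul_of_nonneg_left a1 a0
    have a3 : J * ((c - 1) * (2 * z - 1) - 2) ≤ J * ((c - 1) * (z * J + z - 1) - 2) :=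
      mul_le_mul_of_nonneg_left (by omega) (by omega)
    have a4 : 0 ≤ (c - 1) * (2 * z - 1) - 2 := by nlinarith
    have a5 : (c - 1) * (2 * z - 1) - 2 ≤ J * ((c - 1) * (2 * z - 1) - 2) := by nlinarith
    have a6 : 0 < (c - 1) * (2 * z - 1) - 2 - (x + z) * m := by
      have b1 : (c - 1) * (2 * z - 1) - 2 - (x + z) * m
          = (x - 2) * (2 * z - 1) - 2 + m * (2 * z ^ 2 - 2 * z - x) := by rw [hc]; ring
      rw [b1]
      have b2 : 0 ≤ 2 * z ^ 2 - 2 * z - x := by nlinarith [sq_nonneg (z - 1)]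
      have b3 : 2 * (2 * z ^ 2 - 2 * z - x) ≤ m * (2 * z ^ 2 - 2 * z - x) :=
        mul_le_mul_of_nonneg_right hm b2
      nlinarith
    nlinarith
  by_contra hcon
  have hls : l ≤ 2 * x + z - 1 := by omega
  have e1 : g * z * (c - 1) ≤ (2 * x + z - 1) * (V - c + 1) := by
    rw [hG]; exact mul_le_mul_of_nonneg_right hls (by omega)
  have e2 : g * (g * z * (c - 1)) ≤ g * ((2 * x + z - 1) * (V - c + 1)) :=
    mul_le_mul_of_nonneg_left e1 (by omega)
  nlinarith

end Sys

end Pool.Agent.Lib.MP_6202c5_co
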