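import Pool.Agent.Lib.MP_6202c5_co.Kernel
import Pool.Agent.Lib.MP_6202c5_co.Num

set_option autoImplicit false

/-! From a quasi-symmetric 3-design to the integer system `Sys`. -/

namespace Pool.Agent.Lib.MP_6202c5_co

open Finset

/-- the algebra: from the design equations to `Sys` -/
theorem sys_of_equations (x y k v l l2 r b m g n : ℤ) (hx : 1 ≤ x) (hxy : x < y) (hyk : y < k)
    (hkv : 2 * k ≤ v) (hk3 : 3 < k) (hl : 0 < l) (hll : l < l2)
    (e2 : l2 * (k - 2) = l * (v - 2)) (e1 : r * (k - 1) = l2 * (v - 1)) (e0 : b * k = r * v)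
    (E1 : k * (k - 1) * l2 - (x + y - 1) * k * r + x * y * b = (k - x) * (k - y))
    (E2 : (k - 1) * (k - 2) * l - (x + y - 3) * (k - 1) * l2 + (x - 1) * (y - 1) * r
      = (k - x) * (k - y))
    (hm : k - x = (y - x) * m) (hg : l2 - l = (y - x) * g) (hn : r - l2 = (y - x) * n) :
    Sys x (y - x) m (k - 1) (v - 2) l g n := by
  have hz : 0 < y - x := by omega
  have R : k * (k - 1) * l - (x + y - 1) * k * l2 + x * y * r = 0 := by
    have h1 : (v - k) * (k * (k - 1) * l - (x + y - 1) * k * l2 + x * y * r) = 0 := by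
      linear_combination k * E1 - k * E2 - k * (k - 1) * e2 + (x + y - 1) * k * e1 - x * y * e0
    rcases mul_eq_zero.mp h1 with h2 | h2
    · omega
    · exact h2
  have hS : (x + y - 1) * (r - l2) = 2 * (k - 1) * (l2 - l) - (k - x) * (k - y) := by
    linear_combination R - E2
  have hQ : x * y * (v - 2) * (v - 1) = k * (k - 1) * ((x + y - 1) * (v - 2) - (k - 1) * (k - 2)) := by
    have h1 : l * (x * y * (v - 2) * (v - 1)
        - k * (k - 1) * ((x + y - 1) * (v - 2) - (k - 1) * (k - 2))) = 0 := by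
      linear_combination (k - 1) * (k - 2) * R - x * y * (k - 2) * e1
        - (x * y * (v - 1) - (x + y - 1) * k * (k - 1)) * e2
    rcases mul_eq_zero.mp h1 with h2 | h2
    · omega
    · linarith
  refine ⟨hx, by omega, ?_, ?_, by omega, by omega, ?_, ?_, ?_, ?_, ?_⟩
  · by_contra hcon
    have h1 : m ≤ 1 := by omega
    have h2 : (y - x) * m ≤ (y - x) * 1 := mul_le_mul_of_nonneg_left h1 hz.le
    omega
  · linear_combination hm
  · have h1 : 0 < (y - x) * g := by omega
    have := (mul_pos_iff_of_pos_left hz).mp h1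
    omega
  · apply mul_left_cancel₀ hz.ne'
    linear_combination (-(v - 2)) * hg + (k - 1) * hn + e2 - e1
  · apply mul_left_cancel₀ hz.ne'
    have h1 : (k - x) * (k - y) = ((y - x) * m) * ((y - x) * (m - 1)) := by
      have h2 : k - y = (y - x) * (m - 1) := by linear_combination hm
      rw [hm, h2]
    rw [h1, hn, hg] at hS
    linear_combination hS
  · linear_combination hQ
  · linear_combination (-(k - 2)) * hg + e2

theorem exists_sys {v : ℕ} (B : Finset (Finset (Fin v))) (k l x y : ℕ) (hl : 0 < l)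
    (hk : ∀ b ∈ B, b.card = k)
    (h3 : ∀ T : Finset (Fin v), T.card = 3 → (B.filter (fun b => T ⊆ b)).card = l)
    (hx : 1 ≤ x) (hxy : x < y)
    (hqs : ∀ b₁ ∈ B, ∀ b₂ ∈ B, b₁ ≠ b₂ → (b₁ ∩ b₂).card = x ∨ (b₁ ∩ b₂).card = y)
    (hy : ∃ b₁ ∈ B, ∃ b₂ ∈ B, b₁ ≠ b₂ ∧ (b₁ ∩ b₂).card = y)
    (hk3 : 3 < k) (hkv : 2 * k ≤ v) :
    ∃ m g n : ℤ, Sys x ((y : ℤ) - x) m ((k : ℤ) - 1) ((v : ℤ) - 2) l g n := by
  obtain ⟨l2, r, D⟩ := exists_data B k l hk h3 (by omega) (by omega)
  obtain ⟨b₁, hb₁, b₂, hb₂, hne, hcard⟩ := hy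
  have hyk : y < k := by
    have h1 : (b₁ ∩ b₂).card ≤ b₁.card := card_le_card inter_subset_left
    rw [hk b₁ hb₁, hcard] at h1
    rcases Nat.lt_or_ge y k with h2 | h2
    · exact h2
    · exfalso
      apply hne
      have h3 : b₁ ∩ b₂ = b₁ := eq_of_subset_of_card_le inter_subset_left (by
        rw [hk b₁ hb₁, hcard]; exact h2)
      have h4 : b₁ ∩ b₂ = b₂ := eq_of_subset_of_card_le inter_subset_right (by
        rw [hk b₂ hb₂, hcard]; exact h2)
      rw [← h3, h4]
  have e2 : (l2 : ℤ) * (k - 2) = l * (v - 2) := by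
    have := D.e2
    zify [show 2 ≤ k by omega, show 2 ≤ v by omega] at this
    exact this
  have e1 : (r : ℤ) * (k - 1) = l2 * (v - 1) := by
    have := D.e1
    zify [show 1 ≤ k by omega, show 1 ≤ v by omega] at this
    exact this
  have e0 : (B.card : ℤ) * k = r * v := by exact_mod_cast D.e0
  have hll : l < l2 := by
    by_contra hcon
    have h1 : (l2 : ℤ) ≤ l := by exact_mod_cast not_lt.mp hcon
    have h2 : (l2 : ℤ) * (k - 2) ≤ l * (k - 2) := mul_le_mul_of_nonneg_right h1 (by omega)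
    have h3 : (l : ℤ) * (k - 2) < l * (v - 2) :=
      mul_lt_mul_of_pos_left (by omega) (by exact_mod_cast hl)
    omega
  obtain ⟨E1, E2⟩ := qs_equations D hb₁ (fun b hb hn => hqs b₁ hb₁ b hb (Ne.symm hn)) (by omega)
  have d1 := dvd_k D hll (by omega) (by omega) hxy hqs
  have d2 := dvd_r D (by omega) (by omega) (by omega) hxy hqs
  have d3 := dvd_l2 D (by omega) (by omega) (by omega) hxy hqs
  obtain ⟨m, hm⟩ := d1
  obtain ⟨n, hn⟩ : ((y : ℤ) - x) ∣ (r : ℤ) - l2 := by
    have := dvd_add d2 ⟨m, hm⟩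
    have h2 : ((r : ℤ) - l2) - k + x + ((k : ℤ) - x) = (r : ℤ) - l2 := by ring
    rwa [h2] at this
  obtain ⟨g, hg⟩ : ((y : ℤ) - x) ∣ (l2 : ℤ) - l := by
    have := dvd_add d3 ⟨m, hm⟩
    have h2 : ((l2 : ℤ) - l) - k + x + ((k : ℤ) - x) = (l2 : ℤ) - l := by ring
    rwa [h2] at this
  exact ⟨m, g, n, sys_of_equations x y k v l l2 r B.card m g n (by omega) (by omega) (by omega)
    (by omega) (by omega) (by omega) (by omega) e2 e1 e0 E1 E2 hm hg hn⟩

end Pool.Agent.Lib.MP_6202c5_co
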