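import Pool.Agent.Lib.MP_6202c5_co.Main
import Pool.Agent.Lib.MP_6202c5_co.System
import Pool.Agent.Lib.MP_6202c5_co.Bound

set_option autoImplicit false

/-! Consequences for designs with `2 k ≤ v`. -/

namespace Pool.Agent.Lib.MP_6202c5_co

open Finset

/-- in the case `(v, k, λ) = (23, 7, 5)`, `y = 3`, every 4-set lies in exactly one block -/
theorem four_sets (B : Finset (Finset (Fin 23))) (hk : ∀ b ∈ B, b.card = 7)
    (h3 : ∀ T : Finset (Fin 23), T.card = 3 → (B.filter (fun b => T ⊆ b)).card = 5)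
    (hqs : ∀ b₁ ∈ B, ∀ b₂ ∈ B, b₁ ≠ b₂ → (b₁ ∩ b₂).card ≤ 3)
    (T : Finset (Fin 23)) (hT : T.card = 4) : (B.filter (fun b => T ⊆ b)).card = 1 := by
  classical
  have hle : ∀ U : Finset (Fin 23), U.card = 4 → deg B U ≤ 1 := by
    intro U hU
    unfold deg
    rw [card_le_one]
    intro b₁ hb₁ b₂ hb₂
    rw [mem_filter] at hb₁ hb₂
    by_contra hne
    have h1 := hqs b₁ hb₁.1 b₂ hb₂.1 hne
    have h2 : U.card ≤ (b₁ ∩ b₂).card := card_le_card (subset_inter hb₁.2 hb₂.2)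
    omega
  obtain ⟨p, hp⟩ : T.Nonempty := by rw [← card_pos]; omega
  have hS : (T.erase p).card = 3 := by rw [card_erase_of_mem hp, hT]
  have h1 := sum_deg_insert B 7 hk (T.erase p)
  have h2 : deg B (T.erase p) = 5 := h3 _ hS
  rw [h2, hS] at h1
  have hcard : (univ \ (T.erase p)).card = 20 := by
    rw [card_sdiff_of_subset (subset_univ _), card_univ, Fintype.card_fin, hS]
  have h4 : ∑ R ∈ univ \ (T.erase p), deg B (insert R (T.erase p))
      = ∑ R ∈ univ \ (T.erase p), 1 := by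
    rw [h1, sum_const, hcard, smul_eq_mul]
  have h5 := (sum_eq_sum_iff_of_le (fun R hR => ?_)).mp h4 p ?_
  · rw [insert_erase hp] at h5
    exact h5
  · apply hle
    rw [card_insert_of_notMem (mem_sdiff.mp hR).2, hS]
  · simp

/-- the design theorem for `2 k ≤ v` -/
theorem design_half (v k l x y : ℕ) (B : Finset (Finset (Fin v))) (hl : 0 < l)
    (hk : ∀ b ∈ B, b.card = k)
    (h3 : ∀ T : Finset (Fin v), T.card = 3 → (B.filter (fun b => T ⊆ b)).card = l)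
    (hx : 1 ≤ x) (hxy : x < y)
    (hqs : ∀ b₁ ∈ B, ∀ b₂ ∈ B, b₁ ≠ b₂ → (b₁ ∩ b₂).card = x ∨ (b₁ ∩ b₂).card = y)
    (hy : ∃ b₁ ∈ B, ∃ b₂ ∈ B, b₁ ≠ b₂ ∧ (b₁ ∩ b₂).card = y)
    (hk3 : 3 < k) (hkv : 2 * k ≤ v) :
    x < (y - x) ^ 2 ∧ y ≤ x ^ 2 + x + 3 ∧ x + y ≤ l ∧
    k ≤ (x + y - 1) ^ 2 * (x * y) ^ 2 * (x * y + 3) + 1 ∧
    ((y - x - 1) ^ 2 < 4 * x → 4 < x + y →
      (4 * x - (y - x - 1) ^ 2) * (k - 1) ≤ 2 * (x + y - 1) ^ 2) ∧
    (4 * x ≤ (y - x - 1) ^ 2 →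
      ((y - x - 1) ^ 2 - 4 * x) * (l * (l + 1 - (x + y))) < (x * y) ^ 2) ∧
    ((x ≤ 35 ∨ y ≤ x + 12 ∨ l ≤ 200) → x = 1 ∧ y = 3 ∧ k = 7 ∧
      ((v = 23 ∧ l = 5 ∧ ∀ T : Finset (Fin v), T.card = 4 →
        (B.filter (fun b => T ⊆ b)).card = 1) ∨ (v = 22 ∧ l = 4))) := by
  obtain ⟨m, g, n, h⟩ := exists_sys B k l x y hl hk h3 hx hxy hqs hy hk3 hkv
  obtain ⟨Z, rfl⟩ : ∃ Z, y = x + Z := ⟨y - x, by omega⟩
  have hZ : x + Z - x = Z := by omega
  have hZi : ((x + Z : ℕ) : ℤ) - x = Z := by push_cast; ring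
  rw [hZi] at h
  rw [hZ]
  have h1 := h.x_lt
  have h2 := h.z_le
  have h4 := h.l_gt
  refine ⟨by exact_mod_cast h1, ?_, by omega, ?_, ?_, ?_, ?_⟩
  · have : Z ≤ x ^ 2 + 3 := by exact_mod_cast h2
    omega
  · have h5 := h.c_le (2 * x + Z - 1) (x * (x + Z)) rfl rfl
    zify [show 1 ≤ x + (x + Z) by omega]
    have h6 : (x : ℤ) + (x + Z) - 1 = 2 * x + Z - 1 := by ring
    rw [h6]
    linarith
  · intro he h5
    have hZ1 : 1 ≤ Z := by omega
    have he' : ((Z : ℤ) - 1) ^ 2 < 4 * x := by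
      zify [hZ1] at he
      exact he
    have h6 := h.neg_bound (2 * x + Z - 1) (x * (x + Z)) (((Z : ℤ) - 1) ^ 2 - 4 * x) rfl rfl
      (by ring) (by omega) (by omega)
    zify [hZ1, he.le, show 1 ≤ k by omega, show 1 ≤ x + (x + Z) by omega]
    have h7 : (x : ℤ) + (x + Z) - 1 = 2 * x + Z - 1 := by ring
    rw [h7]
    linarith
  · intro he
    have h5 := h.window (2 * x + Z - 1) (x * (x + Z)) (((Z : ℤ) - 1) ^ 2 - 4 * x) rfl rfl
      (by ring) (by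
        have : 1 ≤ Z := by omega
        zify [this] at he
        omega)
    have hZ1 : 1 ≤ Z := by omega
    have hll : x + (x + Z) ≤ l + 1 := by omega
    zify [hZ1, he, hll]
    linarith
  · intro hb
    obtain ⟨a1, a2, a3, a4⟩ := h.classify (by omega)
    subst a1 a2
    have hk7 : k = 7 := by omega
    subst hk7
    refine ⟨rfl, rfl, rfl, ?_⟩
    rcases a4 with ⟨b1, b2⟩ | ⟨b1, b2⟩
    · left
      have hv : v = 23 := by omega
      have hl5 : l = 5 := by omega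
      subst hv hl5
      refine ⟨rfl, rfl, ?_⟩
      apply four_sets B hk h3
      intro b₁ hb₁ b₂ hb₂ hne
      rcases hqs b₁ hb₁ b₂ hb₂ hne with h6 | h6 <;> omega
    · right
      exact ⟨by omega, by omega⟩

end Pool.Agent.Lib.MP_6202c5_co
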