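import Pool.Agent.Lib.MP_6202c5_co.Check

set_option autoImplicit false

/-! The exceptional triples of the modular test. -/

namespace Pool.Agent.Lib.MP_6202c5_co

theorem cubic_no_root (A B C D c0 c1 c : ℤ) (hA : 0 < A) (hc0 : 0 < c0) (h01 : c0 < c1)
    (h0 : c0 ≤ c) (f0 : A * c0 ^ 3 - B * c0 ^ 2 + C * c0 + D < 0)
    (f1 : A * c1 ^ 3 - B * c1 ^ 2 + C * c1 + D < 0)
    (f2 : 0 < A * (c1 + 1) ^ 3 - B * (c1 + 1) ^ 2 + C * (c1 + 1) + D)
    (hN : B - A * c1 ≤ A * c0) (g1 : 0 ≤ 3 * A * (c1 + 1) ^ 2 - 2 * B * (c1 + 1) + C)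
    (g2 : 0 ≤ 3 * A * (c1 + 1) - B) : A * c ^ 3 - B * c ^ 2 + C * c + D ≠ 0 := by
  intro h
  rcases le_or_gt c c1 with hc | hc
  · have a1 : 0 ≤ c - c0 := by omega
    have a2 : 0 ≤ c1 - c := by omega
    have p2 : 0 ≤ (c - c0) * (c1 - c) := mul_nonneg a1 a2
    have p1 : 0 ≤ c * ((c - c0) * (c1 - c)) := mul_nonneg (by omega) p2
    have t1 : 0 ≤ (c1 - c0) * (A * (c * ((c - c0) * (c1 - c)))
        + (A * c0 - (B - A * c1)) * ((c - c0) * (c1 - c))) :=
      mul_nonneg (by omega) (add_nonneg (mul_nonneg hA.le p1) (mul_nonneg (by omega) p2))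
    have t2 : 0 < (-(A * c0 ^ 3 - B * c0 ^ 2 + C * c0 + D)) * (c1 - c)
        + (-(A * c1 ^ 3 - B * c1 ^ 2 + C * c1 + D)) * (c - c0) := by
      rcases eq_or_lt_of_le a1 with h5 | h5
      · have : 0 < c1 - c := by omega
        have h6 : 0 < (-(A * c0 ^ 3 - B * c0 ^ 2 + C * c0 + D)) * (c1 - c) :=
          mul_pos (by omega) this
        rw [← h5, mul_zero, add_zero]
        exact h6
      · have h6 : 0 ≤ (-(A * c0 ^ 3 - B * c0 ^ 2 + C * c0 + D)) * (c1 - c) :=
          mul_nonneg (by omega) a2
        have h7 : 0 < (-(A * c1 ^ 3 - B * c1 ^ 2 + C * c1 + D)) * (c - c0) :=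
          mul_pos (by omega) h5
        omega
    have t3 : (c1 - c0) * (-(A * c ^ 3 - B * c ^ 2 + C * c + D))
        = (c1 - c0) * (A * (c * ((c - c0) * (c1 - c)))
          + (A * c0 - (B - A * c1)) * ((c - c0) * (c1 - c)))
        + ((-(A * c0 ^ 3 - B * c0 ^ 2 + C * c0 + D)) * (c1 - c)
        + (-(A * c1 ^ 3 - B * c1 ^ 2 + C * c1 + D)) * (c - c0)) := by ring
    rw [h, neg_zero, mul_zero] at t3
    omega
  · obtain ⟨t, ht⟩ : ∃ t, t = c - (c1 + 1) := ⟨_, rfl⟩
    have ht0 : 0 ≤ t := by omega
    have hct : c = (c1 + 1) + t := by omega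
    have t3 : A * c ^ 3 - B * c ^ 2 + C * c + D
        = A * t ^ 3 + (3 * A * (c1 + 1) - B) * t ^ 2
          + (3 * A * (c1 + 1) ^ 2 - 2 * B * (c1 + 1) + C) * t
          + (A * (c1 + 1) ^ 3 - B * (c1 + 1) ^ 2 + C * (c1 + 1) + D) := by rw [hct]; ring
    have q1 : 0 ≤ A * t ^ 3 := mul_nonneg hA.le (pow_nonneg ht0 3)
    have q2 : 0 ≤ (3 * A * (c1 + 1) - B) * t ^ 2 := mul_nonneg g2 (pow_nonneg ht0 2)
    have q3 : 0 ≤ (3 * A * (c1 + 1) ^ 2 - 2 * B * (c1 + 1) + C) * t := mul_nonneg g1 ht0
    omega

namespace Sys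

variable {m c V l g n : ℤ}

theorem exc_4_6_20 (h : Sys 4 6 m c V 20 g n) : False := by
  have h1 := h.cubic 13 40 9 (by norm_num) (by norm_num) (by norm_num)
  have h2 := h.c_gt_s
  have h3 : (20 : ℤ) * (17 * c ^ 3 - 4806 * c ^ 2 + 7057 * c + 11880) = 0 := by
    linear_combination h1
  have h4 : (17 : ℤ) * c ^ 3 - 4806 * c ^ 2 + 7057 * c + 11880 = 0 := by
    rcases mul_eq_zero.mp h3 with h5 | h5
    · norm_num at h5
    · exact h5
  exact cubic_no_root 17 4806 7057 11880 14 281 c (by norm_num) (by norm_num) (by norm_num)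
    (by omega) (by norm_num) (by norm_num) (by norm_num) (by norm_num) (by norm_num)
    (by norm_num) h4

theorem exc_6_6_36 (h : Sys 6 6 m c V 36 g n) : False := by
  have h1 := h.cubic 17 72 1 (by norm_num) (by norm_num) (by norm_num)
  have h2 := h.c_gt_s
  have h3 : (900 : ℤ) * (5 * c ^ 3 - 638 * c ^ 2 + 1733 * c + 2376) = 0 := by
    linear_combination h1
  have h4 : (5 : ℤ) * c ^ 3 - 638 * c ^ 2 + 1733 * c + 2376 = 0 := by
    rcases mul_eq_zero.mp h3 with h5 | h5
    · norm_num at h5
    · exact h5
  exact cubic_no_root 5 638 1733 2376 18 124 c (by norm_num) (by norm_num) (by norm_num)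
    (by omega) (by norm_num) (by norm_num) (by norm_num) (by norm_num) (by norm_num)
    (by norm_num) h4

theorem exc_8_7_48 (h : Sys 8 7 m c V 48 g n) : False := by
  have h1 := h.cubic 22 120 4 (by norm_num) (by norm_num) (by norm_num)
  have h2 := h.c_gt_s
  have h3 : (192 : ℤ) * (49 * c ^ 3 - 9382 * c ^ 2 + 34219 * c + 57330) = 0 := by
    linear_combination h1
  have h4 : (49 : ℤ) * c ^ 3 - 9382 * c ^ 2 + 34219 * c + 57330 = 0 := by
    rcases mul_eq_zero.mp h3 with h5 | h5
    · norm_num at h5
    · exact h5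
  exact cubic_no_root 49 9382 34219 57330 23 187 c (by norm_num) (by norm_num) (by norm_num)
    (by omega) (by norm_num) (by norm_num) (by norm_num) (by norm_num) (by norm_num)
    (by norm_num) h4

theorem exc_8_7_60 (h : Sys 8 7 m c V 60 g n) : False := by
  have h1 := h.cubic 22 120 4 (by norm_num) (by norm_num) (by norm_num)
  have h2 := h.c_gt_s
  have h3 : (480 : ℤ) * (11 * c ^ 3 - 5978 * c ^ 2 + 23411 * c + 29400) = 0 := by
    linear_combination h1
  have h4 : (11 : ℤ) * c ^ 3 - 5978 * c ^ 2 + 23411 * c + 29400 = 0 := by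
    rcases mul_eq_zero.mp h3 with h5 | h5
    · norm_num at h5
    · exact h5
  exact cubic_no_root 11 5978 23411 29400 23 539 c (by norm_num) (by norm_num) (by norm_num)
    (by omega) (by norm_num) (by norm_num) (by norm_num) (by norm_num) (by norm_num)
    (by norm_num) h4

theorem exc_12_8_120 (h : Sys 12 8 m c V 120 g n) : False := by
  have h1 := h.cubic 31 240 1 (by norm_num) (by norm_num) (by norm_num)
  have h2 := h.c_gt_s
  have h3 : (120 : ℤ) * (391 * c ^ 3 - 201058 * c ^ 2 + 1253191 * c + 1454640) = 0 := by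
    linear_combination h1
  have h4 : (391 : ℤ) * c ^ 3 - 201058 * c ^ 2 + 1253191 * c + 1454640 = 0 := by
    rcases mul_eq_zero.mp h3 with h5 | h5
    · norm_num at h5
    · exact h5
  exact cubic_no_root 391 201058 1253191 1454640 32 507 c (by norm_num) (by norm_num) (by norm_num)
    (by omega) (by norm_num) (by norm_num) (by norm_num) (by norm_num) (by norm_num)
    (by norm_num) h4

theorem exc_15_9_160 (h : Sys 15 9 m c V 160 g n) : False := by
  have h1 := h.cubic 38 360 4 (by norm_num) (by norm_num) (by norm_num)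
  have h2 := h.c_gt_s
  have h3 : (320 : ℤ) * (161 * c ^ 3 - 205958 * c ^ 2 + 1610351 * c + 2072070) = 0 := by
    linear_combination h1
  have h4 : (161 : ℤ) * c ^ 3 - 205958 * c ^ 2 + 1610351 * c + 2072070 = 0 := by
    rcases mul_eq_zero.mp h3 with h5 | h5
    · norm_num at h5
    · exact h5
  exact cubic_no_root 161 205958 1610351 2072070 39 1271 c (by norm_num) (by norm_num) (by norm_num)
    (by omega) (by norm_num) (by norm_num) (by norm_num) (by norm_num) (by norm_num)
    (by norm_num) h4

theorem exc_15_9_180 (h : Sys 15 9 m c V 180 g n) : False := by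
  have h1 := h.cubic 38 360 4 (by norm_num) (by norm_num) (by norm_num)
  have h2 := h.c_gt_s
  have h3 : (1440 : ℤ) * (19 * c ^ 3 - 58282 * c ^ 2 + 463339 * c + 521640) = 0 := by
    linear_combination h1
  have h4 : (19 : ℤ) * c ^ 3 - 58282 * c ^ 2 + 463339 * c + 521640 = 0 := by
    rcases mul_eq_zero.mp h3 with h5 | h5
    · norm_num at h5
    · exact h5
  exact cubic_no_root 19 58282 463339 521640 39 3059 c (by norm_num) (by norm_num) (by norm_num)
    (by omega) (by norm_num) (by norm_num) (by norm_num) (by norm_num) (by norm_num)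
    (by norm_num) h4

theorem exc_20_10_300 (h : Sys 20 10 m c V 300 g n) : False := by
  have h1 := h.cubic 49 600 1 (by norm_num) (by norm_num) (by norm_num)
  have h2 := h.c_gt_s
  have h3 : (300 : ℤ) * (949 * c ^ 3 - 1323502 * c ^ 2 + 14213749 * c + 15538200) = 0 := by
    linear_combination h1
  have h4 : (949 : ℤ) * c ^ 3 - 1323502 * c ^ 2 + 14213749 * c + 15538200 = 0 := by
    rcases mul_eq_zero.mp h3 with h5 | h5
    · norm_num at h5
    · exact h5
  exact cubic_no_root 949 1323502 14213749 15538200 50 1383 c (by norm_num) (by norm_num) (by norm_num)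
    (by omega) (by norm_num) (by norm_num) (by norm_num) (by norm_num) (by norm_num)
    (by norm_num) h4

theorem exc_21_15_87 (h : Sys 21 15 m c V 87 g n) : False := by
  have h1 := h.cubic 56 756 112 (by norm_num) (by norm_num) (by norm_num)
  have h2 := h.c_gt_s
  have h3 : (336 : ℤ) * (802 * c ^ 3 - 189448 * c ^ 2 + 1664677 * c + 6482700) = 0 := by
    linear_combination h1
  have h4 : (802 : ℤ) * c ^ 3 - 189448 * c ^ 2 + 1664677 * c + 6482700 = 0 := by
    rcases mul_eq_zero.mp h3 with h5 | h5
    · norm_num at h5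
    · exact h5
  exact cubic_no_root 802 189448 1664677 6482700 57 226 c (by norm_num) (by norm_num) (by norm_num)
    (by omega) (by norm_num) (by norm_num) (by norm_num) (by norm_num) (by norm_num)
    (by norm_num) h4

theorem excN_3_3_4 (h : Sys 3 3 4 c V l g n) : False := by
  obtain rfl : c = 14 := by have := h.hc; omega
  have h1 : (6 : ℤ) * ((3 * V - 130) * (V - 49)) = 0 := by linear_combination h.eQ
  have h2 : (3 * V - 130) * (V - 49) = 0 := by
    rcases mul_eq_zero.mp h1 with h5 | h5
    · norm_num at h5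
    · exact h5
  rcases mul_eq_zero.mp h2 with h3 | h3
  · omega
  · have hV : V = 49 := by omega
    subst hV
    have h5 := h.D_pos
    norm_num at h5

theorem excN_3_4_8 (h : Sys 3 4 8 c V l g n) : False := by
  obtain rfl : c = 34 := by have := h.hc; omega
  have h1 : (21 : ℤ) * ((V - 220) * (V - 289)) = 0 := by linear_combination h.eQ
  have h2 : (V - 220) * (V - 289) = 0 := by
    rcases mul_eq_zero.mp h1 with h5 | h5
    · norm_num at h5
    · exact h5
  rcases mul_eq_zero.mp h2 with h3 | h3
  · have hV : V = 220 := by omega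
    subst hV
    have h5 := h.eL
    norm_num at h5
    omega
  · have hV : V = 289 := by omega
    subst hV
    have h5 := h.D_pos
    norm_num at h5

theorem excN_4_4_3 (h : Sys 4 4 3 c V l g n) : False := by
  obtain rfl : c = 15 := by have := h.hc; omega
  have h1 : (16 : ℤ) * ((2 * V - 63) * (V - 50)) = 0 := by linear_combination h.eQ
  have h2 : (2 * V - 63) * (V - 50) = 0 := by
    rcases mul_eq_zero.mp h1 with h5 | h5
    · norm_num at h5
    · exact h5
  rcases mul_eq_zero.mp h2 with h3 | h3
  · omega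
  · have hV : V = 50 := by omega
    subst hV
    have h5 := h.D_pos
    norm_num at h5

theorem excN_6_5_8 (h : Sys 6 5 8 c V l g n) : False := by
  obtain rfl : c = 45 := by have := h.hc; omega
  have h1 : (6 : ℤ) * ((11 * V - 2484) * (V - 275)) = 0 := by linear_combination h.eQ
  have h2 : (11 * V - 2484) * (V - 275) = 0 := by
    rcases mul_eq_zero.mp h1 with h5 | h5
    · norm_num at h5
    · exact h5
  rcases mul_eq_zero.mp h2 with h3 | h3
  · omega
  · have hV : V = 275 := by omega
    subst hV
    have h5 := h.D_pos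
    norm_num at h5

theorem excN_9_5_6 (h : Sys 9 5 6 c V l g n) : False := by
  obtain rfl : c = 38 := by have := h.hc; omega
  have h1 : (6 : ℤ) * ((3 * V - 361) * (7 * V - 962)) = 0 := by linear_combination h.eQ
  have h2 : (3 * V - 361) * (7 * V - 962) = 0 := by
    rcases mul_eq_zero.mp h1 with h5 | h5
    · norm_num at h5
    · exact h5
  rcases mul_eq_zero.mp h2 with h3 | h3
  · omega
  · omega

theorem excN_16_6_4 (h : Sys 16 6 4 c V l g n) : False := by
  obtain rfl : c = 39 := by have := h.hc; omega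
  have h1 : (8 : ℤ) * ((44 * V - 3211) * (V - 90)) = 0 := by linear_combination h.eQ
  have h2 : (44 * V - 3211) * (V - 90) = 0 := by
    rcases mul_eq_zero.mp h1 with h5 | h5
    · norm_num at h5
    · exact h5
  rcases mul_eq_zero.mp h2 with h3 | h3
  · omega
  · have hV : V = 90 := by omega
    subst hV
    have h5 := h.D_pos
    norm_num at h5

theorem excN_16_7_11 (h : Sys 16 7 11 c V l g n) : False := by
  obtain rfl : c = 92 := by have := h.hc; omega
  have h1 : (184 : ℤ) * ((V - 434) * (2 * V - 897)) = 0 := by linear_combination h.eQ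
  have h2 : (V - 434) * (2 * V - 897) = 0 := by
    rcases mul_eq_zero.mp h1 with h5 | h5
    · norm_num at h5
    · exact h5
  rcases mul_eq_zero.mp h2 with h3 | h3
  · have hV : V = 434 := by omega
    subst hV
    have h5 := h.eL
    norm_num at h5
    omega
  · omega

theorem excN_17_9_34 (h : Sys 17 9 34 c V l g n) : False := by
  obtain rfl : c = 322 := by have := h.hc; omega
  have h1 : (34 : ℤ) * ((13 * V - 60306) * (V - 5243)) = 0 := by linear_combination h.eQ
  have h2 : (13 * V - 60306) * (V - 5243) = 0 := by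
    rcases mul_eq_zero.mp h1 with h5 | h5
    · norm_num at h5
    · exact h5
  rcases mul_eq_zero.mp h2 with h3 | h3
  · omega
  · have hV : V = 5243 := by omega
    subst hV
    have h5 := h.D_pos
    norm_num at h5

theorem excN_23_9_18 (h : Sys 23 9 18 c V l g n) : False := by
  obtain rfl : c = 184 := by have := h.hc; omega
  have h1 : (368 : ℤ) * ((V - 1220) * (2 * V - 2553)) = 0 := by linear_combination h.eQ
  have h2 : (V - 1220) * (2 * V - 2553) = 0 := by
    rcases mul_eq_zero.mp h1 with h5 | h5
    · norm_num at h5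
    · exact h5
  rcases mul_eq_zero.mp h2 with h3 | h3
  · have hV : V = 1220 := by omega
    subst hV
    have h5 := h.eL
    norm_num at h5
    omega
  · omega

theorem excN_24_9_17 (h : Sys 24 9 17 c V l g n) : False := by
  obtain rfl : c = 176 := by have := h.hc; omega
  have h1 : (264 : ℤ) * ((3 * V - 3245) * (V - 1120)) = 0 := by linear_combination h.eQ
  have h2 : (3 * V - 3245) * (V - 1120) = 0 := by
    rcases mul_eq_zero.mp h1 with h5 | h5
    · norm_num at h5
    · exact h5
  rcases mul_eq_zero.mp h2 with h3 | h3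
  · omega
  · have hV : V = 1120 := by omega
    subst hV
    have h5 := h.D_pos
    norm_num at h5

theorem excN_25_10_13 (h : Sys 25 10 13 c V l g n) : False := by
  obtain rfl : c = 154 := by have := h.hc; omega
  have h1 : (35 : ℤ) * ((25 * V - 18513) * (V - 868)) = 0 := by linear_combination h.eQ
  have h2 : (25 * V - 18513) * (V - 868) = 0 := by
    rcases mul_eq_zero.mp h1 with h5 | h5
    · norm_num at h5
    · exact h5
  rcases mul_eq_zero.mp h2 with h3 | h3
  · omega
  · have hV : V = 868 := by omega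
    subst hV
    have h5 := h.D_pos
    norm_num at h5

theorem excN_27_11_27 (h : Sys 27 11 27 c V l g n) : False := by
  obtain rfl : c = 323 := by have := h.hc; omega
  have h1 : (1026 : ℤ) * ((V - 3059) * (V - 3468)) = 0 := by linear_combination h.eQ
  have h2 : (V - 3059) * (V - 3468) = 0 := by
    rcases mul_eq_zero.mp h1 with h5 | h5
    · norm_num at h5
    · exact h5
  rcases mul_eq_zero.mp h2 with h3 | h3
  · have hV : V = 3059 := by omega
    subst hV
    have h5 := h.eL
    norm_num at h5
    omega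
  · have hV : V = 3468 := by omega
    subst hV
    have h5 := h.D_pos
    norm_num at h5

theorem excN_31_11_27 (h : Sys 31 11 27 c V l g n) : False := by
  obtain rfl : c = 327 := by have := h.hc; omega
  have h1 : (6 : ℤ) * ((7 * V - 20049) * (31 * V - 95048)) = 0 := by linear_combination h.eQ
  have h2 : (7 * V - 20049) * (31 * V - 95048) = 0 := by
    rcases mul_eq_zero.mp h1 with h5 | h5
    · norm_num at h5
    · exact h5
  rcases mul_eq_zero.mp h2 with h3 | h3
  · omega
  · omega

theorem excN_39_11_6 (h : Sys 39 11 6 c V l g n) : False := by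
  obtain rfl : c = 104 := by have := h.hc; omega
  have h1 : (390 : ℤ) * ((V - 224) * (5 * V - 1339)) = 0 := by linear_combination h.eQ
  have h2 : (V - 224) * (5 * V - 1339) = 0 := by
    rcases mul_eq_zero.mp h1 with h5 | h5
    · norm_num at h5
    · exact h5
  rcases mul_eq_zero.mp h2 with h3 | h3
  · have hV : V = 224 := by omega
    subst hV
    have h5 := h.eL
    norm_num at h5
    omega
  · omega

theorem excN_44_11_7 (h : Sys 44 11 7 c V l g n) : False := by
  obtain rfl : c = 120 := by have := h.hc; omega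
  have h1 : (2420 : ℤ) * ((V - 272) * (V - 315)) = 0 := by linear_combination h.eQ
  have h2 : (V - 272) * (V - 315) = 0 := by
    rcases mul_eq_zero.mp h1 with h5 | h5
    · norm_num at h5
    · exact h5
  rcases mul_eq_zero.mp h2 with h3 | h3
  · have hV : V = 272 := by omega
    subst hV
    have h5 := h.eL
    norm_num at h5
    omega
  · have hV : V = 315 := by omega
    subst hV
    have h5 := h.D_pos
    norm_num at h5

theorem excN_54_11_9 (h : Sys 54 11 9 c V l g n) : False := by
  obtain rfl : c = 152 := by have := h.hc; omega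
  have h1 : (18 : ℤ) * ((13 * V - 4832) * (15 * V - 6137)) = 0 := by linear_combination h.eQ
  have h2 : (13 * V - 4832) * (15 * V - 6137) = 0 := by
    rcases mul_eq_zero.mp h1 with h5 | h5
    · norm_num at h5
    · exact h5
  rcases mul_eq_zero.mp h2 with h3 | h3
  · omega
  · omega

theorem excN_42_12_25 (h : Sys 42 12 25 c V l g n) : False := by
  obtain rfl : c = 341 := by have := h.hc; omega
  have h1 : (18 : ℤ) * ((2 * V - 4805) * (63 * V - 156332)) = 0 := by linear_combination h.eQ
  have h2 : (2 * V - 4805) * (63 * V - 156332) = 0 := by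
    rcases mul_eq_zero.mp h1 with h5 | h5
    · norm_num at h5
    · exact h5
  rcases mul_eq_zero.mp h2 with h3 | h3
  · omega
  · omega

theorem excN_45_12_18 (h : Sys 45 12 18 c V l g n) : False := by
  obtain rfl : c = 260 := by have := h.hc; omega
  have h1 : (45 : ℤ) * ((19 * V - 24505) * (3 * V - 4144)) = 0 := by linear_combination h.eQ
  have h2 : (19 * V - 24505) * (3 * V - 4144) = 0 := by
    rcases mul_eq_zero.mp h1 with h5 | h5
    · norm_num at h5
    · exact h5
  rcases mul_eq_zero.mp h2 with h3 | h3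
  · omega
  · omega

theorem excN_84_12_11 (h : Sys 84 12 11 c V l g n) : False := by
  obtain rfl : c = 215 := by have := h.hc; omega
  have h1 : (72 : ℤ) * ((16 * V - 8025) * (7 * V - 3698)) = 0 := by linear_combination h.eQ
  have h2 : (16 * V - 8025) * (7 * V - 3698) = 0 := by
    rcases mul_eq_zero.mp h1 with h5 | h5
    · norm_num at h5
    · exact h5
  rcases mul_eq_zero.mp h2 with h3 | h3
  · omega
  · omega

theorem exc_25_11_111 (h : Sys 25 11 m c V 111 g n) : False := by
  have h1 := h.zero_cubic 15 96 (by norm_num) (by norm_num) (by norm_num) (by norm_num)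
  have h2 := h.c_gt_s
  have h3 : (9 : ℤ) * ((c - 112) * (25 * c ^ 2 - 328 * c - 1200)) = 0 := by
    linear_combination h1
  have h4 : (c - 112) * (25 * c ^ 2 - 328 * c - 1200) = 0 := by
    rcases mul_eq_zero.mp h3 with h5 | h5
    · norm_num at h5
    · exact h5
  rcases mul_eq_zero.mp h4 with h5 | h5
  · obtain rfl : c = 112 := by omega
    have hS := h.eK 60 900 1800 (2 * 112 ^ 2 - 60 * V) (by norm_num) (by norm_num) (by norm_num)
      rfl
    norm_num at hS
    omega
  · have : 0 < 25 * c ^ 2 - 328 * c - 1200 := by nlinarith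
    omega

theorem exc_25_11_210 (h : Sys 25 11 m c V 210 g n) : False := by
  have h1 := h.zero_cubic 15 195 (by norm_num) (by norm_num) (by norm_num) (by norm_num)
  have h2 := h.c_gt_s
  have h3 : (225 : ℤ) * (1 * c ^ 3 - 368 * c ^ 2 + 4567 * c + 10920) = 0 := by
    linear_combination h1
  have h4 : (1 : ℤ) * c ^ 3 - 368 * c ^ 2 + 4567 * c + 10920 = 0 := by
    rcases mul_eq_zero.mp h3 with h5 | h5
    · norm_num at h5
    · exact h5
  exact cubic_no_root 1 368 4567 10920 61 355 c (by norm_num) (by norm_num) (by norm_num)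
    (by omega) (by norm_num) (by norm_num) (by norm_num) (by norm_num) (by norm_num)
    (by norm_num) h4

end Sys

end Pool.Agent.Lib.MP_6202c5_co
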