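import Pool.Agent.Lib.MP_6202c5_co.Integral

set_option autoImplicit false

/-! `y - x` divides `k - x`, `r - λ₂` and `λ₂ - λ`. -/

namespace Pool.Agent.Lib.MP_6202c5_co

open Finset

variable {v : ℕ} {B : Finset (Finset (Fin v))} {k l l2 r : ℕ}

theorem inter_sum (B : Finset (Finset (Fin v))) (T : Finset (Fin v)) (b₀ : Finset (Fin v))
    (P : Fin v) :
    ∑ b ∈ B.filter (fun b => T ⊆ b), ((b₀ ∩ b).card : ℤ) * (if P ∈ b then 1 else 0)
      = ∑ R ∈ b₀, (deg B (insert R (insert P T)) : ℤ) := by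
  classical
  have h1 : ∀ b ∈ B.filter (fun b => T ⊆ b),
      ((b₀ ∩ b).card : ℤ) * (if P ∈ b then 1 else 0)
        = ∑ R ∈ b₀, (if R ∈ b ∧ P ∈ b then 1 else 0) := by
    intro b _
    have : (b₀ ∩ b).card = ∑ R ∈ b₀, if R ∈ b then 1 else 0 := by
      rw [← card_filter]
      congr 1
    rw [this]
    push_cast
    rw [sum_mul]
    refine sum_congr rfl (fun R _ => ?_)
    by_cases h1 : R ∈ b <;> by_cases h2 : P ∈ b <;> simp [h1, h2]
  rw [sum_congr rfl h1, sum_comm]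
  refine sum_congr rfl (fun R _ => ?_)
  unfold deg
  rw [card_filter, sum_filter]
  push_cast
  refine sum_congr rfl (fun b _ => ?_)
  by_cases h1 : T ⊆ b <;> by_cases h2 : R ∈ b <;> by_cases h3 : P ∈ b <;>
    simp [h1, h2, h3, insert_subset_iff]

theorem deg_pair (D : Data B k l l2 r) (R P : Fin v) :
    (deg B (insert R (insert P ∅)) : ℤ) = l2 + (if R = P then (r : ℤ) - l2 else 0) := by
  classical
  by_cases h : R = P
  · subst h
    rw [if_pos rfl, insert_idem, D.h1 _ (by simp)]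
    ring
  · rw [if_neg h, D.h2 _ (by rw [card_insert_of_notMem (by simpa using h)]; simp)]
    ring

theorem deg_triple (D : Data B k l l2 r) (R P Q : Fin v) (hPQ : P ≠ Q) :
    (deg B (insert R (insert P {Q})) : ℤ) = l + (if R = P then (l2 : ℤ) - l else 0)
      + (if R = Q then (l2 : ℤ) - l else 0) := by
  classical
  by_cases h1 : R = P
  · subst h1
    rw [if_pos rfl, if_neg hPQ, insert_idem,
      D.h2 _ (by rw [card_insert_of_notMem (by simpa using hPQ)]; simp)]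
    ring
  · by_cases h2 : R = Q
    · subst h2
      rw [if_neg h1, if_pos rfl]
      have : insert R (insert P {R}) = insert P ({R} : Finset (Fin v)) := by
        ext a; simp only [mem_insert, mem_singleton]; tauto
      rw [this, D.h2 _ (by rw [card_insert_of_notMem (by simpa using hPQ)]; simp)]
      ring
    · rw [if_neg h1, if_neg h2, D.h3 _ (by
        rw [card_insert_of_notMem (by simp only [mem_insert, mem_singleton]; tauto),
          card_insert_of_notMem (by simpa using hPQ)]; simp)]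
      ring

theorem exists_sep (D : Data B k l l2 r) (hl2 : 0 < l2) (hkv : k < v) (hk2 : 2 ≤ k)
    (S : Fin v) :
    ∃ P Q : Fin v, P ≠ S ∧ Q ≠ S ∧ P ≠ Q ∧ ∃ b ∈ B, S ∈ b ∧ P ∈ b ∧ Q ∉ b := by
  classical
  obtain ⟨P, hP⟩ : ∃ P : Fin v, P ≠ S := by
    have : 1 < Fintype.card (Fin v) := by rw [Fintype.card_fin]; omega
    obtain ⟨P, hP⟩ := Fintype.exists_ne_of_one_lt_card this S
    exact ⟨P, hP⟩
  have h := D.h2 {S, P} (by rw [card_insert_of_notMem (by simpa using hP.symm)]; simp)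
  have hne : (B.filter (fun b => ({S, P} : Finset (Fin v)) ⊆ b)).Nonempty := by
    rw [← card_pos]; unfold deg at h; omega
  obtain ⟨b, hb⟩ := hne
  rw [mem_filter, insert_subset_iff, singleton_subset_iff] at hb
  obtain ⟨hbB, hSb, hPb⟩ := hb
  obtain ⟨Q, hQ⟩ : ∃ Q : Fin v, Q ∉ b := by
    by_contra hcon
    push_neg at hcon
    have : b = univ := by ext a; simp [hcon a]
    have h2 := D.hk b hbB
    rw [this, card_univ, Fintype.card_fin] at h2
    omega
  exact ⟨P, Q, hP, fun h => hQ (h ▸ hSb), fun h => hQ (h ▸ hPb), b, hbB, hSb, hPb, hQ⟩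

theorem dvd_r (D : Data B k l l2 r) (hl2 : 0 < l2) (hkv : k < v) (hk2 : 2 ≤ k) {x y : ℕ}
    (hxy : x < y)
    (hqs : ∀ b₁ ∈ B, ∀ b₂ ∈ B, b₁ ≠ b₂ → (b₁ ∩ b₂).card = x ∨ (b₁ ∩ b₂).card = y) :
    ((y : ℤ) - x) ∣ ((r : ℤ) - l2) - k + x := by
  classical
  have hv0 : 0 < v := by omega
  obtain ⟨P, Q, -, -, hPQ, b₁, hb1, -, hP1, hQ1⟩ := exists_sep D hl2 hkv hk2 ⟨0, hv0⟩
  apply block_eigen_dvd B (fun b => (if P ∈ b then (1 : ℤ) else 0) - (if Q ∈ b then 1 else 0))
    k x y _ hxy D.hk hqs _ _ hb1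
  · simp [hP1, hQ1]
  · intro b₀ _
    have e1 := inter_sum B ∅ b₀ P
    have e2 := inter_sum B ∅ b₀ Q
    simp only [empty_subset, filter_true] at e1 e2
    rw [sum_congr rfl (fun R _ => deg_pair D R P), sum_add_distrib, sum_const,
      sum_ite_eq' b₀ P (fun _ => (r : ℤ) - l2)] at e1
    rw [sum_congr rfl (fun R _ => deg_pair D R Q), sum_add_distrib, sum_const,
      sum_ite_eq' b₀ Q (fun _ => (r : ℤ) - l2)] at e2
    simp only [mul_sub, sum_sub_distrib]
    rw [e1, e2]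
    by_cases h1 : P ∈ b₀ <;> by_cases h2 : Q ∈ b₀ <;> simp [h1, h2]
  · have e1 : ∑ b ∈ B, (if P ∈ b then (1 : ℤ) else 0) = r := by
      rw [← D.h1 {P} (by simp)]
      unfold deg
      rw [card_filter]
      push_cast
      simp only [singleton_subset_iff]
    have e2 : ∑ b ∈ B, (if Q ∈ b then (1 : ℤ) else 0) = r := by
      rw [← D.h1 {Q} (by simp)]
      unfold deg
      rw [card_filter]
      push_cast
      simp only [singleton_subset_iff]
    rw [sum_sub_distrib, e1, e2, sub_self]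

theorem dvd_l2 (D : Data B k l l2 r) (hl2 : 0 < l2) (hkv : k < v) (hk2 : 2 ≤ k) {x y : ℕ}
    (hxy : x < y)
    (hqs : ∀ b₁ ∈ B, ∀ b₂ ∈ B, b₁ ≠ b₂ → (b₁ ∩ b₂).card = x ∨ (b₁ ∩ b₂).card = y) :
    ((y : ℤ) - x) ∣ ((l2 : ℤ) - l) - k + x := by
  classical
  have hv0 : 0 < v := by omega
  set S : Fin v := ⟨0, hv0⟩ with hS
  obtain ⟨P, Q, hPS, hQS, hPQ, b₁, hb1, hS1, hP1, hQ1⟩ := exists_sep D hl2 hkv hk2 S
  apply block_eigen_dvd (B.filter (fun b => ({S} : Finset (Fin v)) ⊆ b))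
    (fun b => (if P ∈ b then (1 : ℤ) else 0) - (if Q ∈ b then 1 else 0))
    k x y _ hxy (fun b hb => D.hk b (mem_filter.mp hb).1)
    (fun b₁ hb1 b₂ hb2 hne => hqs b₁ (mem_filter.mp hb1).1 b₂ (mem_filter.mp hb2).1 hne) _ _
    (b₁ := b₁)
  · rw [mem_filter, singleton_subset_iff]; exact ⟨hb1, hS1⟩
  · simp [hP1, hQ1]
  · intro b₀ hb0
    rw [mem_filter, singleton_subset_iff] at hb0
    have e1 := inter_sum B {S} b₀ P
    have e2 := inter_sum B {S} b₀ Q
    rw [sum_congr rfl (fun R _ => deg_triple D R P S hPS), sum_add_distrib, sum_add_distrib,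
      sum_const, sum_ite_eq' b₀ P (fun _ => (l2 : ℤ) - l)] at e1
    rw [sum_congr rfl (fun R _ => deg_triple D R Q S hQS), sum_add_distrib, sum_add_distrib,
      sum_const, sum_ite_eq' b₀ Q (fun _ => (l2 : ℤ) - l)] at e2
    simp only [mul_sub, sum_sub_distrib]
    rw [e1, e2]
    by_cases h1 : P ∈ b₀ <;> by_cases h2 : Q ∈ b₀ <;> simp [h1, h2]
  · have e1 : ∀ P : Fin v, P ≠ S →
        ∑ b ∈ B.filter (fun b => ({S} : Finset (Fin v)) ⊆ b), (if P ∈ b then (1 : ℤ) else 0)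
          = l2 := by
      intro P hPS
      rw [← D.h2 {P, S} (by rw [card_insert_of_notMem (by simpa using hPS)]; simp)]
      unfold deg
      rw [card_filter, sum_filter]
      push_cast
      refine sum_congr rfl (fun b _ => ?_)
      by_cases h1 : S ∈ b <;> by_cases h2 : P ∈ b <;> simp [h1, h2, insert_subset_iff]
    rw [sum_sub_distrib, e1 P hPS, e1 Q hQS, sub_self]

end Pool.Agent.Lib.MP_6202c5_co
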