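import Pool.Agent.Lib.MP_6202c5_co.Basic

set_option autoImplicit false

/-! Rational eigenvalues of the integer matrix of the block graph are integers. -/

namespace Pool.Agent.Lib.MP_6202c5_co

open Finset

theorem eigen_coprime {ι : Type*} (S : Finset ι) (A : ι → ι → ℤ) (w : ι → ℤ) (z a : ℤ)
    (hz : 0 < z) (hco : IsCoprime z a)
    (h : ∀ i ∈ S, z * ∑ j ∈ S, A i j * w j = a * w i) {i0 : ι} (hi0 : i0 ∈ S) (hw : w i0 ≠ 0) :
    z = 1 := by
  have key : ∀ n : ℕ, ∃ u : ι → ℤ, (∀ i ∈ S, w i = z ^ n * u i) ∧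
      (∀ i ∈ S, z * ∑ j ∈ S, A i j * u j = a * u i) := by
    intro n
    induction n with
    | zero => exact ⟨w, by simp, h⟩
    | succ n ih =>
      obtain ⟨u, hu1, hu2⟩ := ih
      have hd : ∀ i ∈ S, z ∣ u i := by
        intro i hi
        have : z ∣ a * u i := by rw [← hu2 i hi]; exact dvd_mul_right _ _
        exact hco.dvd_of_dvd_mul_left this
      have hu' : ∀ i ∈ S, u i = z * (u i / z) := fun i hi => (Int.mul_ediv_cancel' (hd i hi)).symm
      refine ⟨fun i => u i / z, ?_, ?_⟩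
      · intro i hi
        rw [pow_succ, mul_assoc, ← hu' i hi]
        exact hu1 i hi
      · intro i hi
        apply mul_left_cancel₀ hz.ne'
        calc z * (z * ∑ j ∈ S, A i j * (u j / z)) = z * ∑ j ∈ S, A i j * (z * (u j / z)) := by
              congr 1
              rw [mul_sum]
              exact sum_congr rfl (fun j _ => by ring)
          _ = z * ∑ j ∈ S, A i j * u j := by
              congr 1
              exact sum_congr rfl (fun j hj => by rw [← hu' j hj])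
          _ = a * u i := hu2 i hi
          _ = a * (z * (u i / z)) := by rw [← hu' i hi]
          _ = z * (a * (u i / z)) := by ring
  by_contra hne
  have hz2 : 2 ≤ z := by omega
  obtain ⟨u, hu, -⟩ := key (w i0).natAbs
  have h1 : z ^ (w i0).natAbs ∣ w i0 := ⟨_, hu i0 hi0⟩
  have h2 : (z ^ (w i0).natAbs).natAbs ≤ (w i0).natAbs :=
    Nat.le_of_dvd (Int.natAbs_pos.mpr hw) (Int.natAbs_dvd_natAbs.mpr h1)
  rw [Int.natAbs_pow] at h2
  have h3 : 2 ≤ z.natAbs := by omega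
  have h4 : (w i0).natAbs < 2 ^ (w i0).natAbs := Nat.lt_two_pow_self
  have h5 : 2 ^ (w i0).natAbs ≤ z.natAbs ^ (w i0).natAbs := Nat.pow_le_pow_left h3 _
  omega

theorem eigen_dvd {ι : Type*} (S : Finset ι) (A : ι → ι → ℤ) (w : ι → ℤ) (z a : ℤ)
    (hz : 0 < z)
    (h : ∀ i ∈ S, z * ∑ j ∈ S, A i j * w j = a * w i) {i0 : ι} (hi0 : i0 ∈ S) (hw : w i0 ≠ 0) :
    z ∣ a := by
  obtain ⟨g, z', a', hgpos, hco, hz', ha'⟩ : ∃ g z' a' : ℤ, 0 < g ∧ IsCoprime z' a' ∧
      z = g * z' ∧ a = g * a' := by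
    refine ⟨Int.gcd z a, z / Int.gcd z a, a / Int.gcd z a, ?_, ?_, ?_, ?_⟩
    · exact_mod_cast Int.gcd_pos_of_ne_zero_left a hz.ne'
    · rw [Int.isCoprime_iff_gcd_eq_one]
      exact Int.gcd_ediv_gcd_ediv_gcd (Int.gcd_pos_of_ne_zero_left a hz.ne')
    · exact (Int.mul_ediv_cancel' (Int.gcd_dvd_left _ _)).symm
    · exact (Int.mul_ediv_cancel' (Int.gcd_dvd_right _ _)).symm
  have hz'pos : 0 < z' := by
    by_contra hcon
    have : z ≤ 0 := by rw [hz']; exact mul_nonpos_of_nonneg_of_nonpos hgpos.le (not_lt.mp hcon)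
    omega
  have h1 : z' = 1 := by
    apply eigen_coprime S A w z' a' hz'pos hco _ hi0 hw
    intro i hi
    apply mul_left_cancel₀ hgpos.ne'
    have := h i hi
    rw [hz', ha'] at this
    linear_combination this
  rw [hz', ha', h1, mul_one]
  exact dvd_mul_right _ _

theorem block_eigen_dvd {v : ℕ} (S : Finset (Finset (Fin v))) (w : Finset (Fin v) → ℤ)
    (k x y : ℕ) (ρ : ℤ) (hxy : x < y) (hk : ∀ b ∈ S, b.card = k)
    (hqs : ∀ b₁ ∈ S, ∀ b₂ ∈ S, b₁ ≠ b₂ → (b₁ ∩ b₂).card = x ∨ (b₁ ∩ b₂).card = y)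
    (h : ∀ b₀ ∈ S, ∑ b ∈ S, ((b₀ ∩ b).card : ℤ) * w b = ρ * w b₀)
    (h0 : ∑ b ∈ S, w b = 0) {b₁ : Finset (Fin v)} (hb1 : b₁ ∈ S) (hw : w b₁ ≠ 0) :
    ((y : ℤ) - x) ∣ ρ - k + x := by
  classical
  apply eigen_dvd S (fun b₀ b => if b = b₀ then 0 else if (b₀ ∩ b).card = y then 1 else 0) w
    ((y : ℤ) - x) (ρ - k + x) (by have : (x : ℤ) < y := by exact_mod_cast hxy
                                  linarith) _ hb1 hw
  intro b₀ hb0
  have e1 : ∀ b ∈ S, ((b₀ ∩ b).card : ℤ) * w b = ((y : ℤ) - x) *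
      ((if b = b₀ then (0 : ℤ) else if (b₀ ∩ b).card = y then 1 else 0) * w b)
      + x * w b + (if b = b₀ then ((k : ℤ) - x) * w b₀ else 0) := by
    intro b hb
    by_cases hbb : b = b₀
    · subst hbb
      simp only [if_true, inter_self, hk b hb]
      ring
    · simp only [if_neg hbb]
      rcases hqs b₀ hb0 b hb (Ne.symm hbb) with hc | hc
      · rw [hc, if_neg (by omega)]
        ring
      · rw [hc, if_pos rfl]
        ring
  have e2 := h b₀ hb0
  rw [sum_congr rfl e1, sum_add_distrib, sum_add_distrib, ← mul_sum, ← mul_sum, h0,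
    sum_ite_eq' S b₀ (fun _ => ((k : ℤ) - x) * w b₀), if_pos hb0] at e2
  linear_combination e2

end Pool.Agent.Lib.MP_6202c5_co
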