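import Pool.Agent.Lib.MP_6202c5_co.Fisher

set_option autoImplicit false

/-! Fisher's inequality for the derived design, `b > v`, and `y - x ∣ k - x`. -/

namespace Pool.Agent.Lib.MP_6202c5_co

open Finset

variable {v : ℕ} {B : Finset (Finset (Fin v))} {k l l2 r : ℕ}

theorem fisher_derived (D : Data B k l l2 r) (hl : l < l2) (S : Fin v) : v - 1 ≤ r := by
  classical
  let Pts := {P : Fin v // P ≠ S}
  let Bl := {b : Finset (Fin v) // b ∈ B.filter (fun b => ({S} : Finset (Fin v)) ⊆ b)}
  let F : (Pts → ℚ) →ₗ[ℚ] (Bl → ℚ) :=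
    { toFun := fun u b => ∑ P : Pts, (if (P : Fin v) ∈ (b : Finset (Fin v)) then u P else 0)
      map_add' := by
        intro u w
        funext b
        simp only [Pi.add_apply, ← sum_add_distrib]
        refine sum_congr rfl (fun P _ => ?_)
        split_ifs <;> simp
      map_smul' := by
        intro c u
        funext b
        simp only [Pi.smul_apply, smul_eq_mul, RingHom.id_apply, mul_sum]
        refine sum_congr rfl (fun P _ => ?_)
        split_ifs <;> simp }
  have hquad : ∀ u : Pts → ℚ, ∑ b : Bl, (F u b) ^ 2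
      = ((l2 : ℚ) - l) * ∑ P : Pts, u P ^ 2 + l * (∑ P : Pts, u P) ^ 2 := by
    intro u
    have h1 : ∀ b : Bl, (F u b) ^ 2 = ∑ P : Pts, ∑ Q : Pts,
        (if (P : Fin v) ∈ (b : Finset (Fin v)) ∧ (Q : Fin v) ∈ (b : Finset (Fin v)) then (1 : ℚ)
          else 0) * (u P * u Q) := by
      intro b
      show (∑ P : Pts, (if (P : Fin v) ∈ (b : Finset (Fin v)) then u P else 0)) ^ 2 = _
      rw [sq, sum_mul_sum]
      refine sum_congr rfl (fun P _ => sum_congr rfl (fun Q _ => ?_))
      by_cases h1 : (P : Fin v) ∈ (b : Finset (Fin v)) <;>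
        by_cases h2 : (Q : Fin v) ∈ (b : Finset (Fin v)) <;> simp [h1, h2]
    rw [sum_congr rfl (fun b _ => h1 b), sum_comm]
    have h2 : ∀ P : Pts, ∑ b : Bl, ∑ Q : Pts,
        (if (P : Fin v) ∈ (b : Finset (Fin v)) ∧ (Q : Fin v) ∈ (b : Finset (Fin v)) then (1 : ℚ)
          else 0) * (u P * u Q)
        = ∑ Q : Pts, ((l : ℚ) + (if P = Q then ((l2 : ℚ) - l) else 0)) * (u P * u Q) := by
      intro P
      rw [sum_comm]
      refine sum_congr rfl (fun Q _ => ?_)
      rw [← sum_mul]
      congr 1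
      have h3 := deg_triple D (Q : Fin v) (P : Fin v) S P.2
      rw [if_neg Q.2, add_zero] at h3
      have h4 : (deg B (insert (Q : Fin v) (insert (P : Fin v) {S})) : ℤ)
          = ∑ b ∈ B.filter (fun b => ({S} : Finset (Fin v)) ⊆ b),
            (if (P : Fin v) ∈ b ∧ (Q : Fin v) ∈ b then (1 : ℤ) else 0) := by
        unfold deg
        rw [card_filter, sum_filter]
        push_cast
        refine sum_congr rfl (fun b _ => ?_)
        by_cases h1 : S ∈ b <;> by_cases h2 : (P : Fin v) ∈ b <;>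
          by_cases h3 : (Q : Fin v) ∈ b <;> simp [h1, h2, h3, insert_subset_iff]
      rw [h4] at h3
      have h5 : ∑ b : Bl, (if (P : Fin v) ∈ (b : Finset (Fin v)) ∧
          (Q : Fin v) ∈ (b : Finset (Fin v)) then (1 : ℚ) else 0)
          = ∑ b ∈ B.filter (fun b => ({S} : Finset (Fin v)) ⊆ b),
            (if (P : Fin v) ∈ b ∧ (Q : Fin v) ∈ b then (1 : ℚ) else 0) :=
        sum_coe_sort (B.filter (fun b => ({S} : Finset (Fin v)) ⊆ b))
          (fun b => if (P : Fin v) ∈ b ∧ (Q : Fin v) ∈ b then (1 : ℚ) else 0)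
      rw [h5]
      have h6 := congrArg (fun t : ℤ => (t : ℚ)) h3
      push_cast at h6
      rw [h6]
      congr 1
      by_cases hPQ : P = Q
      · rw [if_pos hPQ, if_pos (by rw [hPQ])]
      · rw [if_neg hPQ, if_neg (fun h => hPQ (Subtype.ext h.symm))]
    rw [sum_congr rfl (fun P _ => h2 P)]
    have h7 : ∀ P : Pts, ∑ Q : Pts, ((l : ℚ) + (if P = Q then ((l2 : ℚ) - l) else 0)) *
        (u P * u Q) = l * (u P * ∑ Q : Pts, u Q) + ((l2 : ℚ) - l) * u P ^ 2 := by
      intro P
      have : ∀ Q : Pts, ((l : ℚ) + (if P = Q then ((l2 : ℚ) - l) else 0)) * (u P * u Q)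
          = l * (u P * u Q) + (if P = Q then ((l2 : ℚ) - l) * (u P * u Q) else 0) := by
        intro Q
        split_ifs <;> ring
      rw [sum_congr rfl (fun Q _ => this Q), sum_add_distrib, ← mul_sum, ← mul_sum,
        sum_ite_eq, if_pos (mem_univ _)]
      ring
    rw [sum_congr rfl (fun P _ => h7 P), sum_add_distrib, ← mul_sum, ← mul_sum, ← sum_mul]
    ring
  have hinj : Function.Injective F := by
    rw [injective_iff_map_eq_zero]
    intro u hu
    have h1 := hquad u
    rw [hu] at h1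
    simp only [Pi.zero_apply, ne_eq, OfNat.ofNat_ne_zero, not_false_eq_true, zero_pow,
      sum_const_zero] at h1
    have hpos : (0 : ℚ) < (l2 : ℚ) - l := by
      have : (l : ℚ) < l2 := by exact_mod_cast hl
      linarith
    have h2 : 0 ≤ ∑ P : Pts, u P ^ 2 := sum_nonneg (fun P _ => sq_nonneg _)
    have h3 : 0 ≤ (l : ℚ) * (∑ P : Pts, u P) ^ 2 := by positivity
    have h4 : ∑ P : Pts, u P ^ 2 = 0 := by nlinarith
    rw [sum_eq_zero_iff_of_nonneg (fun P _ => sq_nonneg _)] at h4
    funext P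
    have := h4 P (mem_univ _)
    simpa using this
  have h := LinearMap.finrank_le_finrank_of_injective hinj
  rw [Module.finrank_fintype_fun_eq_card, Module.finrank_fintype_fun_eq_card] at h
  have hP : Fintype.card Pts = v - 1 := by
    show Fintype.card {P : Fin v // P ≠ S} = v - 1
    rw [Fintype.card_subtype_compl, Fintype.card_fin, Fintype.card_subtype_eq]
  have hB : Fintype.card Bl = r := by
    show Fintype.card {b : Finset (Fin v) // b ∈ B.filter (fun b => ({S} : Finset (Fin v)) ⊆ b)}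
      = r
    rw [Fintype.card_coe]
    exact D.h1 {S} (by simp)
  omega

theorem card_gt (D : Data B k l l2 r) (hl : l < l2) (hk : 0 < k) (hkv : k + 1 < v) :
    v < B.card := by
  have h1 : v - 1 ≤ r := fisher_derived D hl ⟨0, by omega⟩
  have h2 := D.e0
  obtain ⟨w, rfl⟩ : ∃ w, v = w + 1 := ⟨v - 1, by omega⟩
  simp only [Nat.add_sub_cancel] at h1
  by_contra hcon
  have h3 : B.card ≤ w + 1 := not_lt.mp hcon
  have h4 : B.card * k ≤ (w + 1) * k := Nat.mul_le_mul_right _ h3
  have h5 : w * (w + 1) ≤ r * (w + 1) := Nat.mul_le_mul_right _ h1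
  have h6 : (w + 1) * k < (w + 1) * w := Nat.mul_lt_mul_of_pos_left (by omega) (by omega)
  have h7 : (w + 1) * w = w * (w + 1) := Nat.mul_comm _ _
  omega

theorem dvd_k (D : Data B k l l2 r) (hl : l < l2) (hk : 0 < k) (hkv : k + 1 < v) {x y : ℕ}
    (hxy : x < y)
    (hqs : ∀ b₁ ∈ B, ∀ b₂ ∈ B, b₁ ≠ b₂ → (b₁ ∩ b₂).card = x ∨ (b₁ ∩ b₂).card = y) :
    ((y : ℤ) - x) ∣ (k : ℤ) - x := by
  classical
  have hcard := card_gt D hl hk hkv
  let F : (B → ℚ) →ₗ[ℚ] (Fin v → ℚ) :=
    { toFun := fun w P => ∑ b : B, (if P ∈ (b : Finset (Fin v)) then w b else 0)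
      map_add' := by
        intro u w
        funext P
        simp only [Pi.add_apply, ← sum_add_distrib]
        refine sum_congr rfl (fun b _ => ?_)
        split_ifs <;> simp
      map_smul' := by
        intro c u
        funext P
        simp only [Pi.smul_apply, smul_eq_mul, RingHom.id_apply, mul_sum]
        refine sum_congr rfl (fun b _ => ?_)
        split_ifs <;> simp }
  have hker : LinearMap.ker F ≠ ⊥ := by
    apply LinearMap.ker_ne_bot_of_finrank_lt
    rw [Module.finrank_fintype_fun_eq_card, Module.finrank_fintype_fun_eq_card, Fintype.card_fin,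
      Fintype.card_coe]
    exact hcard
  obtain ⟨w, hwker, hwne⟩ := Submodule.exists_mem_ne_zero_of_ne_bot hker
  rw [LinearMap.mem_ker] at hwker
  obtain ⟨⟨N, hN⟩, hNw⟩ := IsLocalization.exist_integer_multiples_of_finite (nonZeroDivisors ℤ) w
  have hN0 : N ≠ 0 := nonZeroDivisors.ne_zero hN
  choose W hW using hNw
  obtain ⟨b₁, hb1⟩ : ∃ b, w b ≠ 0 := by
    by_contra hcon
    push_neg at hcon
    exact hwne (funext hcon)
  have hW' : ∀ b : B, (W b : ℚ) = N * w b := by
    intro b
    have := hW b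
    simp only [algebraMap_int_eq, eq_intCast] at this
    rw [this]
    simp
  have hsum : ∀ P : Fin v, ∑ b : B, (if P ∈ (b : Finset (Fin v)) then W b else 0) = 0 := by
    intro P
    have h1 : ∑ b : B, (if P ∈ (b : Finset (Fin v)) then w b else 0) = 0 := congrFun hwker P
    have h2 : ((∑ b : B, (if P ∈ (b : Finset (Fin v)) then W b else 0) : ℤ) : ℚ) = 0 := by
      push_cast
      have : ∀ b : B, (if P ∈ (b : Finset (Fin v)) then (W b : ℚ) else 0)
          = N * (if P ∈ (b : Finset (Fin v)) then w b else 0) := by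
        intro b
        split_ifs
        · exact hW' b
        · simp
      rw [sum_congr rfl (fun b _ => this b), ← mul_sum, h1, mul_zero]
    exact_mod_cast h2
  let W' : Finset (Fin v) → ℤ := fun b => if hb : b ∈ B then W ⟨b, hb⟩ else 0
  have hsum' : ∀ P : Fin v, ∑ b ∈ B, (if P ∈ b then W' b else 0) = 0 := by
    intro P
    have h0 := hsum P
    refine Eq.trans ?_ h0
    rw [← sum_coe_sort B (fun b => if P ∈ b then W' b else 0)]
    refine sum_congr rfl (fun b _ => ?_)
    have : W' (b : Finset (Fin v)) = W b := by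
      show (if hb : (b : Finset (Fin v)) ∈ B then W ⟨b, hb⟩ else 0) = W b
      rw [dif_pos b.2]
    rw [this]
  have hin : ∀ b₀ : Finset (Fin v), ∑ b ∈ B, ((b₀ ∩ b).card : ℤ) * W' b = 0 := by
    intro b₀
    have h1 : ∀ b ∈ B, ((b₀ ∩ b).card : ℤ) * W' b = ∑ R ∈ b₀, (if R ∈ b then W' b else 0) := by
      intro b _
      have : (b₀ ∩ b).card = ∑ R ∈ b₀, if R ∈ b then 1 else 0 := by
        rw [← card_filter]
        congr 1
      rw [this]
      push_cast
      rw [sum_mul]
      refine sum_congr rfl (fun R _ => ?_)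
      split_ifs <;> simp
    rw [sum_congr rfl h1, sum_comm, sum_congr rfl (fun R _ => hsum' R), sum_const_zero]
  have htot : ∑ b ∈ B, W' b = 0 := by
    have h1 := hin univ
    have h2 : ∀ b ∈ B, ((univ ∩ b).card : ℤ) * W' b = k * W' b := by
      intro b hb
      rw [univ_inter, D.hk b hb]
    rw [sum_congr rfl h2, ← mul_sum] at h1
    rcases mul_eq_zero.mp h1 with h | h
    · exact absurd h (by exact_mod_cast hk.ne')
    · exact h
  have hfin := block_eigen_dvd B W' k x y 0 hxy D.hk hqs
    (fun b₀ _ => by rw [hin b₀, zero_mul]) htot b₁.2 (by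
      show (if hb : (b₁ : Finset (Fin v)) ∈ B then W ⟨b₁, hb⟩ else 0) ≠ 0
      rw [dif_pos b₁.2]
      intro h0
      have h1 := hW' b₁
      have h2 : W b₁ = 0 := h0
      rw [h2] at h1
      have h3 : (N : ℚ) * w b₁ ≠ 0 := mul_ne_zero (by exact_mod_cast hN0) hb1
      exact h3 (by rw [← h1]; simp))
  have e : (k : ℤ) - x = -(0 - k + x) := by ring
  rw [e]
  exact (dvd_neg).mpr hfin

end Pool.Agent.Lib.MP_6202c5_co
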