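import Pool.Agent.Lib.MP_6202c5_co.RowLam

set_option autoImplicit false

/-! Certificates (moduli) for `λ ≤ 200`, generated. -/

namespace Pool.Agent.Lib.MP_6202c5_co

theorem rl_89 : rowsL 89 [
  0xd0d0d0d17a90d0d0d0d, 0x70707173d07070707, 0x305050309090305, 0x80202040402020,
  0x111111111111, 0x31b1b0309, 0x13131313, 0xd0505, 0x307, 0x1f] 13 = true := by decide +kernel

theorem rl_90 : rowsL 90 [
  0xd0d0d0d25a90d0d, 0x707070b2f0707, 0xb1111110b1d, 0x4010102020, 0x11111111, 0xb071d, 0x1313,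
  0x40] 13 = true := by decide +kernel

theorem rl_91 : rowsL 91 [
  0x110b11111711, 0x110b201329, 0x1d0b170b, 0x200808, 0x1111, 0x1d] 13 = true := by decide +kernel

theorem rl_92 : rowsL 92 [
  0xb112b1d, 0xb201d, 0x305, 0x25] 13 = true := by decide +kernel

theorem rl_93 : rowsL 93 [
  0xd0d, 0x7] 13 = true := by decide +kernel

end Pool.Agent.Lib.MP_6202c5_co
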