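import Pool.Agent.Lib.MP_6202c5_co.RowDataP0
import Pool.Agent.Lib.MP_6202c5_co.RowDataP1
import Pool.Agent.Lib.MP_6202c5_co.RowDataP2
import Pool.Agent.Lib.MP_6202c5_co.RowDataP3
import Pool.Agent.Lib.MP_6202c5_co.RowDataP4
import Pool.Agent.Lib.MP_6202c5_co.RowDataP5
import Pool.Agent.Lib.MP_6202c5_co.RowDataP6
import Pool.Agent.Lib.MP_6202c5_co.RowDataP7
import Pool.Agent.Lib.MP_6202c5_co.RowDataP8
import Pool.Agent.Lib.MP_6202c5_co.RowDataN
import Pool.Agent.Lib.MP_6202c5_co.RowDataZ0
import Pool.Agent.Lib.MP_6202c5_co.RowDataZ1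
import Pool.Agent.Lib.MP_6202c5_co.RowDataZ2
import Pool.Agent.Lib.MP_6202c5_co.RowDataZ3
import Pool.Agent.Lib.MP_6202c5_co.RowDataZ4
import Pool.Agent.Lib.MP_6202c5_co.RowDataZ5
import Pool.Agent.Lib.MP_6202c5_co.RowDataZ6
import Pool.Agent.Lib.MP_6202c5_co.RowDataZ7
import Pool.Agent.Lib.MP_6202c5_co.RowDataZ8
import Pool.Agent.Lib.MP_6202c5_co.RowDataZ9
import Pool.Agent.Lib.MP_6202c5_co.RowDataL0
import Pool.Agent.Lib.MP_6202c5_co.RowDataL1
import Pool.Agent.Lib.MP_6202c5_co.RowDataL2
import Pool.Agent.Lib.MP_6202c5_co.RowDataL3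
import Pool.Agent.Lib.MP_6202c5_co.RowDataL4
import Pool.Agent.Lib.MP_6202c5_co.RowDataL5
import Pool.Agent.Lib.MP_6202c5_co.RowDataL6
import Pool.Agent.Lib.MP_6202c5_co.Exc

set_option autoImplicit false

/-! Classification of the integer systems with `x ≤ 35`, `z ≤ 12` or `λ ≤ 200`. -/

namespace Pool.Agent.Lib.MP_6202c5_co

namespace Sys

variable {X Z : ℕ} {m c V l g n : ℤ}

theorem start_le {x z z0 : ℕ} (hz : 1 ≤ z) (he : 4 * (x : ℤ) < ((z : ℤ) - 1) ^ 2)
    (h0 : (z0 - 2) * (z0 - 2) ≤ 4 * x) (hz0 : 2 ≤ z0) : z0 ≤ z := by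
  by_contra hcon
  have h1 : z + 1 ≤ z0 := by omega
  have h2 : (z - 1) ≤ z0 - 2 := by omega
  have h3 : (z - 1) * (z - 1) ≤ (z0 - 2) * (z0 - 2) := Nat.mul_le_mul h2 h2
  have h4 : (z - 1) * (z - 1) ≤ 4 * x := h3.trans h0
  zify [hz] at h4
  nlinarith

theorem pos_code (h : Sys X Z m c V l g n) (he : 4 * (X : ℤ) < ((Z : ℤ) - 1) ^ 2)
    (hX : X ≤ 35) : ∃ code, rowOK X Z code = true := by
  have hX1 : 1 ≤ X := by have := h.hx; omega
  have hZ1 : 1 ≤ Z := by have := h.hz; omega
  have hz := h.z_le
  have hz' : Z ≤ X ^ 2 + 3 := by exact_mod_cast hz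
  clear hz
  clear h
  interval_cases X
  · exact rows_true rp_1 Z (start_le hZ1 he (by norm_num) (by norm_num)) hz'
  · exact rows_true rp_2 Z (start_le hZ1 he (by norm_num) (by norm_num)) hz'
  · exact rows_true rp_3 Z (start_le hZ1 he (by norm_num) (by norm_num)) hz'
  · exact rows_true rp_4 Z (start_le hZ1 he (by norm_num) (by norm_num)) hz'
  · exact rows_true rp_5 Z (start_le hZ1 he (by norm_num) (by norm_num)) hz'
  · exact rows_true rp_6 Z (start_le hZ1 he (by norm_num) (by norm_num)) hz'
  · exact rows_true rp_7 Z (start_le hZ1 he (by norm_num) (by norm_num)) hz'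
  · exact rows_true rp_8 Z (start_le hZ1 he (by norm_num) (by norm_num)) hz'
  · exact rows_true rp_9 Z (start_le hZ1 he (by norm_num) (by norm_num)) hz'
  · exact rows_true rp_10 Z (start_le hZ1 he (by norm_num) (by norm_num)) hz'
  · exact rows_true rp_11 Z (start_le hZ1 he (by norm_num) (by norm_num)) hz'
  · exact rows_true rp_12 Z (start_le hZ1 he (by norm_num) (by norm_num)) hz'
  · exact rows_true rp_13 Z (start_le hZ1 he (by norm_num) (by norm_num)) hz'
  · exact rows_true rp_14 Z (start_le hZ1 he (by norm_num) (by norm_num)) hz'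
  · exact rows_true rp_15 Z (start_le hZ1 he (by norm_num) (by norm_num)) hz'
  · exact rows_true rp_16 Z (start_le hZ1 he (by norm_num) (by norm_num)) hz'
  · exact rows_true rp_17 Z (start_le hZ1 he (by norm_num) (by norm_num)) hz'
  · exact rows_true rp_18 Z (start_le hZ1 he (by norm_num) (by norm_num)) hz'
  · exact rows_true rp_19 Z (start_le hZ1 he (by norm_num) (by norm_num)) hz'
  · exact rows_true rp_20 Z (start_le hZ1 he (by norm_num) (by norm_num)) hz'
  · exact rows_true rp_21 Z (start_le hZ1 he (by norm_num) (by norm_num)) hz'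
  · exact rows_true rp_22 Z (start_le hZ1 he (by norm_num) (by norm_num)) hz'
  · exact rows_true rp_23 Z (start_le hZ1 he (by norm_num) (by norm_num)) hz'
  · exact rows_true rp_24 Z (start_le hZ1 he (by norm_num) (by norm_num)) hz'
  · exact rows_true rp_25 Z (start_le hZ1 he (by norm_num) (by norm_num)) hz'
  · exact rows_true rp_26 Z (start_le hZ1 he (by norm_num) (by norm_num)) hz'
  · exact rows_true rp_27 Z (start_le hZ1 he (by norm_num) (by norm_num)) hz'
  · exact rows_true rp_28 Z (start_le hZ1 he (by norm_num) (by norm_num)) hz'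
  · exact rows_true rp_29 Z (start_le hZ1 he (by norm_num) (by norm_num)) hz'
  · exact rows_true rp_30 Z (start_le hZ1 he (by norm_num) (by norm_num)) hz'
  · exact rows_true rp_31 Z (start_le hZ1 he (by norm_num) (by norm_num)) hz'
  · exact rows_true rp_32 Z (start_le hZ1 he (by norm_num) (by norm_num)) hz'
  · exact rows_true rp_33 Z (start_le hZ1 he (by norm_num) (by norm_num)) hz'
  · exact rows_true rp_34 Z (start_le hZ1 he (by norm_num) (by norm_num)) hz'
  · exact rows_true rp_35 Z (start_le hZ1 he (by norm_num) (by norm_num)) hz'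

theorem neg_code (h : Sys X Z m c V l g n) (he : ((Z : ℤ) - 1) ^ 2 < 4 * (X : ℤ))
    (hZ : Z ≤ 12) (h12 : 5 ≤ 2 * X + Z) : ∃ code, rowOKN X Z code = true := by
  have hX1 : 1 ≤ X := by have := h.hx; omega
  have hZ2 : 2 ≤ Z := by have := h.z_ge; omega
  have hx := h.x_lt
  have hx' : X < Z ^ 2 := by exact_mod_cast hx
  clear hx
  clear h
  interval_cases Z
  · exact rowsN_true rn_2 X (by push_cast at he; omega) hx'
  · exact rowsN_true rn_3 X (by push_cast at he; omega) hx'
  · exact rowsN_true rn_4 X (by push_cast at he; omega) hx'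
  · exact rowsN_true rn_5 X (by push_cast at he; omega) hx'
  · exact rowsN_true rn_6 X (by push_cast at he; omega) hx'
  · exact rowsN_true rn_7 X (by push_cast at he; omega) hx'
  · exact rowsN_true rn_8 X (by push_cast at he; omega) hx'
  · exact rowsN_true rn_9 X (by push_cast at he; omega) hx'
  · exact rowsN_true rn_10 X (by push_cast at he; omega) hx'
  · exact rowsN_true rn_11 X (by push_cast at he; omega) hx'
  · exact rowsN_true rn_12 X (by push_cast at he; omega) hx'

theorem zero_case (h : Sys X Z m c V l g n) (he : ((Z : ℤ) - 1) ^ 2 = 4 * (X : ℤ))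
    (hb : X ≤ 35 ∨ Z ≤ 12) : False := by
  have hX1 : 1 ≤ X := by have := h.hx; omega
  have hZ2 : 2 ≤ Z := by have := h.z_ge; omega
  have hZ12 : Z ≤ 12 := by
    rcases hb with h1 | h1
    · by_contra hcon
      have h2 : (12 : ℤ) ≤ (Z : ℤ) - 1 := by omega
      nlinarith
    · exact h1
  interval_cases Z
  · push_cast at he; omega
  · obtain rfl : X = 1 := by push_cast at he; omega
    exact no_one_three h
  · push_cast at he; omega
  · obtain rfl : X = 4 := by push_cast at he; omega
    obtain ⟨u, h0, h1, h2⟩ := h.zero_range 3 (by norm_num) (by norm_num) (by norm_num)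
    refine h.zero_point 3 u (by norm_num) (by norm_num) (by norm_num) h0 h1 ?_
    norm_num at h2
    exact chunksZ_true rz_2_0 u (by omega) (by simp only [List.length_cons, List.length_nil]; omega)
  · push_cast at he; omega
  · obtain rfl : X = 9 := by push_cast at he; omega
    obtain ⟨u, h0, h1, h2⟩ := h.zero_range 6 (by norm_num) (by norm_num) (by norm_num)
    refine h.zero_point 6 u (by norm_num) (by norm_num) (by norm_num) h0 h1 ?_
    norm_num at h2
    exact chunksZ_true rz_3_0 u (by omega) (by simp only [List.length_cons, List.length_nil]; omega)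
  · push_cast at he; omega
  · obtain rfl : X = 16 := by push_cast at he; omega
    obtain ⟨u, h0, h1, h2⟩ := h.zero_range 10 (by norm_num) (by norm_num) (by norm_num)
    refine h.zero_point 10 u (by norm_num) (by norm_num) (by norm_num) h0 h1 ?_
    have h2' : u < 37010 := by norm_num at h2; exact h2
    clear h2 h0 h
    rcases Nat.lt_or_ge u 5031 with h3 | h3
    · exact chunksZ_true rz_4_0 u (by omega)
        (by simp only [List.length_cons, List.length_nil]; omega)
    rcases Nat.lt_or_ge u 10031 with h3 | h3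
    · exact chunksZ_true rz_4_1 u (by omega)
        (by simp only [List.length_cons, List.length_nil]; omega)
    rcases Nat.lt_or_ge u 15031 with h3 | h3
    · exact chunksZ_true rz_4_2 u (by omega)
        (by simp only [List.length_cons, List.length_nil]; omega)
    rcases Nat.lt_or_ge u 20031 with h3 | h3
    · exact chunksZ_true rz_4_3 u (by omega)
        (by simp only [List.length_cons, List.length_nil]; omega)
    rcases Nat.lt_or_ge u 25031 with h3 | h3
    · exact chunksZ_true rz_4_4 u (by omega)
        (by simp only [List.length_cons, List.length_nil]; omega)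
    rcases Nat.lt_or_ge u 30031 with h3 | h3
    · exact chunksZ_true rz_4_5 u (by omega)
        (by simp only [List.length_cons, List.length_nil]; omega)
    rcases Nat.lt_or_ge u 35031 with h3 | h3
    · exact chunksZ_true rz_4_6 u (by omega)
        (by simp only [List.length_cons, List.length_nil]; omega)
    exact chunksZ_true rz_4_7 u (by omega)
      (by simp only [List.length_cons, List.length_nil]; omega)
  · push_cast at he; omega
  · obtain rfl : X = 25 := by push_cast at he; omega
    obtain ⟨u, h0, h1, h2⟩ := h.zero_range 15 (by norm_num) (by norm_num) (by norm_num)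
    have h2' : u < 192390 := by norm_num at h2; exact h2
    clear h2
    by_cases u96 : u = 96
    · subst u96
      obtain rfl : l = 111 := by omega
      exact exc_25_11_111 h
    by_cases u195 : u = 195
    · subst u195
      obtain rfl : l = 210 := by omega
      exact exc_25_11_210 h
    refine h.zero_point 15 u (by norm_num) (by norm_num) (by norm_num) h0 h1 ?_
    clear h0 h
    rcases Nat.lt_or_ge u 96 with h3 | h3
    · exact chunkZ_true rz_5_a u (by omega) (by omega)
    rcases Nat.lt_or_ge u 195 with h3 | h3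
    · exact chunkZ_true rz_5_b u (by omega) (by omega)
    rcases Nat.lt_or_ge u 5196 with h3 | h3
    · exact chunksZ_true rz_5_0 u (by omega)
        (by simp only [List.length_cons, List.length_nil]; omega)
    rcases Nat.lt_or_ge u 10196 with h3 | h3
    · exact chunksZ_true rz_5_1 u (by omega)
        (by simp only [List.length_cons, List.length_nil]; omega)
    rcases Nat.lt_or_ge u 15196 with h3 | h3
    · exact chunksZ_true rz_5_2 u (by omega)
        (by simp only [List.length_cons, List.length_nil]; omega)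
    rcases Nat.lt_or_ge u 20196 with h3 | h3
    · exact chunksZ_true rz_5_3 u (by omega)
        (by simp only [List.length_cons, List.length_nil]; omega)
    rcases Nat.lt_or_ge u 25196 with h3 | h3
    · exact chunksZ_true rz_5_4 u (by omega)
        (by simp only [List.length_cons, List.length_nil]; omega)
    rcases Nat.lt_or_ge u 30196 with h3 | h3
    · exact chunksZ_true rz_5_5 u (by omega)
        (by simp only [List.length_cons, List.length_nil]; omega)
    rcases Nat.lt_or_ge u 35196 with h3 | h3
    · exact chunksZ_true rz_5_6 u (by omega)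
        (by simp only [List.length_cons, List.length_nil]; omega)
    rcases Nat.lt_or_ge u 40196 with h3 | h3
    · exact chunksZ_true rz_5_7 u (by omega)
        (by simp only [List.length_cons, List.length_nil]; omega)
    rcases Nat.lt_or_ge u 45196 with h3 | h3
    · exact chunksZ_true rz_5_8 u (by omega)
        (by simp only [List.length_cons, List.length_nil]; omega)
    rcases Nat.lt_or_ge u 50196 with h3 | h3
    · exact chunksZ_true rz_5_9 u (by omega)
        (by simp only [List.length_cons, List.length_nil]; omega)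
    rcases Nat.lt_or_ge u 55196 with h3 | h3
    · exact chunksZ_true rz_5_10 u (by omega)
        (by simp only [List.length_cons, List.length_nil]; omega)
    rcases Nat.lt_or_ge u 60196 with h3 | h3
    · exact chunksZ_true rz_5_11 u (by omega)
        (by simp only [List.length_cons, List.length_nil]; omega)
    rcases Nat.lt_or_ge u 65196 with h3 | h3
    · exact chunksZ_true rz_5_12 u (by omega)
        (by simp only [List.length_cons, List.length_nil]; omega)
    rcases Nat.lt_or_ge u 70196 with h3 | h3
    · exact chunksZ_true rz_5_13 u (by omega)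
        (by simp only [List.length_cons, List.length_nil]; omega)
    rcases Nat.lt_or_ge u 75196 with h3 | h3
    · exact chunksZ_true rz_5_14 u (by omega)
        (by simp only [List.length_cons, List.length_nil]; omega)
    rcases Nat.lt_or_ge u 80196 with h3 | h3
    · exact chunksZ_true rz_5_15 u (by omega)
        (by simp only [List.length_cons, List.length_nil]; omega)
    rcases Nat.lt_or_ge u 85196 with h3 | h3
    · exact chunksZ_true rz_5_16 u (by omega)
        (by simp only [List.length_cons, List.length_nil]; omega)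
    rcases Nat.lt_or_ge u 90196 with h3 | h3
    · exact chunksZ_true rz_5_17 u (by omega)
        (by simp only [List.length_cons, List.length_nil]; omega)
    rcases Nat.lt_or_ge u 95196 with h3 | h3
    · exact chunksZ_true rz_5_18 u (by omega)
        (by simp only [List.length_cons, List.length_nil]; omega)
    rcases Nat.lt_or_ge u 100196 with h3 | h3
    · exact chunksZ_true rz_5_19 u (by omega)
        (by simp only [List.length_cons, List.length_nil]; omega)
    rcases Nat.lt_or_ge u 105196 with h3 | h3
    · exact chunksZ_true rz_5_20 u (by omega)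
        (by simp only [List.length_cons, List.length_nil]; omega)
    rcases Nat.lt_or_ge u 110196 with h3 | h3
    · exact chunksZ_true rz_5_21 u (by omega)
        (by simp only [List.length_cons, List.length_nil]; omega)
    rcases Nat.lt_or_ge u 115196 with h3 | h3
    · exact chunksZ_true rz_5_22 u (by omega)
        (by simp only [List.length_cons, List.length_nil]; omega)
    rcases Nat.lt_or_ge u 120196 with h3 | h3
    · exact chunksZ_true rz_5_23 u (by omega)
        (by simp only [List.length_cons, List.length_nil]; omega)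
    rcases Nat.lt_or_ge u 125196 with h3 | h3
    · exact chunksZ_true rz_5_24 u (by omega)
        (by simp only [List.length_cons, List.length_nil]; omega)
    rcases Nat.lt_or_ge u 130196 with h3 | h3
    · exact chunksZ_true rz_5_25 u (by omega)
        (by simp only [List.length_cons, List.length_nil]; omega)
    rcases Nat.lt_or_ge u 135196 with h3 | h3
    · exact chunksZ_true rz_5_26 u (by omega)
        (by simp only [List.length_cons, List.length_nil]; omega)
    rcases Nat.lt_or_ge u 140196 with h3 | h3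
    · exact chunksZ_true rz_5_27 u (by omega)
        (by simp only [List.length_cons, List.length_nil]; omega)
    rcases Nat.lt_or_ge u 145196 with h3 | h3
    · exact chunksZ_true rz_5_28 u (by omega)
        (by simp only [List.length_cons, List.length_nil]; omega)
    rcases Nat.lt_or_ge u 150196 with h3 | h3
    · exact chunksZ_true rz_5_29 u (by omega)
        (by simp only [List.length_cons, List.length_nil]; omega)
    rcases Nat.lt_or_ge u 155196 with h3 | h3
    · exact chunksZ_true rz_5_30 u (by omega)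
        (by simp only [List.length_cons, List.length_nil]; omega)
    rcases Nat.lt_or_ge u 160196 with h3 | h3
    · exact chunksZ_true rz_5_31 u (by omega)
        (by simp only [List.length_cons, List.length_nil]; omega)
    rcases Nat.lt_or_ge u 165196 with h3 | h3
    · exact chunksZ_true rz_5_32 u (by omega)
        (by simp only [List.length_cons, List.length_nil]; omega)
    rcases Nat.lt_or_ge u 170196 with h3 | h3
    · exact chunksZ_true rz_5_33 u (by omega)
        (by simp only [List.length_cons, List.length_nil]; omega)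
    rcases Nat.lt_or_ge u 175196 with h3 | h3
    · exact chunksZ_true rz_5_34 u (by omega)
        (by simp only [List.length_cons, List.length_nil]; omega)
    rcases Nat.lt_or_ge u 180196 with h3 | h3
    · exact chunksZ_true rz_5_35 u (by omega)
        (by simp only [List.length_cons, List.length_nil]; omega)
    rcases Nat.lt_or_ge u 185196 with h3 | h3
    · exact chunksZ_true rz_5_36 u (by omega)
        (by simp only [List.length_cons, List.length_nil]; omega)
    rcases Nat.lt_or_ge u 190196 with h3 | h3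
    · exact chunksZ_true rz_5_37 u (by omega)
        (by simp only [List.length_cons, List.length_nil]; omega)
    exact chunksZ_true rz_5_38 u (by omega)
      (by simp only [List.length_cons, List.length_nil]; omega)
  · push_cast at he; omega

/-- `x = 1`, `z = 2` -/
theorem one_two (h : Sys 1 2 m c V l g n) :
    c = 6 ∧ ((V = 21 ∧ l = 5) ∨ (V = 20 ∧ l = 4)) := by
  have hc := h.hc
  have hm := h.hm
  have h3 := h.c_gt_s
  have k2 := h.eD 3 3 (-3) _ (by norm_num) (by norm_num) (by norm_num) rfl
  obtain ⟨D, hD⟩ : ∃ D, D = 2 * c ^ 2 - 3 * V := ⟨_, rfl⟩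
  rw [← hD] at k2
  have hsq : 9 * (-3 * c ^ 4 + 18 * c ^ 3 + 3 * c ^ 2 - 18 * c + 9)
      = (6 * D + (-3 * c ^ 2 + 9 * c - 9)) ^ 2 := by linear_combination (-12) * k2
  have h4 : 0 ≤ -3 * c ^ 4 + 18 * c ^ 3 + 3 * c ^ 2 - 18 * c + 9 := by
    have := sq_nonneg (6 * D + (-3 * c ^ 2 + 9 * c - 9))
    omega
  have h5 : c ≤ 6 := by
    by_contra hcon
    have h6 : 0 ≤ c - 7 := by omega
    nlinarith [mul_nonneg h6 h6, mul_nonneg (mul_nonneg h6 h6) h6,
      mul_nonneg (mul_nonneg h6 h6) (mul_nonneg h6 h6)]
  have h7 : m = 2 ∨ m = 3 := by omega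
  rcases h7 with rfl | rfl
  · exfalso
    obtain rfl : c = 4 := by omega
    have h1 : V * (V - 19) = -80 := by
      have := h.eQ
      have h8 : (3 : ℤ) * (V * (V - 19) + 80) = 0 := by linear_combination this
      omega
    have hV := h.hV
    rcases le_or_gt V 9 with h8 | h8
    · nlinarith
    · rcases le_or_gt V 19 with h9 | h9
      · interval_cases V <;> norm_num at h1
      · nlinarith
  · obtain rfl : c = 6 := by omega
    refine ⟨rfl, ?_⟩
    have h1 : (3 : ℤ) * ((V - 20) * (V - 21)) = 0 := by linear_combination h.eQ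
    have h2 : (V - 20) * (V - 21) = 0 := by
      rcases mul_eq_zero.mp h1 with h5 | h5
      · norm_num at h5
      · exact h5
    rcases mul_eq_zero.mp h2 with h3 | h3
    · right
      obtain rfl : V = 20 := by omega
      have h5 := h.eL
      norm_num at h5
      omega
    · left
      obtain rfl : V = 21 := by omega
      have h5 := h.eL
      norm_num at h5
      omega

theorem lam_code (h : Sys X Z m c V l g n) (hl : l ≤ 200) (hX : 36 ≤ X) (hZ : 13 ≤ Z) :
    ∃ code, rowOKL X Z code = true := by
  have hl' := h.l_gt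
  have hs : 2 * X + Z ≤ 200 := by omega
  have hX93 : X ≤ 93 := by omega
  clear h
  interval_cases X
  · exact rowsL_true rl_36 Z hZ hs
  · exact rowsL_true rl_37 Z hZ hs
  · exact rowsL_true rl_38 Z hZ hs
  · exact rowsL_true rl_39 Z hZ hs
  · exact rowsL_true rl_40 Z hZ hs
  · exact rowsL_true rl_41 Z hZ hs
  · exact rowsL_true rl_42 Z hZ hs
  · exact rowsL_true rl_43 Z hZ hs
  · exact rowsL_true rl_44 Z hZ hs
  · exact rowsL_true rl_45 Z hZ hs
  · exact rowsL_true rl_46 Z hZ hs
  · exact rowsL_true rl_47 Z hZ hs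
  · exact rowsL_true rl_48 Z hZ hs
  · exact rowsL_true rl_49 Z hZ hs
  · exact rowsL_true rl_50 Z hZ hs
  · exact rowsL_true rl_51 Z hZ hs
  · exact rowsL_true rl_52 Z hZ hs
  · exact rowsL_true rl_53 Z hZ hs
  · exact rowsL_true rl_54 Z hZ hs
  · exact rowsL_true rl_55 Z hZ hs
  · exact rowsL_true rl_56 Z hZ hs
  · exact rowsL_true rl_57 Z hZ hs
  · exact rowsL_true rl_58 Z hZ hs
  · exact rowsL_true rl_59 Z hZ hs
  · exact rowsL_true rl_60 Z hZ hs
  · exact rowsL_true rl_61 Z hZ hs
  · exact rowsL_true rl_62 Z hZ hs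
  · exact rowsL_true rl_63 Z hZ hs
  · exact rowsL_true rl_64 Z hZ hs
  · exact rowsL_true rl_65 Z hZ hs
  · exact rowsL_true rl_66 Z hZ hs
  · exact rowsL_true rl_67 Z hZ hs
  · exact rowsL_true rl_68 Z hZ hs
  · exact rowsL_true rl_69 Z hZ hs
  · exact rowsL_true rl_70 Z hZ hs
  · exact rowsL_true rl_71 Z hZ hs
  · exact rowsL_true rl_72 Z hZ hs
  · exact rowsL_true rl_73 Z hZ hs
  · exact rowsL_true rl_74 Z hZ hs
  · exact rowsL_true rl_75 Z hZ hs
  · exact rowsL_true rl_76 Z hZ hs
  · exact rowsL_true rl_77 Z hZ hs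
  · exact rowsL_true rl_78 Z hZ hs
  · exact rowsL_true rl_79 Z hZ hs
  · exact rowsL_true rl_80 Z hZ hs
  · exact rowsL_true rl_81 Z hZ hs
  · exact rowsL_true rl_82 Z hZ hs
  · exact rowsL_true rl_83 Z hZ hs
  · exact rowsL_true rl_84 Z hZ hs
  · exact rowsL_true rl_85 Z hZ hs
  · exact rowsL_true rl_86 Z hZ hs
  · exact rowsL_true rl_87 Z hZ hs
  · exact rowsL_true rl_88 Z hZ hs
  · exact rowsL_true rl_89 Z hZ hs
  · exact rowsL_true rl_90 Z hZ hs
  · exact rowsL_true rl_91 Z hZ hs
  · exact rowsL_true rl_92 Z hZ hs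
  · exact rowsL_true rl_93 Z hZ hs

theorem classify (h : Sys X Z m c V l g n) (hb : X ≤ 35 ∨ Z ≤ 12 ∨ l ≤ 200) :
    X = 1 ∧ Z = 2 ∧ c = 6 ∧ ((V = 21 ∧ l = 5) ∨ (V = 20 ∧ l = 4)) := by
  have hX1 : 1 ≤ X := by have := h.hx; omega
  have hZ2 : 2 ≤ Z := by have := h.z_ge; omega
  have hb : X ≤ 35 ∨ Z ≤ 12 := by
    by_contra hcon
    have h1 : 36 ≤ X := by omega
    have h2 : 13 ≤ Z := by omega
    have h3 : l ≤ 200 := by omega
    obtain ⟨code, hcode⟩ := h.lam_code h3 h1 h2
    exact h.lam_row h3 hcode
  rcases lt_trichotomy (4 * (X : ℤ)) (((Z : ℤ) - 1) ^ 2) with he | he | he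
  · exfalso
    have hX : X ≤ 35 := by
      rcases hb with h1 | h1
      · exact h1
      · have h2 : ((Z : ℤ) - 1) ≤ 11 := by omega
        have h3 : ((Z : ℤ) - 1) ^ 2 ≤ 11 ^ 2 := pow_le_pow_left₀ (by omega) h2 2
        omega
    obtain ⟨code, hcode⟩ := h.pos_code he hX
    obtain ⟨i, hi, hmem⟩ := h.pos_row he hcode
    simp only [exc, List.mem_cons, Prod.mk.injEq, List.not_mem_nil, or_false] at hmem
    rcases hmem with ⟨rfl, rfl, rfl⟩ | ⟨rfl, rfl, rfl⟩ | ⟨rfl, rfl, rfl⟩ | ⟨rfl, rfl, rfl⟩ |
      ⟨rfl, rfl, rfl⟩ | ⟨rfl, rfl, rfl⟩ | ⟨rfl, rfl, rfl⟩ | ⟨rfl, rfl, rfl⟩ | ⟨rfl, rfl, rfl⟩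
    · obtain rfl : l = 20 := by push_cast at hi; omega
      exact exc_4_6_20 h
    · obtain rfl : l = 36 := by push_cast at hi; omega
      exact exc_6_6_36 h
    · obtain rfl : l = 48 := by push_cast at hi; omega
      exact exc_8_7_48 h
    · obtain rfl : l = 60 := by push_cast at hi; omega
      exact exc_8_7_60 h
    · obtain rfl : l = 120 := by push_cast at hi; omega
      exact exc_12_8_120 h
    · obtain rfl : l = 160 := by push_cast at hi; omega
      exact exc_15_9_160 h
    · obtain rfl : l = 180 := by push_cast at hi; omega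
      exact exc_15_9_180 h
    · obtain rfl : l = 300 := by push_cast at hi; omega
      exact exc_20_10_300 h
    · obtain rfl : l = 87 := by push_cast at hi; omega
      exact exc_21_15_87 h
  · exact absurd (h.zero_case he.symm hb) id
  · have hZ : Z ≤ 12 := by
      rcases hb with h1 | h1
      · by_contra hcon
        have h2 : (12 : ℤ) ≤ (Z : ℤ) - 1 := by omega
        nlinarith
      · exact h1
    rcases Nat.lt_or_ge (2 * X + Z) 5 with h12 | h12
    · obtain rfl : X = 1 := by omega
      obtain rfl : Z = 2 := by omega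
      exact ⟨rfl, rfl, h.one_two⟩
    · exfalso
      obtain ⟨code, hcode⟩ := h.neg_code he hZ h12
      obtain ⟨M, hM, hmem⟩ := h.neg_row he h12 hcode
      subst hM
      simp only [excN, List.mem_cons, Prod.mk.injEq, List.not_mem_nil, or_false] at hmem
      rcases hmem with ⟨rfl, rfl, rfl⟩ | ⟨rfl, rfl, rfl⟩ | ⟨rfl, rfl, rfl⟩ | ⟨rfl, rfl, rfl⟩ |
        ⟨rfl, rfl, rfl⟩ | ⟨rfl, rfl, rfl⟩ | ⟨rfl, rfl, rfl⟩ | ⟨rfl, rfl, rfl⟩ | ⟨rfl, rfl, rfl⟩ |
        ⟨rfl, rfl, rfl⟩ | ⟨rfl, rfl, rfl⟩ | ⟨rfl, rfl, rfl⟩ | ⟨rfl, rfl, rfl⟩ |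
        ⟨rfl, rfl, rfl⟩ | ⟨rfl, rfl, rfl⟩ | ⟨rfl, rfl, rfl⟩ | ⟨rfl, rfl, rfl⟩ |
        ⟨rfl, rfl, rfl⟩ | ⟨rfl, rfl, rfl⟩
      · exact excN_3_3_4 h
      · exact excN_3_4_8 h
      · exact excN_4_4_3 h
      · exact excN_6_5_8 h
      · exact excN_9_5_6 h
      · exact excN_16_6_4 h
      · exact excN_16_7_11 h
      · exact excN_17_9_34 h
      · exact excN_23_9_18 h
      · exact excN_24_9_17 h
      · exact excN_25_10_13 h
      · exact excN_27_11_27 h
      · exact excN_31_11_27 h
      · exact excN_39_11_6 h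
      · exact excN_44_11_7 h
      · exact excN_54_11_9 h
      · exact excN_42_12_25 h
      · exact excN_45_12_18 h
      · exact excN_84_12_11 h

end Sys

end Pool.Agent.Lib.MP_6202c5_co
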