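import Pool.Agent.Lib.MP_6202c5_co.Num

set_option autoImplicit false

/-! Further consequences: the linear relation between `λ` and `D`, the quadratic for `D`,
the cubic for `c`, the window for `λ`. Here `s = x + y - 1`, `p = x y`, `D = 2c² - sV`. -/

namespace Pool.Agent.Lib.MP_6202c5_co

namespace Sys

variable {x z m c V l g n : ℤ} (h : Sys x z m c V l g n)

include h

theorem eL : l * (V - c + 1) * (2 * c ^ 2 - (2 * x + z - 1) * V)
    = c * (c - 1) * ((c + 1 - x) * (c + 1 - x - z)) := by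
  have h1 := h.gD
  have h2 := h.eG
  have h3 : m * z = c + 1 - x := by have := h.hc; omega
  have h4 : m * (m - 1) * z * z = (c + 1 - x) * (c + 1 - x - z) := by
    rw [← h3]; ring
  rw [← h4]
  linear_combination z * (c - 1) * h1 - (2 * c ^ 2 - (2 * x + z - 1) * V) * h2

theorem V_pos : 0 < V - c + 1 := by
  have := h.hV; have := h.c_pos; omega

/-- `(l s - p) D = c (q c + s (s - p))`, `q = s² - 2 p` -/
theorem eK (s p q D : ℤ) (hs : s = 2 * x + z - 1) (hp : p = x * (x + z)) (hq : q = s ^ 2 - 2 * p)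
    (hD : D = 2 * c ^ 2 - s * V) : (l * s - p) * D = c * (q * c + s * (s - p)) := by
  have h1 := h.eL
  have h2 := h.eQ
  have h3 := h.V_pos
  apply mul_right_cancel₀ h3.ne'
  subst hs hp hq hD
  linear_combination (2 * x + z - 1) * h1 + (2 * x + z - 1) * h2

/-- `p D² + B' D = A' c²` -/
theorem eD (s p e D : ℤ) (hs : s = 2 * x + z - 1) (hp : p = x * (x + z)) (he : e = s ^ 2 - 4 * p)
    (hD : D = 2 * c ^ 2 - s * V) :
    p * D ^ 2 + (e * c ^ 2 + s ^ 2 * c - p * s) * D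
      = (e * c ^ 2 + 2 * s ^ 2 * c + s ^ 2 - 2 * p * s) * c ^ 2 := by
  have h2 := h.eQ
  subst hs hp he hD
  linear_combination (2 * x + z - 1) ^ 2 * h2

theorem e_eq (s p : ℤ) (hs : s = 2 * x + z - 1) (hp : p = x * (x + z)) :
    s ^ 2 - 4 * p = (z - 1) ^ 2 - 4 * x := by
  subst hs hp; ring

theorem G_pos (s p : ℤ) (hs : s = 2 * x + z - 1) (hp : p = x * (x + z)) : 0 < l * s - p := by
  have h1 := h.l_gt
  have h2 := h.hx
  have h3 := h.hz
  subst hs hp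
  have : (2 * x + z) * (2 * x + z - 1) ≤ l * (2 * x + z - 1) :=
    mul_le_mul_of_nonneg_right h1 (by omega)
  nlinarith

/-- the cubic for `c` -/
theorem cubic (s p e : ℤ) (hs : s = 2 * x + z - 1) (hp : p = x * (x + z))
    (he : e = s ^ 2 - 4 * p) :
    (p ^ 2 - e * (l * (l - s))) * c ^ 3
      - (2 * s ^ 2 * (l * (l - s)) + l * p * (e + 2 * s) + p ^ 2 * s) * c ^ 2
      + (p * (s - p) ^ 2 + (l * s - p) * ((s - 2 * p) * (s - l) + p)) * c
      + p * (p - s) * (l * s - p) = 0 := by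
  obtain ⟨D, hD⟩ : ∃ D, D = 2 * c ^ 2 - s * V := ⟨_, rfl⟩
  obtain ⟨q, hq⟩ : ∃ q, q = s ^ 2 - 2 * p := ⟨_, rfl⟩
  have k1 := h.eK s p q D hs hp hq hD
  have k2 := h.eD s p e D hs hp he hD
  have hG := h.G_pos s p hs hp
  have hspos := h.s_pos
  have hcpos := h.c_pos
  have hs0 : s ^ 2 * c ≠ 0 := by
    have : s ≠ 0 := by omega
    have : c ≠ 0 := by omega
    positivity
  apply mul_left_cancel₀ hs0
  -- multiply k2 by G²
  have k3 : p * ((l * s - p) * D) ^ 2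
      + (e * c ^ 2 + s ^ 2 * c - p * s) * (l * s - p) * ((l * s - p) * D)
      = (e * c ^ 2 + 2 * s ^ 2 * c + s ^ 2 - 2 * p * s) * c ^ 2 * (l * s - p) ^ 2 := by
    linear_combination (l * s - p) ^ 2 * k2
  rw [k1] at k3
  subst hq he
  linear_combination k3

/-- upper bound for `λ` -/
theorem window (s p e : ℤ) (hs : s = 2 * x + z - 1) (hp : p = x * (x + z))
    (he : e = s ^ 2 - 4 * p) (he0 : 0 ≤ e) : e * (l * (l - s)) < p ^ 2 := by
  obtain ⟨D, hD⟩ : ∃ D, D = 2 * c ^ 2 - s * V := ⟨_, rfl⟩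
  obtain ⟨q, hq⟩ : ∃ q, q = s ^ 2 - 2 * p := ⟨_, rfl⟩
  obtain ⟨θ, hθ⟩ : ∃ θ, θ = s * (s - p) := ⟨_, rfl⟩
  obtain ⟨P, hP⟩ : ∃ P, P = p * (s - 2) := ⟨_, rfl⟩
  obtain ⟨α, hα⟩ : ∃ α, α = q * s ^ 2 - e * θ := ⟨_, rfl⟩
  have k1 := h.eK s p q D hs hp hq hD
  have k2 := h.eD s p e D hs hp he hD
  have hG := h.G_pos s p hs hp
  have hx := h.hx
  have hz := h.z_ge
  have hs2 : 3 ≤ s := by omega
  have hc := h.c_gt_s
  have hcs : s + 1 ≤ c := by omega
  have hDpos : 1 ≤ D := by rw [hD, hs]; exact h.D_pos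
  have hDle : D ≤ 2 * c * (c - s) := by
    have := h.hV
    have : s * (2 * c) ≤ s * V := mul_le_mul_of_nonneg_left this (by omega)
    rw [hD]; nlinarith
  have hp1 : 1 ≤ p := by rw [hp]; nlinarith
  have hq2 : 2 * p ≤ q := by omega
  have hθP : θ = q - P := by rw [hθ, hq, hP]; ring
  have hP0 : 0 ≤ P := by rw [hP]; exact mul_nonneg (by omega) (by omega)
  have hPq : P ≤ 2 * q * s := by
    rw [hP]
    have a1 : p * (s - 2) ≤ p * s := mul_le_mul_of_nonneg_left (by omega) (by omega)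
    have a2 : p * s ≤ 2 * q * s := mul_le_mul_of_nonneg_right (by omega) (by omega)
    omega
  have hes : e ≤ s ^ 2 := by omega
  -- α = 4pq + eP
  have hα4 : α = 4 * p * q + e * P := by rw [hα, hθP, he]; ring
  have heP : 0 ≤ e * P := mul_nonneg he0 hP0
  have hpq : 1 ≤ p * q := by nlinarith
  -- main inequality
  have hcα : 0 ≤ c * α - q * p * s := by
    rw [hα4]
    have a1 : 0 ≤ c * (e * P) := mul_nonneg (by omega) heP
    have a2 : s * (p * q) ≤ c * (p * q) := mul_le_mul_of_nonneg_right (by omega) (by omega)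
    nlinarith
  have m1 : D * (q * (c * α - q * p * s)) ≤ 2 * c * (c - s) * (q * (c * α - q * p * s)) :=
    mul_le_mul_of_nonneg_right hDle (mul_nonneg (by omega) hcα)
  have m2 : e ^ 1 * θ ^ 2 ≤ 2 * q * s * α + q ^ 2 * s ^ 2 - 8 * p * q ^ 2 * s := by
    rw [hθP, hα4]
    have a1 : e * P ^ 2 ≤ 2 * q * s * (e * P) := by
      have := mul_le_mul_of_nonneg_left hPq heP
      nlinarith
    have a2 : e * q ^ 2 ≤ s ^ 2 * q ^ 2 := mul_le_mul_of_nonneg_right hes (sq_nonneg q)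
    have a3 : 0 ≤ e * (q * P) := mul_nonneg he0 (mul_nonneg (by omega) hP0)
    nlinarith
  -- expression: e c² (qc+θ)² - e q c (qc+θ) D - p q² D² < 0
  have m3 : e * (c * (q * c + θ)) ^ 2 - e * q * (c * (q * c + θ)) * D - p * q ^ 2 * D ^ 2
      = - c ^ 2 * (2 * q * c * α - e * θ ^ 2 + q ^ 2 * (s ^ 2 - 2 * p * s))
        + D * (q * (c * α - q * p * s)) := by
    rw [hα]
    linear_combination (-(q ^ 2)) * k2
  have m4 : e * (c * (q * c + θ)) ^ 2 - e * q * (c * (q * c + θ)) * D - p * q ^ 2 * D ^ 2 < 0 := by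
    rw [m3]
    have a1 : - c ^ 2 * (2 * q * c * α - e * θ ^ 2 + q ^ 2 * (s ^ 2 - 2 * p * s))
        + 2 * c * (c - s) * (q * (c * α - q * p * s))
        = - c ^ 2 * (2 * q * s * α + q ^ 2 * s ^ 2 - e * θ ^ 2) + 2 * q ^ 2 * p * s ^ 2 * c := by
      ring
    have a2 : c ^ 2 * (8 * p * q ^ 2 * s)
        ≤ c ^ 2 * (2 * q * s * α + q ^ 2 * s ^ 2 - e * θ ^ 2) :=
      mul_le_mul_of_nonneg_left (by linarith) (sq_nonneg c)
    have a3 : 2 * q ^ 2 * p * s ^ 2 * c < c ^ 2 * (8 * p * q ^ 2 * s) := by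
      have b1 : 0 < p * q ^ 2 * s * c := by
        have : 0 < q := by omega
        have : 0 < c := by omega
        have : 0 < s := by omega
        have : 0 < p := by omega
        positivity
      have b2 : p * q ^ 2 * s * c * (2 * s) < p * q ^ 2 * s * c * (8 * c) :=
        mul_lt_mul_of_pos_left (by omega) b1
      nlinarith
    nlinarith
  -- convert to λ: with T = (l s - p) D = c (q c + θ)
  rw [hθ] at m4
  rw [← k1] at m4
  have m5 : D ^ 2 * (e * (l * s - p) ^ 2 - e * q * (l * s - p) - p * q ^ 2) < 0 := by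
    nlinarith
  have hD2 : 0 < D ^ 2 := by positivity
  have m6 : e * (l * s - p) ^ 2 - e * q * (l * s - p) - p * q ^ 2 < 0 := by
    by_contra hcon
    have := mul_nonneg hD2.le (not_lt.mp hcon)
    omega
  have m7 : e * (l * s - p) ^ 2 - e * q * (l * s - p) - p * q ^ 2
      = s ^ 2 * (e * (l * (l - s)) - p ^ 2) := by
    rw [hq, he]; ring
  rw [m7] at m6
  have hs2' : 0 < s ^ 2 := by positivity
  by_contra hcon
  have := mul_nonneg hs2'.le (sub_nonneg.mpr (not_lt.mp hcon))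
  omega

/-- `z ≤ x² + 3` -/
theorem z_le : z ≤ x ^ 2 + 3 := by
  by_contra hcon
  have hz4 : x ^ 2 + 4 ≤ z := by omega
  obtain ⟨s, hs⟩ : ∃ s, s = 2 * x + z - 1 := ⟨_, rfl⟩
  obtain ⟨p, hp⟩ : ∃ p, p = x * (x + z) := ⟨_, rfl⟩
  obtain ⟨e, he⟩ : ∃ e, e = s ^ 2 - 4 * p := ⟨_, rfl⟩
  have hx := h.hx
  have hee := h.e_eq s p hs hp
  have he1 : e = (z - 1) ^ 2 - 4 * x := by rw [he]; exact hee
  have he0 : 0 ≤ e := by
    rw [he1]
    nlinarith
  have hw := h.window s p e hs hp he he0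
  have hl := h.l_gt
  have h1 : s + 1 ≤ l * (l - s) := by
    have a1 : s + 1 ≤ l := by omega
    have a2 : 1 ≤ l - s := by omega
    nlinarith
  have h2 : e * (s + 1) ≤ e * (l * (l - s)) := mul_le_mul_of_nonneg_left h1 he0
  have h3 : e * (s + 1) < p ^ 2 := lt_of_le_of_lt h2 hw
  rw [he1, hs, hp] at h3
  -- p² = x² (x+z)² ≤ (z-4)(x+z)²
  have h4 : (x * (x + z)) ^ 2 ≤ (z - 4) * (x + z) ^ 2 := by
    have : x ^ 2 * (x + z) ^ 2 ≤ (z - 4) * (x + z) ^ 2 :=
      mul_le_mul_of_nonneg_right (by omega) (sq_nonneg _)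
    nlinarith
  have h5 : ((z - 1) ^ 2 - 4 * x) * (2 * x + z - 1 + 1) < (z - 4) * (x + z) ^ 2 :=
    lt_of_lt_of_le h3 h4
  have h6 : 0 < z * (2 * z + 1 - x ^ 2) + 2 * x - 4 * x ^ 2 := by nlinarith
  nlinarith

/-- negative discriminant: bound for `c` -/
theorem neg_bound (s p e : ℤ) (hs : s = 2 * x + z - 1) (hp : p = x * (x + z))
    (he : e = s ^ 2 - 4 * p) (he0 : e < 0) (hs4 : 4 ≤ s) : -e * c ≤ 2 * s ^ 2 := by
  obtain ⟨D, hD⟩ : ∃ D, D = 2 * c ^ 2 - s * V := ⟨_, rfl⟩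
  have k2 := h.eD s p e D hs hp he hD
  have hx := h.hx
  have hz := h.z_ge
  have hc := h.c_gt_s
  have hcs : s + 1 ≤ c := by omega
  have hp1 : 1 ≤ p := by rw [hp]; nlinarith
  have hsq : s ^ 2 * (e * c ^ 4 + 2 * s ^ 2 * c ^ 3 + (s ^ 2 - 2 * p * s + 4 * p) * c ^ 2
      - 2 * p * s * c + p ^ 2) = (2 * p * D + (e * c ^ 2 + s ^ 2 * c - p * s)) ^ 2 := by
    rw [he] at k2 ⊢
    linear_combination (-(4 * p)) * k2
  have h1 : 0 ≤ s ^ 2 * (e * c ^ 4 + 2 * s ^ 2 * c ^ 3 + (s ^ 2 - 2 * p * s + 4 * p) * c ^ 2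
      - 2 * p * s * c + p ^ 2) := by rw [hsq]; exact sq_nonneg _
  have hs2 : 0 < s ^ 2 := by positivity
  have h2 : 0 ≤ e * c ^ 4 + 2 * s ^ 2 * c ^ 3 + (s ^ 2 - 2 * p * s + 4 * p) * c ^ 2
      - 2 * p * s * c + p ^ 2 := by
    by_contra hcon
    have := mul_neg_of_pos_of_neg hs2 (not_le.mp hcon)
    omega
  have h3 : (s ^ 2 - 2 * p * s + 4 * p) ≤ 0 := by nlinarith
  have h4 : p ≤ 2 * s * c := by
    have a1 : p ≤ s ^ 2 + s + 1 := by
      rw [hp, hs]; nlinarith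
    nlinarith
  have h5 : p ^ 2 ≤ 2 * p * s * c := by nlinarith
  have h6 : 0 ≤ c ^ 3 * (e * c + 2 * s ^ 2) := by
    have a1 : (s ^ 2 - 2 * p * s + 4 * p) * c ^ 2 ≤ 0 :=
      mul_nonpos_of_nonpos_of_nonneg h3 (sq_nonneg c)
    nlinarith
  have hc3 : 0 < c ^ 3 := by have : 0 < c := by omega
                             positivity
  have h7 : 0 ≤ e * c + 2 * s ^ 2 := by
    by_contra hcon
    have := mul_neg_of_pos_of_neg hc3 (not_le.mp hcon)
    omega
  linarith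

end Sys

end Pool.Agent.Lib.MP_6202c5_co
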