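import Pool.Agent.Lib.MP_6202c5_co.RowPos

set_option autoImplicit false

/-! The checker for `λ ≤ 200`. -/

namespace Pool.Agent.Lib.MP_6202c5_co

/-- leading coefficient `p² - ((z-1)² - 4x) w` -/
noncomputable def k3L (x z p w : ℕ) : ℕ :=
  Nat.sub (Nat.add (Nat.mul p p) (Nat.mul (Nat.mul 4 x) w))
    (Nat.mul (Nat.mul (Nat.sub z 1) (Nat.sub z 1)) w)
/-- uses `e + 2 s = z² - 1` -/
noncomputable def k2L (z s p L w : ℕ) : ℕ :=
  Nat.add (Nat.add (Nat.mul 2 (Nat.mul (Nat.mul s s) w))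
    (Nat.mul (Nat.mul L p) (Nat.sub (Nat.mul z z) 1))) (Nat.mul (Nat.mul p p) s)

noncomputable def tripleL (x z s p i n : ℕ) : Bool :=
  (fun L => (fun w => @Bool.rec (fun _ => Bool)
    (cubAll n (k3L x z p w) (k2L z s p L w) (k1 s p L i) (k0 s p L) (Nat.sub x 1) z)
    (Nat.ble (Nat.add (Nat.mul p p) (Nat.mul (Nat.mul 4 x) w))
      (Nat.mul (Nat.mul (Nat.sub z 1) (Nat.sub z 1)) w)) (Nat.beq n 0))
    (Nat.mul L i)) (Nat.add s i)

noncomputable def rowAuxL (x z s p cnt cd : ℕ) : Bool :=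
  allB (fun i => tripleL x z s p (Nat.add i 1)
    (Nat.mod (Nat.shiftRight cd (Nat.mul 8 i)) 256)) cnt

noncomputable def rowOKL (x z cd : ℕ) : Bool :=
  rowAuxL x z (Nat.sub (Nat.add (Nat.mul 2 x) z) 1) (Nat.mul x (Nat.add x z))
    (Nat.sub 201 (Nat.add (Nat.mul 2 x) z)) cd

noncomputable def rowsL (x : ℕ) (codes : List ℕ) : ℕ → Bool :=
  @List.rec ℕ (fun _ => ℕ → Bool) (fun z => Nat.ble 201 (Nat.add (Nat.mul 2 x) z))
    (fun code _ ih z => band (rowOKL x z code) (ih (Nat.add z 1))) codes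

theorem rowsL_true {x : ℕ} {codes : List ℕ} : ∀ {z0 : ℕ}, rowsL x codes z0 = true →
    ∀ z, z0 ≤ z → 2 * x + z ≤ 200 → ∃ code, rowOKL x z code = true := by
  induction codes with
  | nil =>
    intro z0 h z h1 h2
    have h3 : 201 ≤ 2 * x + z0 := Nat.le_of_ble_eq_true h
    omega
  | cons code cs ih =>
    intro z0 h z h1 h2
    have h3 : band (rowOKL x z0 code) (rowsL x cs (z0 + 1)) = true := h
    obtain ⟨h4, h5⟩ := band_true h3
    rcases Nat.eq_or_lt_of_le h1 with h6 | h6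
    · exact ⟨code, h6 ▸ h4⟩
    · exact ih h5 z h6 h2

theorem nat_cubicL (X Z S P L i C : ℕ) (hZ : 1 ≤ Z) (hL : L = S + i) (hPS : S ≤ P)
    (hLS : P ≤ L * S)
    (hw : (Z - 1) * (Z - 1) * (L * i) ≤ P * P + 4 * X * (L * i))
    (e : ℤ) (he : e = ((Z : ℤ) - 1) ^ 2 - 4 * X) (hes : e + 2 * S = (Z : ℤ) ^ 2 - 1)
    (hcub : ((P : ℤ) ^ 2 - e * (L * (L - S))) * C ^ 3
      - (2 * S ^ 2 * (L * (L - S)) + L * P * (e + 2 * S) + P ^ 2 * S) * C ^ 2
      + (P * (S - P) ^ 2 + (L * S - P) * ((S - 2 * P) * (S - L) + P)) * C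
      + P * (P - S) * (L * S - P) = 0) :
    k3L X Z P (L * i) * C ^ 3 + k1 S P L i * C + k0 S P L = k2L Z S P L (L * i) * C ^ 2 := by
  have h3 : k3L X Z P (L * i) = (P * P + 4 * X * (L * i)) - (Z - 1) * (Z - 1) * (L * i) := rfl
  have h2 : k2L Z S P L (L * i) = 2 * (S * S * (L * i)) + L * P * (Z * Z - 1) + P * P * S := rfl
  have h1 : k1 S P L i = P * ((P - S) * (P - S)) + (L * S - P) * ((2 * P - S) * i + P) := rfl
  have h0 : k0 S P L = P * (P - S) * (L * S - P) := rfl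
  rw [h3, h2, h1, h0]
  have h2P : S ≤ 2 * P := by omega
  have hZZ : 1 ≤ Z * Z := Nat.mul_pos hZ hZ
  rw [hes, he] at hcub
  zify [hw, hPS, hLS, h2P, hZ, hZZ]
  have hi : (i : ℤ) = L - S := by rw [hL]; push_cast; ring
  rw [hi]
  linear_combination hcub

theorem Sys.lam_row {X Z : ℕ} {m c V l g n : ℤ} (h : Sys X Z m c V l g n)
    (hl200 : l ≤ 200) {code : ℕ} (hr : rowOKL X Z code = true) : False := by
  have hX : 1 ≤ X := by have := h.hx; omega
  have hZ2 : 2 ≤ Z := by have := h.z_ge; omega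
  have hl := h.l_gt
  obtain ⟨L, hL⟩ := Int.eq_ofNat_of_zero_le (show 0 ≤ l by omega)
  obtain ⟨M, hM⟩ := Int.eq_ofNat_of_zero_le (show 0 ≤ m by have := h.hm; omega)
  obtain ⟨S, hS⟩ : ∃ S, S = 2 * X + Z - 1 := ⟨_, rfl⟩
  obtain ⟨P, hP⟩ : ∃ P, P = X * (X + Z) := ⟨_, rfl⟩
  obtain ⟨e, he⟩ : ∃ e : ℤ, e = ((Z : ℤ) - 1) ^ 2 - 4 * X := ⟨_, rfl⟩
  have hSi : (S : ℤ) = 2 * X + Z - 1 := by rw [hS]; omega
  have hPi : (P : ℤ) = X * (X + Z) := by rw [hP]; push_cast; ring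
  have hEi : e = (S : ℤ) ^ 2 - 4 * P := by rw [h.e_eq S P hSi hPi, he]
  have hcub := h.cubic S P e hSi hPi hEi
  have hG := h.G_pos S P hSi hPi
  obtain ⟨i, hi⟩ : ∃ i, L = S + i := ⟨L - S, by omega⟩
  have hi1 : 1 ≤ i := by omega
  have hcc : c = ((X - 1 + M * Z : ℕ) : ℤ) := by
    rw [h.hc, hM]; push_cast [hX]; ring
  have hPS : S ≤ P := by
    rw [hS, hP]
    have : 2 * X + Z ≤ X * (X + Z) + 1 := by nlinarith
    omega
  have hLS : P ≤ L * S := by
    rw [hL] at hG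
    zify; linarith
  have hLi : (L : ℤ) - S = i := by rw [hi]; push_cast; ring
  have hP1 : 1 ≤ P := by omega
  have hwi : e * ((L : ℤ) * i) < (P : ℤ) * P := by
    rcases lt_or_ge e 0 with h0 | h0
    · have h5 : e * ((L : ℤ) * i) ≤ 0 :=
        mul_nonpos_of_nonpos_of_nonneg h0.le (by positivity)
      have h6 : 0 < (P : ℤ) * P := by positivity
      omega
    · have hwin := h.window S P e hSi hPi hEi h0
      rw [hL, hLi] at hwin
      linarith
  have hw : (Z - 1) * (Z - 1) * (L * i) < P * P + 4 * X * (L * i) := by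
    zify [show 1 ≤ Z by omega]
    rw [he] at hwi
    linarith
  rw [hcc, hL] at hcub
  have hnc := nat_cubicL X Z S P L i (X - 1 + M * Z) (by omega) hi hPS hLS hw.le e he
    (by rw [he, hSi]; ring) hcub
  have hr' : rowAuxL X Z S P (201 - (2 * X + Z)) code = true := by
    rw [hS, hP]; exact hr
  have r3 := allB_true hr' (i - 1) (by omega)
  have r4 : tripleL X Z S P i ((code >>> (8 * (i - 1))) % 256) = true := by
    have : Nat.add (i - 1) 1 = i := by show i - 1 + 1 = i; omega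
    rw [this] at r3
    exact r3
  obtain ⟨N, hN⟩ : ∃ N, N = (code >>> (8 * (i - 1))) % 256 := ⟨_, rfl⟩
  rw [← hN] at r4
  unfold tripleL at r4
  cases hb : Nat.beq N 0 with
  | true =>
    rw [hb] at r4
    have r5 : Nat.ble (P * P + 4 * X * ((S + i) * i)) ((Z - 1) * (Z - 1) * ((S + i) * i))
      = true := r4
    have r6 := Nat.le_of_ble_eq_true r5
    rw [← hi] at r6
    omega
  | false =>
    rw [hb] at r4
    have r5 : cubAll N (k3L X Z P ((S + i) * i)) (k2L Z S P (S + i) ((S + i) * i)) (k1 S P (S + i) i)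
      (k0 S P (S + i)) (X - 1) Z = true := r4
    rw [← hi] at r5
    exact cubAll_true r5 M hnc

end Pool.Agent.Lib.MP_6202c5_co
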