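import Pool.Agent.Lib.MP_6202c5_co.Check

set_option autoImplicit false

/-! The checker for `(z-1)² < 4x`. -/

namespace Pool.Agent.Lib.MP_6202c5_co

/-- triples `(x, z, m)` left over by the modular test -/
def excN : List (ℕ × ℕ × ℕ) :=
  [(3, 3, 4), (3, 4, 8), (4, 4, 3), (6, 5, 8), (9, 5, 6), (16, 6, 4), (16, 7, 11), (17, 9, 34),
    (23, 9, 18), (24, 9, 17), (25, 10, 13), (27, 11, 27), (31, 11, 27), (39, 11, 6),
    (44, 11, 7), (54, 11, 9), (42, 12, 25), (45, 12, 18), (84, 12, 11)]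

noncomputable def tripleN (x z s p m n : ℕ) : Bool :=
  @Bool.rec (fun _ => Bool)
    ((fun c => quadAll n p (Nat.mul s (Nat.mul (Nat.add c 1) c))
      (Nat.mul (Nat.add c 1) (Nat.mul (Nat.mul c c) (Nat.sub c 1))))
      (Nat.sub (Nat.add x (Nat.mul m z)) 1))
    (@Bool.rec (fun _ => Bool) (decide ((x, z, m) ∈ excN)) true
      (Nat.ble (Nat.sub (Nat.add x (Nat.mul m z)) 1) s)) (Nat.beq n 0)

noncomputable def rowAuxN (x z s p t J cd : ℕ) : Bool :=
  band (Nat.ble (Nat.add (Nat.mul 2 (Nat.mul s s)) 1)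
      (Nat.mul t (Nat.sub (Nat.add x (Nat.mul (Nat.add J 2) z)) 1)))
    (allB (fun j => tripleN x z s p (Nat.add j 2)
      (Nat.mod (Nat.shiftRight cd (Nat.mul 8 j)) 256)) J)

noncomputable def rowOKN (x z code : ℕ) : Bool :=
  rowAuxN x z (Nat.sub (Nat.add (Nat.mul 2 x) z) 1) (Nat.mul x (Nat.add x z))
    (Nat.sub (Nat.mul 4 x) (Nat.mul (Nat.sub z 1) (Nat.sub z 1)))
    (Nat.mod code 65536) (Nat.div code 65536)

noncomputable def rowsN (z : ℕ) (codes : List ℕ) : ℕ → Bool :=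
  @List.rec ℕ (fun _ => ℕ → Bool) (fun x => Nat.ble (Nat.mul z z) x)
    (fun code _ ih x => band (rowOKN x z code) (ih (Nat.add x 1))) codes

theorem rowsN_true {z : ℕ} {codes : List ℕ} : ∀ {x0 : ℕ}, rowsN z codes x0 = true →
    ∀ x, x0 ≤ x → x < z ^ 2 → ∃ code, rowOKN x z code = true := by
  induction codes with
  | nil =>
    intro x0 h x h1 h2
    have h3 : z * z ≤ x0 := Nat.le_of_ble_eq_true h
    exfalso
    nlinarith
  | cons code cs ih =>
    intro x0 h x h1 h2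
    have h3 : band (rowOKN x0 z code) (rowsN z cs (x0 + 1)) = true := h
    obtain ⟨h4, h5⟩ := band_true h3
    rcases Nat.eq_or_lt_of_le h1 with h6 | h6
    · exact ⟨code, h6 ▸ h4⟩
    · exact ih h5 x h6 h2

theorem Sys.neg_row {X Z : ℕ} {m c V l g n : ℤ} (h : Sys X Z m c V l g n)
    (he : ((Z : ℤ) - 1) ^ 2 < 4 * (X : ℤ)) (hs4 : 5 ≤ 2 * X + Z) {code : ℕ}
    (hr : rowOKN X Z code = true) :
    ∃ M : ℕ, m = M ∧ (X, Z, M) ∈ excN := by
  have hX : 1 ≤ X := by have := h.hx; omega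
  have hZ2 : 2 ≤ Z := by have := h.z_ge; omega
  obtain ⟨M, hM⟩ := Int.eq_ofNat_of_zero_le (show 0 ≤ m by have := h.hm; omega)
  have hM2 : 2 ≤ M := by have := h.hm; omega
  obtain ⟨S, hS⟩ : ∃ S, S = 2 * X + Z - 1 := ⟨_, rfl⟩
  obtain ⟨P, hP⟩ : ∃ P, P = X * (X + Z) := ⟨_, rfl⟩
  obtain ⟨T, hT⟩ : ∃ T, T = 4 * X - (Z - 1) * (Z - 1) := ⟨_, rfl⟩
  have hSi : (S : ℤ) = 2 * X + Z - 1 := by rw [hS]; omega
  have hPi : (P : ℤ) = X * (X + Z) := by rw [hP]; push_cast; ring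
  have hTle : (Z - 1) * (Z - 1) ≤ 4 * X := by
    zify [show 1 ≤ Z by omega]
    nlinarith
  have hTi : -(T : ℤ) = (S : ℤ) ^ 2 - 4 * P := by
    rw [h.e_eq S P hSi hPi, hT]
    zify [hTle, show 1 ≤ Z by omega]
    ring
  have hTneg : -(T : ℤ) < 0 := by
    rw [hTi, h.e_eq S P hSi hPi]; omega
  have hbd := h.neg_bound S P (-(T : ℤ)) hSi hPi hTi hTneg (by omega)
  obtain ⟨C, hC⟩ : ∃ C, C = X + M * Z - 1 := ⟨_, rfl⟩
  have hMZ : 2 * Z ≤ M * Z := Nat.mul_le_mul_right Z hM2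
  have hcc : c = (C : ℤ) := by
    rw [h.hc, hM, hC]
    have : 1 ≤ X + M * Z := by omega
    push_cast [this]
    ring
  have hcs := h.c_gt_s
  have hCS : S + 1 ≤ C := by omega
  have hC1 : 1 ≤ C := by omega
  have hV0 : 0 ≤ V := by have := h.hV; omega
  obtain ⟨W, hW⟩ := Int.eq_ofNat_of_zero_le hV0
  -- the row
  obtain ⟨J, hJ⟩ : ∃ J, J = code % 65536 := ⟨_, rfl⟩
  have hr' : rowAuxN X Z S P T J (code / 65536) = true := by
    rw [hS, hP, hT, hJ]; exact hr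
  obtain ⟨r1, r2⟩ := band_true hr'
  have r1' : 2 * (S * S) + 1 ≤ T * (X + (J + 2) * Z - 1) := Nat.le_of_ble_eq_true r1
  have hbd' : T * C ≤ 2 * (S * S) := by
    rw [hcc] at hbd
    zify
    linarith
  have hMJ : M < J + 2 := by
    by_contra hcon
    have h1 : (J + 2) * Z ≤ M * Z := Nat.mul_le_mul_right Z (by omega)
    have h2 : T * (X + (J + 2) * Z - 1) ≤ T * C := Nat.mul_le_mul_left T (by omega)
    omega
  have r3 := allB_true r2 (M - 2) (by omega)
  have r4 : tripleN X Z S P M (((code / 65536) >>> (8 * (M - 2))) % 256) = true := by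
    have : Nat.add (M - 2) 2 = M := by show M - 2 + 2 = M; omega
    rw [this] at r3
    exact r3
  refine ⟨M, hM, ?_⟩
  obtain ⟨N, hN⟩ : ∃ N, N = ((code / 65536) >>> (8 * (M - 2))) % 256 := ⟨_, rfl⟩
  rw [← hN] at r4
  unfold tripleN at r4
  cases hb : Nat.beq N 0 with
  | true =>
    rw [hb] at r4
    cases hb2 : Nat.ble (Nat.sub (Nat.add X (Nat.mul M Z)) 1) S with
    | true =>
      have h1 : X + M * Z - 1 ≤ S := Nat.le_of_ble_eq_true hb2
      omega
    | false =>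
      rw [hb2] at r4
      exact of_decide_eq_true r4
  | false =>
    rw [hb] at r4
    exfalso
    have r5 : quadAll N P (S * ((C + 1) * C)) ((C + 1) * ((C * C) * (C - 1))) = true := by
      rw [hC]; exact r4
    apply quadAll_true r5 W
    have hQ := h.eQ
    rw [hcc, hW, ← hPi, ← hSi] at hQ
    zify [hC1]
    linear_combination hQ

end Pool.Agent.Lib.MP_6202c5_co
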