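import Pool.Agent.Lib.MP_6202c5_co.Check

set_option autoImplicit false

/-! The checker for `(z-1)² > 4x`. -/

namespace Pool.Agent.Lib.MP_6202c5_co

/-- triples `(x, z, l - s)` left over by the modular test -/
def exc : List (ℕ × ℕ × ℕ) :=
  [(4, 6, 7), (6, 6, 19), (8, 7, 26), (8, 7, 38), (12, 8, 89), (15, 9, 122), (15, 9, 142),
    (20, 10, 251), (21, 15, 31)]

/-- coefficients of the cubic -/
noncomputable def k3 (p e w : ℕ) : ℕ := Nat.sub (Nat.mul p p) (Nat.mul e w)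
noncomputable def k2 (s p e L w : ℕ) : ℕ :=
  Nat.add (Nat.add (Nat.mul 2 (Nat.mul (Nat.mul s s) w))
    (Nat.mul (Nat.mul L p) (Nat.add e (Nat.mul 2 s)))) (Nat.mul (Nat.mul p p) s)
noncomputable def k1 (s p L i : ℕ) : ℕ :=
  Nat.add (Nat.mul p (Nat.mul (Nat.sub p s) (Nat.sub p s)))
    (Nat.mul (Nat.sub (Nat.mul L s) p) (Nat.add (Nat.mul (Nat.sub (Nat.mul 2 p) s) i) p))
noncomputable def k0 (s p L : ℕ) : ℕ :=
  Nat.mul (Nat.mul p (Nat.sub p s)) (Nat.sub (Nat.mul L s) p)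

noncomputable def triple (x z s p e i n : ℕ) : Bool :=
  @Bool.rec (fun _ => Bool)
    ((fun L => (fun w => cubAll n (k3 p e w) (k2 s p e L w) (k1 s p L i) (k0 s p L)
      (Nat.sub x 1) z) (Nat.mul L i)) (Nat.add s i))
    (decide ((x, z, i) ∈ exc)) (Nat.beq n 0)

noncomputable def rowAux (x z s p e I cd : ℕ) : Bool :=
  band (Nat.ble (Nat.mul p p) (Nat.mul e (Nat.mul (Nat.add (Nat.add s I) 1) (Nat.add I 1))))
    (allB (fun i => triple x z s p e (Nat.add i 1)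
      (Nat.mod (Nat.shiftRight cd (Nat.mul 8 i)) 256)) I)

noncomputable def rowOK (x z code : ℕ) : Bool :=
  rowAux x z (Nat.sub (Nat.add (Nat.mul 2 x) z) 1) (Nat.mul x (Nat.add x z))
    (Nat.sub (Nat.mul (Nat.sub z 1) (Nat.sub z 1)) (Nat.mul 4 x))
    (Nat.mod code 65536) (Nat.div code 65536)

noncomputable def rows (x : ℕ) (codes : List ℕ) : ℕ → Bool :=
  @List.rec ℕ (fun _ => ℕ → Bool) (fun z => Nat.ble (Nat.add (Nat.mul x x) 4) z)
    (fun code _ ih z => band (rowOK x z code) (ih (Nat.add z 1))) codes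

theorem rows_true {x : ℕ} {codes : List ℕ} : ∀ {z0 : ℕ}, rows x codes z0 = true →
    ∀ z, z0 ≤ z → z ≤ x ^ 2 + 3 → ∃ code, rowOK x z code = true := by
  induction codes with
  | nil =>
    intro z0 h z h1 h2
    have h3 : x * x + 4 ≤ z0 := Nat.le_of_ble_eq_true h
    exfalso
    nlinarith
  | cons code cs ih =>
    intro z0 h z h1 h2
    have h3 : band (rowOK x z0 code) (rows x cs (z0 + 1)) = true := h
    obtain ⟨h4, h5⟩ := band_true h3
    rcases Nat.eq_or_lt_of_le h1 with h6 | h6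
    · exact ⟨code, h6 ▸ h4⟩
    · exact ih h5 z h6 h2

theorem nat_cubic (S P E L i C : ℕ) (hL : L = S + i) (hPS : S ≤ P) (hLS : P ≤ L * S)
    (hw : E * (L * i) ≤ P * P)
    (hcub : ((P : ℤ) ^ 2 - E * (L * (L - S))) * C ^ 3
      - (2 * S ^ 2 * (L * (L - S)) + L * P * (E + 2 * S) + P ^ 2 * S) * C ^ 2
      + (P * (S - P) ^ 2 + (L * S - P) * ((S - 2 * P) * (S - L) + P)) * C
      + P * (P - S) * (L * S - P) = 0) :
    k3 P E (L * i) * C ^ 3 + k1 S P L i * C + k0 S P L = k2 S P E L (L * i) * C ^ 2 := by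
  have h3 : k3 P E (L * i) = P * P - E * (L * i) := rfl
  have h2 : k2 S P E L (L * i) = 2 * (S * S * (L * i)) + L * P * (E + 2 * S) + P * P * S := rfl
  have h1 : k1 S P L i = P * ((P - S) * (P - S)) + (L * S - P) * ((2 * P - S) * i + P) := rfl
  have h0 : k0 S P L = P * (P - S) * (L * S - P) := rfl
  rw [h3, h2, h1, h0]
  have h2P : S ≤ 2 * P := by omega
  zify [hw, hPS, hLS, h2P]
  have hi : (i : ℤ) = L - S := by rw [hL]; push_cast; ring
  rw [hi]
  linear_combination hcub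

theorem Sys.pos_row {X Z : ℕ} {m c V l g n : ℤ} (h : Sys X Z m c V l g n)
    (he : 4 * (X : ℤ) < ((Z : ℤ) - 1) ^ 2) {code : ℕ} (hr : rowOK X Z code = true) :
    ∃ i : ℕ, l = 2 * (X : ℤ) + Z - 1 + i ∧ (X, Z, i) ∈ exc := by
  have hX : 1 ≤ X := by have := h.hx; omega
  have hZ2 : 2 ≤ Z := by have := h.z_ge; omega
  have hl := h.l_gt
  obtain ⟨L, hL⟩ := Int.eq_ofNat_of_zero_le (show 0 ≤ l by omega)
  obtain ⟨M, hM⟩ := Int.eq_ofNat_of_zero_le (show 0 ≤ m by have := h.hm; omega)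
  obtain ⟨S, hS⟩ : ∃ S, S = 2 * X + Z - 1 := ⟨_, rfl⟩
  obtain ⟨P, hP⟩ : ∃ P, P = X * (X + Z) := ⟨_, rfl⟩
  obtain ⟨E, hE⟩ : ∃ E, E = (Z - 1) * (Z - 1) - 4 * X := ⟨_, rfl⟩
  have hSi : (S : ℤ) = 2 * X + Z - 1 := by rw [hS]; omega
  have hPi : (P : ℤ) = X * (X + Z) := by rw [hP]; push_cast; ring
  have hEle : 4 * X ≤ (Z - 1) * (Z - 1) := by
    zify [show 1 ≤ Z by omega]
    nlinarith
  have hEi : (E : ℤ) = (S : ℤ) ^ 2 - 4 * P := by
    rw [h.e_eq S P hSi hPi, hE]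
    zify [hEle, show 1 ≤ Z by omega]
    ring
  have hEpos : 0 ≤ (E : ℤ) := by omega
  have hcub := h.cubic S P E hSi hPi hEi
  have hwin := h.window S P E hSi hPi hEi hEpos
  have hG := h.G_pos S P hSi hPi
  obtain ⟨i, hi⟩ : ∃ i, L = S + i := ⟨L - S, by omega⟩
  have hi1 : 1 ≤ i := by omega
  refine ⟨i, by omega, ?_⟩
  have hcc : c = ((X - 1 + M * Z : ℕ) : ℤ) := by
    rw [h.hc, hM]; push_cast [hX]; ring
  have hPS : S ≤ P := by
    rw [hS, hP]
    have : 2 * X + Z ≤ X * (X + Z) + 1 := by nlinarith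
    omega
  have hLS : P ≤ L * S := by
    rw [hL] at hG
    zify; linarith
  have hLi : (L : ℤ) - S = i := by rw [hi]; push_cast; ring
  have hw : E * (L * i) < P * P := by
    rw [hL, hLi] at hwin
    zify
    nlinarith
  rw [hcc, hL] at hcub
  have hnc := nat_cubic S P E L i (X - 1 + M * Z) hi hPS hLS hw.le hcub
  -- unfold the row
  obtain ⟨I, hI⟩ : ∃ I, I = code % 65536 := ⟨_, rfl⟩
  have hr' : rowAux X Z S P E I (code / 65536) = true := by
    rw [hS, hP, hE, hI]; exact hr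
  obtain ⟨r1, r2⟩ := band_true hr'
  have r1' : P * P ≤ E * ((S + I + 1) * (I + 1)) := Nat.le_of_ble_eq_true r1
  have hiI : i ≤ I := by
    by_contra hcon
    have h1 : I + 1 ≤ i := by omega
    have h2 : S + I + 1 ≤ L := by omega
    have h3 : (S + I + 1) * (I + 1) ≤ L * i := Nat.mul_le_mul h2 h1
    have h4 : E * ((S + I + 1) * (I + 1)) ≤ E * (L * i) := Nat.mul_le_mul_left E h3
    omega
  have r3 := allB_true r2 (i - 1) (by omega)
  have r4 : triple X Z S P E i (((code / 65536) >>> (8 * (i - 1))) % 256) = true := by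
    have : Nat.add (i - 1) 1 = i := by show i - 1 + 1 = i; omega
    rw [this] at r3
    exact r3
  obtain ⟨N, hN⟩ : ∃ N, N = ((code / 65536) >>> (8 * (i - 1))) % 256 := ⟨_, rfl⟩
  rw [← hN] at r4
  unfold triple at r4
  cases hb : Nat.beq N 0 with
  | true => rw [hb] at r4; exact of_decide_eq_true r4
  | false =>
    rw [hb] at r4
    exfalso
    have r5 : cubAll N (k3 P E ((S + i) * i)) (k2 S P E (S + i) ((S + i) * i)) (k1 S P (S + i) i)
      (k0 S P (S + i)) (X - 1) Z = true := r4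
    rw [← hi] at r5
    exact cubAll_true r5 M hnc

end Pool.Agent.Lib.MP_6202c5_co
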