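import Pool.Agent.Lib.MP_6202c5_co.Check

set_option autoImplicit false

/-! The checker for `(z-1)² = 4x`. -/

namespace Pool.Agent.Lib.MP_6202c5_co

noncomputable def zt (a x1 z u n : ℕ) : Bool :=
  cubAll n (Nat.mul a a)
    (Nat.add (Nat.mul 2 (Nat.mul u (Nat.sub u a))) (Nat.mul 4 (Nat.mul (Nat.mul a a) (Nat.sub a 1))))
    (Nat.sub (Nat.add (Nat.mul (Nat.sub (Nat.mul 2 a) 1) (Nat.mul u u))
      (Nat.mul 4 (Nat.mul (Nat.mul a a) (Nat.mul (Nat.sub a 1) (Nat.sub a 1)))))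
      (Nat.mul (Nat.mul 2 a) (Nat.mul (Nat.sub (Nat.mul 3 a) 2) u)))
    (Nat.mul 4 (Nat.mul (Nat.mul a a) (Nat.mul (Nat.sub a 1) u))) x1 z

noncomputable def chunkZ (a x1 z u0 cnt cd : ℕ) : Bool :=
  allB (fun j => zt a x1 z (Nat.add u0 j) (Nat.mod (Nat.shiftRight cd (Nat.mul 8 j)) 256)) cnt

theorem chunkZ_true {a x1 z u0 cnt cd : ℕ} (h : chunkZ a x1 z u0 cnt cd = true) (u : ℕ)
    (h1 : u0 ≤ u) (h2 : u < u0 + cnt) : ∃ n, zt a x1 z u n = true := by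
  have h3 := allB_true h (u - u0) (by omega)
  have h4 : Nat.add u0 (u - u0) = u := by show u0 + (u - u0) = u; omega
  rw [h4] at h3
  exact ⟨_, h3⟩

noncomputable def chunksZ (a x1 z : ℕ) (cds : List ℕ) : ℕ → Bool :=
  @List.rec ℕ (fun _ => ℕ → Bool) (fun _ => true)
    (fun cd _ ih u0 => band (chunkZ a x1 z u0 500 cd) (ih (Nat.add u0 500))) cds

theorem chunksZ_true {a x1 z : ℕ} {cds : List ℕ} : ∀ {u0 : ℕ}, chunksZ a x1 z cds u0 = true →
    ∀ u, u0 ≤ u → u < u0 + 500 * cds.length → ∃ n, zt a x1 z u n = true := by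
  induction cds with
  | nil =>
    intro u0 h u h1 h2
    simp only [List.length_nil] at h2
    omega
  | cons cd cs ih =>
    intro u0 h u h1 h2
    have h3 : band (chunkZ a x1 z u0 500 cd) (chunksZ a x1 z cs (u0 + 500)) = true := h
    obtain ⟨h4, h5⟩ := band_true h3
    rw [List.length_cons] at h2
    rcases Nat.lt_or_ge u (u0 + 500) with h6 | h6
    · exact chunkZ_true h4 u h1 h6
    · exact ih h5 u h6 (by omega)

theorem zero_cast (a U C : ℕ) (ha : 1 ≤ a) (hU : 3 * a + 1 ≤ U)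
    (h : (a : ℤ) ^ 2 * C ^ 3 - (2 * U ^ 2 - 2 * a * U + 4 * a ^ 2 * (a - 1)) * C ^ 2
      + ((2 * a - 1) * U ^ 2 - 2 * a * (3 * a - 2) * U + 4 * a ^ 2 * (a - 1) ^ 2) * C
      + 4 * a ^ 2 * (a - 1) * U = 0) :
    (a * a) * C ^ 3 + ((2 * a - 1) * (U * U) + 4 * ((a * a) * ((a - 1) * (a - 1)))
      - (2 * a) * ((3 * a - 2) * U)) * C + 4 * ((a * a) * ((a - 1) * U))
      = (2 * (U * (U - a)) + 4 * ((a * a) * (a - 1))) * C ^ 2 := by
  have h1 : (2 * a) * ((3 * a - 2) * U) ≤ (2 * a - 1) * (U * U)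
      + 4 * ((a * a) * ((a - 1) * (a - 1))) := by
    have h2 : (2 * a) * (3 * a - 2) ≤ (2 * a - 1) * U := by
      have h3 : (2 * a - 1) * (3 * a + 1) ≤ (2 * a - 1) * U := Nat.mul_le_mul_left _ hU
      have h4 : (2 * a) * (3 * a - 2) ≤ (2 * a - 1) * (3 * a + 1) := by
        zify [show 1 ≤ 2 * a by omega, show 2 ≤ 3 * a by omega]
        nlinarith
      exact h4.trans h3
    calc (2 * a) * ((3 * a - 2) * U) = ((2 * a) * (3 * a - 2)) * U := by ring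
      _ ≤ ((2 * a - 1) * U) * U := Nat.mul_le_mul_right U h2
      _ = (2 * a - 1) * (U * U) := by ring
      _ ≤ _ := Nat.le_add_right _ _
  zify [h1, ha, show 1 ≤ 2 * a by omega, show 2 ≤ 3 * a by omega, show a ≤ U by omega]
  linear_combination h

theorem Sys.zero_range {X Z : ℕ} {m c V l g n : ℤ} (h : Sys X Z m c V l g n) (a : ℕ) (ha : 3 ≤ a)
    (hs : 2 * X + Z = 4 * a + 1) (hp : X * (X + Z) = 4 * a ^ 2) :
    ∃ U : ℕ, l = U + a ∧ 3 * a + 1 ≤ U ∧ U < 4 * a ^ 4 - 3 * a ^ 3 + a := by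
  have hs' : 2 * (X : ℤ) + Z - 1 = 4 * a := by omega
  have hp' : (X : ℤ) * (X + Z) = 4 * a ^ 2 := by exact_mod_cast hp
  have hb := h.zero_bound a (l - a) (by omega) hs' hp' (by ring)
  obtain ⟨U, hU⟩ := Int.eq_ofNat_of_zero_le (show 0 ≤ l - a by omega)
  rw [hU] at hb
  refine ⟨U, by omega, by omega, ?_⟩
  have h1 : 3 * a ^ 3 ≤ 4 * a ^ 4 := by
    have : a ^ 3 * 3 ≤ a ^ 3 * (4 * a) := Nat.mul_le_mul_left _ (by omega)
    calc 3 * a ^ 3 = a ^ 3 * 3 := by ring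
      _ ≤ a ^ 3 * (4 * a) := this
      _ = 4 * a ^ 4 := by ring
  zify [h1]
  exact hb.2

theorem Sys.zero_point {X Z : ℕ} {m c V l g n : ℤ} (h : Sys X Z m c V l g n) (a U : ℕ)
    (ha : 3 ≤ a) (hs : 2 * X + Z = 4 * a + 1) (hp : X * (X + Z) = 4 * a ^ 2) (hU : l = U + a)
    (hUge : 3 * a + 1 ≤ U) (hN : ∃ n, zt a (X - 1) Z U n = true) : False := by
  have hX : 1 ≤ X := by have := h.hx; omega
  obtain ⟨M, hM⟩ := Int.eq_ofNat_of_zero_le (show 0 ≤ m by have := h.hm; omega)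
  have hs' : 2 * (X : ℤ) + Z - 1 = 4 * a := by omega
  have hp' : (X : ℤ) * (X + Z) = 4 * a ^ 2 := by exact_mod_cast hp
  have hc3 := h.zero_cubic a U (by omega) hs' hp' hU
  have hcc : c = ((X - 1 + M * Z : ℕ) : ℤ) := by
    rw [h.hc, hM]; push_cast [hX]; ring
  rw [hcc] at hc3
  obtain ⟨N, hN⟩ := hN
  exact cubAll_true hN M (zero_cast a U _ (by omega) hUge hc3)

end Pool.Agent.Lib.MP_6202c5_co
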