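import Pool.Agent.Lib.MP_6202c5_co.Num2

set_option autoImplicit false

/-! The case `(z-1)² = 4x`: `s = 4a`, `p = 4a²`, `l = u + a`. -/

namespace Pool.Agent.Lib.MP_6202c5_co

theorem zero_branch_pos (a u ν q D : ℤ) (hu : 0 < u) (hua : 0 < u - a) (hq : 0 < a ^ 2 * q)
    (hν : 1 ≤ ν)
    (e4 : ν * (u * (u - a)) = u * (4 * a ^ 4 - 3 * a ^ 3) - D ^ 2 - a ^ 2 * q) :
    u < 4 * a ^ 4 - 3 * a ^ 3 + a := by
  have hsq := sq_nonneg D
  have h1 : ν * (u * (u - a)) < u * (4 * a ^ 4 - 3 * a ^ 3) := by linarith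
  have h2 : u * (u - a) ≤ ν * (u * (u - a)) :=
    le_mul_of_one_le_left (mul_pos hu hua).le hν
  have h3 : u * (u - a) < u * (4 * a ^ 4 - 3 * a ^ 3) := lt_of_le_of_lt h2 h1
  have h4 := lt_of_mul_lt_mul_left h3 hu.le
  linarith

theorem zero_branch_nonpos (a u ν q D c : ℤ) (ha : 3 ≤ a) (hu : 0 < u) (hua : 0 < u - a)
    (hq : 0 < q) (hν : ν ≤ 0) (hua2 : a ^ 2 ≤ u) (hac : u ^ 2 < a ^ 2 * c)
    (hcq : c * q = 4 * a ^ 2 * (a - 1) * u) (hD1 : -a ^ 3 ≤ D) (hD2 : D ≤ a ^ 3)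
    (e4 : ν * (u * (u - a)) = u * (4 * a ^ 4 - 3 * a ^ 3) - D ^ 2 - a ^ 2 * q) :
    False := by
  have ha0 : 0 < a := by omega
  have h1 : u * (4 * a ^ 4 - 3 * a ^ 3) ≤ D ^ 2 + a ^ 2 * q := by
    have h2 : ν * (u * (u - a)) ≤ 0 :=
      mul_nonpos_of_nonpos_of_nonneg hν (mul_pos hu hua).le
    linarith
  have h2 : D ^ 2 ≤ (a ^ 3) ^ 2 := sq_le_sq' hD1 hD2
  have h3 : u * q < 4 * a ^ 4 * (a - 1) := by
    have h4 : u ^ 2 * q < a ^ 2 * c * q := mul_lt_mul_of_pos_right hac hq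
    have h5 : a ^ 2 * c * q = 4 * a ^ 4 * (a - 1) * u := by
      have : a ^ 2 * c * q = a ^ 2 * (c * q) := by ring
      rw [this, hcq]; ring
    rw [h5] at h4
    have h6 : u * (u * q) < u * (4 * a ^ 4 * (a - 1)) := by linarith
    exact lt_of_mul_lt_mul_left h6 hu.le
  have h4 : a ^ 2 * q < 4 * a ^ 4 * (a - 1) := by
    have h5 : a ^ 2 * q ≤ u * q := mul_le_mul_of_nonneg_right hua2 hq.le
    linarith
  have hx : 0 ≤ 4 * a ^ 4 - 3 * a ^ 3 := by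
    have : 4 * a ^ 4 - 3 * a ^ 3 = a ^ 3 * (4 * a - 3) := by ring
    rw [this]
    exact mul_nonneg (by positivity) (by omega)
  have h5 : a ^ 2 * (4 * a ^ 4 - 3 * a ^ 3) ≤ u * (4 * a ^ 4 - 3 * a ^ 3) :=
    mul_le_mul_of_nonneg_right hua2 hx
  have h6 : a ^ 2 * (4 * a ^ 4 - 3 * a ^ 3) < (a ^ 3) ^ 2 + 4 * a ^ 4 * (a - 1) := by linarith
  have h7 : 0 < a ^ 4 := by positivity
  have h8 : a ^ 4 * (4 * a ^ 2 - 3 * a) < a ^ 4 * (a ^ 2 + 4 * (a - 1)) := by linarith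
  have h9 := lt_of_mul_lt_mul_left h8 h7.le
  nlinarith

/-- arithmetic lemma: the range of `u` is bounded -/
theorem zero_arith (a u c : ℤ) (ha : 3 ≤ a) (hc : 4 * a + 1 ≤ c)
    (E : a ^ 2 * c ^ 3 - (2 * u ^ 2 - 2 * a * u + 4 * a ^ 2 * (a - 1)) * c ^ 2
      + ((2 * a - 1) * u ^ 2 - 2 * a * (3 * a - 2) * u + 4 * a ^ 2 * (a - 1) ^ 2) * c
      + 4 * a ^ 2 * (a - 1) * u = 0) : u < 4 * a ^ 4 - 3 * a ^ 3 + a := by
  by_contra hcon
  have hu : 4 * a ^ 4 - 3 * a ^ 3 + a ≤ u := not_lt.mp hcon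
  have hcpos : 0 < c := by omega
  have ha2 : 9 ≤ a ^ 2 := by nlinarith
  have ha3 : 3 * a ^ 2 ≤ a ^ 3 := by nlinarith
  have ha4 : 3 * a ^ 3 ≤ a ^ 4 := by nlinarith
  have hua2 : a ^ 2 ≤ u := by nlinarith
  have hu4a : 4 * a ≤ u := by nlinarith
  have hupos : 0 < u := by omega
  obtain ⟨S, hS⟩ : ∃ S, S = 2 * u ^ 2 - 2 * a * u + 4 * a ^ 2 * (a - 1) := ⟨_, rfl⟩
  obtain ⟨A, hA⟩ : ∃ A, A = (2 * a - 1) * u ^ 2 - 2 * a * (3 * a - 2) * u
    + 4 * a ^ 2 * (a - 1) ^ 2 := ⟨_, rfl⟩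
  obtain ⟨N, hN⟩ : ∃ N, N = S - a ^ 2 * c := ⟨_, rfl⟩
  obtain ⟨q, hq⟩ : ∃ q, q = c * N - A := ⟨_, rfl⟩
  rw [← hS, ← hA] at E
  have hcq : c * q = 4 * a ^ 2 * (a - 1) * u := by rw [hq, hN]; linear_combination (-1) * E
  have hR : 0 < 4 * a ^ 2 * (a - 1) * u := by
    have : 0 < a - 1 := by omega
    have : 0 < a := by omega
    positivity
  have hq0 : 0 < q := by rw [← hcq] at hR; exact (mul_pos_iff_of_pos_left hcpos).mp hR
  have hq1 : q < a * (a - 1) * u := by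
    have h1 : 4 * a * q < 4 * a * (a * (a - 1) * u) := by
      have : 4 * a * q < c * q := mul_lt_mul_of_pos_right (by omega) hq0
      nlinarith
    exact lt_of_mul_lt_mul_left h1 (by omega)
  have hcN : c * N = A + q := by rw [hq]; ring
  have hAq : A + q ≤ (2 * a - 1) * u ^ 2 := by
    have h1 : 4 * a ^ 2 * (a - 1) ^ 2 ≤ (5 * a ^ 2 - 3 * a) * u := by
      have h2 : 4 * a ^ 2 * (a - 1) ^ 2 ≤ (5 * a ^ 2 - 3 * a) * a ^ 2 := by
        have h3 : 4 * (a - 1) ^ 2 ≤ 5 * a ^ 2 - 3 * a := by nlinarith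
        nlinarith [mul_le_mul_of_nonneg_right h3 (sq_nonneg a)]
      have h4 : (5 * a ^ 2 - 3 * a) * a ^ 2 ≤ (5 * a ^ 2 - 3 * a) * u :=
        mul_le_mul_of_nonneg_left hua2 (by nlinarith)
      linarith
    rw [hA]; nlinarith
  have hApos : 0 < A := by
    rw [hA]
    have h1 : 2 * a * (3 * a - 2) ≤ (2 * a - 1) * u := by
      have h2 : (2 * a - 1) * a ^ 2 ≤ (2 * a - 1) * u :=
        mul_le_mul_of_nonneg_left hua2 (by omega)
      nlinarith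
    have h2 : 2 * a * (3 * a - 2) * u ≤ (2 * a - 1) * u * u :=
      mul_le_mul_of_nonneg_right h1 hupos.le
    have h3 : 0 < 4 * a ^ 2 * (a - 1) ^ 2 := by
      have : 0 < a - 1 := by omega
      have : 0 < a := by omega
      positivity
    nlinarith
  have hNpos : 0 < N := by
    have h1 : 0 < c * N := by rw [hcN]; omega
    exact (mul_pos_iff_of_pos_left hcpos).mp h1
  -- 2 N < u²
  have hN1 : 2 * N < u ^ 2 := by
    have h1 : 4 * a * N < (2 * a) * u ^ 2 := by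
      have h2 : 4 * a * N < c * N := mul_lt_mul_of_pos_right (by omega) hNpos
      have h3 : (2 * a - 1) * u ^ 2 ≤ (2 * a) * u ^ 2 :=
        mul_le_mul_of_nonneg_right (by omega) (sq_nonneg u)
      omega
    have h4 : (2 * a) * (2 * N) < (2 * a) * u ^ 2 := by nlinarith
    exact lt_of_mul_lt_mul_left h4 (by omega)
  have hac : u ^ 2 < a ^ 2 * c := by
    have h1 : a ^ 2 * c = S - N := by rw [hN]; ring
    rw [h1, hS]
    have h2 : 4 * a * u ≤ u * u := mul_le_mul_of_nonneg_right hu4a hupos.le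
    have h3 : 0 < 4 * a ^ 2 * (a - 1) := by
      have : 0 < a - 1 := by omega
      have : 0 < a := by omega
      positivity
    nlinarith
  have hN2 : N < a ^ 2 * (2 * a - 1) := by
    have h1 : u ^ 2 * N < u ^ 2 * (a ^ 2 * (2 * a - 1)) := by
      have h2 : u ^ 2 * N < a ^ 2 * c * N := mul_lt_mul_of_pos_right hac hNpos
      have h3 : a ^ 2 * (c * N) ≤ a ^ 2 * ((2 * a - 1) * u ^ 2) :=
        mul_le_mul_of_nonneg_left (by omega) (sq_nonneg a)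
      nlinarith
    exact lt_of_mul_lt_mul_left h1 (sq_nonneg u)
  obtain ⟨ν, hν⟩ : ∃ ν, ν = a ^ 2 * (2 * a - 1) - 2 * N := ⟨_, rfl⟩
  have e3 : ν * u ^ 2 = u * (4 * a ^ 4 - 3 * a ^ 3 + a * ν) - (N - 2 * a ^ 2 * (a - 1)) ^ 2
      - a ^ 2 * q := by
    have h1 : N * (a ^ 2 * c) = a ^ 2 * (A + q) := by rw [← hcN]; ring
    have h2 : a ^ 2 * c = S - N := by rw [hN]; ring
    rw [h2, hS, hA] at h1
    rw [hν]
    linear_combination (-1) * h1
  have e4 : ν * (u * (u - a)) = u * (4 * a ^ 4 - 3 * a ^ 3) - (N - 2 * a ^ 2 * (a - 1)) ^ 2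
      - a ^ 2 * q := by linear_combination e3
  have hua : 0 < u - a := by omega
  have ha0 : 0 < a := by omega
  by_cases hν1 : 1 ≤ ν
  · exact absurd (zero_branch_pos a u ν q _ hupos hua (by positivity) hν1 e4) hcon
  · have hν0 : ν ≤ 0 := by omega
    refine zero_branch_nonpos a u ν q _ c ha hupos hua hq0 hν0 hua2 hac hcq ?_ ?_ e4
    · have h1 : ν = a ^ 2 * (2 * a - 1) - 2 * N := hν
      linarith
    · have h1 : N < a ^ 2 * (2 * a - 1) := hN2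
      linarith

namespace Sys

variable {x z m c V l g n : ℤ}

theorem zero_cubic (h : Sys x z m c V l g n) (a u : ℤ) (ha : 1 ≤ a)
    (hs : 2 * x + z - 1 = 4 * a) (hp : x * (x + z) = 4 * a ^ 2) (hu : l = u + a) :
    a ^ 2 * c ^ 3 - (2 * u ^ 2 - 2 * a * u + 4 * a ^ 2 * (a - 1)) * c ^ 2
      + ((2 * a - 1) * u ^ 2 - 2 * a * (3 * a - 2) * u + 4 * a ^ 2 * (a - 1) ^ 2) * c
      + 4 * a ^ 2 * (a - 1) * u = 0 := by
  have h1 := h.cubic (4 * a) (4 * a ^ 2) 0 hs.symm hp.symm (by ring)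
  rw [hu] at h1
  have ha0 : (16 * a ^ 2 : ℤ) ≠ 0 := by
    have : a ≠ 0 := by omega
    positivity
  apply mul_left_cancel₀ ha0
  linear_combination h1

theorem zero_bound (h : Sys x z m c V l g n) (a u : ℤ) (ha : 3 ≤ a)
    (hs : 2 * x + z - 1 = 4 * a) (hp : x * (x + z) = 4 * a ^ 2) (hu : l = u + a) :
    3 * a + 1 ≤ u ∧ u < 4 * a ^ 4 - 3 * a ^ 3 + a := by
  have h1 := h.zero_cubic a u (by omega) hs hp hu
  have h2 := h.c_gt_s
  have h3 := h.l_gt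
  exact ⟨by omega, zero_arith a u c ha (by omega) h1⟩

/-- `x = 1`, `z = 3` -/
theorem no_one_three (h : Sys 1 3 m c V l g n) : False := by
  obtain ⟨u, hu⟩ : ∃ u, l = u + 1 := ⟨l - 1, by ring⟩
  have h1 := h.zero_cubic 1 u (by omega) (by norm_num) (by norm_num) hu
  have h2 := h.c_gt_s
  have h3 := h.l_gt
  have h4 : c * (c * (2 * u * (u - 1) - c) - u * (u - 2)) = 0 := by linear_combination (-1) * h1
  have hc0 : c ≠ 0 := by omega
  have h5 : c * (2 * u * (u - 1) - c) = u * (u - 2) := by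
    rcases mul_eq_zero.mp h4 with h6 | h6
    · exact absurd h6 hc0
    · linarith
  have hu4 : 4 ≤ u := by omega
  have h6 : 0 < c * (2 * u * (u - 1) - c) := by rw [h5]; nlinarith
  have h7 := (mul_pos_iff_of_pos_left (show 0 < c by omega)).mp h6
  have h8 : 0 ≤ (c - 1) * (2 * u * (u - 1) - c - 1) := mul_nonneg (by omega) (by omega)
  nlinarith

end Sys

end Pool.Agent.Lib.MP_6202c5_co
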